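import Pool.Agent.L0h37.KM.Stm

set_option autoImplicit false

/-!
# Asymptotics of the coefficients

`√h · bz M a p = exp (-i a log h) · ∑_{g ≤ G} g^(-1-2ia)`, `h = p.1 p.2`, and the sum is compared with
`Ph a (log G) = ∫_0^(log G) exp (-2iay) dy` by telescoping.
-/

namespace Pool.Agent.L0h37.KM.BZA

open Complex Filter Topology MeasureTheory Set
open Pool.Agent.Y969.GP (ht)

/-- the exponential `exp (-2iay)` -/
noncomputable def E (a y : ℝ) : ℂ := cexp (I * ((-(2 * a * y) : ℝ) : ℂ))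

theorem norm_E (a y : ℝ) : ‖E a y‖ = 1 := by
  unfold E
  rw [mul_comm]
  exact Complex.norm_exp_ofReal_mul_I _

theorem continuous_E (a : ℝ) : Continuous (E a) := by
  unfold E
  fun_prop

theorem exp_sub_one (x : ℝ) : ‖cexp (I * (x : ℂ)) - 1‖ ≤ |x| := by
  have h := Real.norm_exp_I_mul_ofReal_sub_one_le (x := x)
  rwa [Real.norm_eq_abs] at h

theorem E_sub (a y z : ℝ) : ‖E a y - E a z‖ ≤ 2 * |a| * |y - z| := by
  have e : E a y - E a z = E a z * (cexp (I * ((-(2 * a * (y - z)) : ℝ) : ℂ)) - 1) := by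
    unfold E
    rw [mul_sub, ← Complex.exp_add, mul_one]
    congr 2
    push_cast
    ring
  rw [e, norm_mul, norm_E, one_mul]
  refine (exp_sub_one _).trans (le_of_eq ?_)
  rw [abs_neg, abs_mul, abs_mul, abs_two]

/-- the integral of the exponential -/
noncomputable def Ph (a v : ℝ) : ℂ := ∫ y in (0 : ℝ)..v, E a y

theorem Ph_sub (a u v : ℝ) : Ph a v - Ph a u = ∫ y in u..v, E a y := by
  unfold Ph
  exact intervalIntegral.integral_interval_sub_left ((continuous_E a).intervalIntegrable _ _)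
    ((continuous_E a).intervalIntegrable _ _)

theorem Ph_lip (a u v : ℝ) : ‖Ph a v - Ph a u‖ ≤ |v - u| := by
  rw [Ph_sub]
  have h := intervalIntegral.norm_integral_le_of_norm_le_const (a := u) (b := v) (C := 1) (f := E a)
    (fun x _ => (norm_E a x).le)
  rwa [one_mul] at h

theorem step (a : ℝ) (G : ℕ) (hG : 1 ≤ G) :
    ‖((((G + 1 : ℕ) : ℝ)⁻¹ : ℝ) : ℂ) * E a (Real.log ((G + 1 : ℕ) : ℝ)) -
      (Ph a (Real.log ((G + 1 : ℕ) : ℝ)) - Ph a (Real.log (G : ℝ)))‖ ≤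
      (1 + 4 * |a|) * ((G : ℝ)⁻¹ - ((G + 1 : ℕ) : ℝ)⁻¹) := by
  obtain ⟨u, hu⟩ : ∃ u, u = Real.log (G : ℝ) := ⟨_, rfl⟩
  obtain ⟨v, hv⟩ : ∃ v, v = Real.log ((G + 1 : ℕ) : ℝ) := ⟨_, rfl⟩
  rw [← hu, ← hv]
  have hG0 : (0 : ℝ) < G := by exact_mod_cast hG
  have hG1 : (0 : ℝ) < ((G + 1 : ℕ) : ℝ) := by positivity
  have h1 : v - u ≤ (G : ℝ)⁻¹ := by
    rw [hu, hv, ← Real.log_div hG1.ne' hG0.ne']
    refine (Real.log_le_sub_one_of_pos (by positivity)).trans (le_of_eq ?_)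
    push_cast
    field_simp
    ring
  have h2 : ((G + 1 : ℕ) : ℝ)⁻¹ ≤ v - u := by
    have h3 : u - v ≤ -((G + 1 : ℕ) : ℝ)⁻¹ := by
      rw [hu, hv, ← Real.log_div hG0.ne' hG1.ne']
      refine (Real.log_le_sub_one_of_pos (by positivity)).trans (le_of_eq ?_)
      push_cast
      field_simp
      ring
    linarith
  have hd : 0 ≤ v - u := le_trans (by positivity) h2
  rw [Ph_sub]
  have e : ((((G + 1 : ℕ) : ℝ)⁻¹ : ℝ) : ℂ) * E a v - ∫ y in u..v, E a y =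
      (∫ y in u..v, (E a v - E a y)) + ((((G + 1 : ℕ) : ℝ)⁻¹ - (v - u) : ℝ) : ℂ) * E a v := by
    rw [intervalIntegral.integral_sub (continuous_const.intervalIntegrable _ _)
      ((continuous_E a).intervalIntegrable _ _), intervalIntegral.integral_const, Complex.real_smul]
    simp only [Complex.ofReal_sub]
    ring
  rw [e]
  refine (norm_add_le _ _).trans ?_
  have h4 : ‖∫ y in u..v, (E a v - E a y)‖ ≤ (2 * |a| * (v - u)) * |v - u| := by
    apply intervalIntegral.norm_integral_le_of_norm_le_const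
    intro y hy
    rw [uIoc_of_le (by linarith)] at hy
    refine (E_sub a v y).trans ?_
    rw [abs_of_nonneg (by linarith [hy.2] : 0 ≤ v - y)]
    exact mul_le_mul_of_nonneg_left (by linarith [hy.1]) (by positivity)
  have h5 : ‖((((G + 1 : ℕ) : ℝ)⁻¹ - (v - u) : ℝ) : ℂ) * E a v‖ ≤
      (G : ℝ)⁻¹ - ((G + 1 : ℕ) : ℝ)⁻¹ := by
    rw [norm_mul, norm_E, mul_one, Complex.norm_real, Real.norm_eq_abs,
      abs_of_nonpos (by linarith)]
    linarith
  have h6 : (2 * |a| * (v - u)) * |v - u| ≤ 4 * |a| * ((G : ℝ)⁻¹ - ((G + 1 : ℕ) : ℝ)⁻¹) := by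
    rw [abs_of_nonneg hd]
    have h7 : (v - u) * (v - u) ≤ 2 * ((G : ℝ)⁻¹ - ((G + 1 : ℕ) : ℝ)⁻¹) := by
      have h8 : (v - u) * (v - u) ≤ (G : ℝ)⁻¹ * (G : ℝ)⁻¹ := mul_le_mul h1 h1 hd (by positivity)
      refine h8.trans ?_
      have h9 : (G : ℝ)⁻¹ - ((G + 1 : ℕ) : ℝ)⁻¹ = (G : ℝ)⁻¹ * ((G + 1 : ℕ) : ℝ)⁻¹ := by
        push_cast
        field_simp
        ring
      rw [h9]
      have h10 : (G : ℝ)⁻¹ ≤ 2 * ((G + 1 : ℕ) : ℝ)⁻¹ := by
        rw [← div_eq_mul_inv, inv_eq_one_div, div_le_div_iff₀ hG0 hG1]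
        push_cast
        have : (1 : ℝ) ≤ G := by exact_mod_cast hG
        linarith
      calc (G : ℝ)⁻¹ * (G : ℝ)⁻¹ ≤ (G : ℝ)⁻¹ * (2 * ((G + 1 : ℕ) : ℝ)⁻¹) :=
            mul_le_mul_of_nonneg_left h10 (by positivity)
        _ = 2 * ((G : ℝ)⁻¹ * ((G + 1 : ℕ) : ℝ)⁻¹) := by ring
    calc 2 * |a| * (v - u) * (v - u) = 2 * |a| * ((v - u) * (v - u)) := by ring
      _ ≤ 2 * |a| * (2 * ((G : ℝ)⁻¹ - ((G + 1 : ℕ) : ℝ)⁻¹)) :=
          mul_le_mul_of_nonneg_left h7 (by positivity)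
      _ = _ := by ring
  calc _ ≤ 4 * |a| * ((G : ℝ)⁻¹ - ((G + 1 : ℕ) : ℝ)⁻¹) + ((G : ℝ)⁻¹ - ((G + 1 : ℕ) : ℝ)⁻¹) :=
        add_le_add (h4.trans h6) h5
    _ = _ := by ring

/-- the sum over `g` -/
noncomputable def S (a : ℝ) (G : ℕ) : ℂ := ∑ g ∈ Finset.Icc 1 G, (((g : ℝ)⁻¹ : ℝ) : ℂ) * E a (Real.log g)

theorem sum_bd (a : ℝ) (G : ℕ) (hG : 1 ≤ G) :
    ‖S a G - Ph a (Real.log G)‖ ≤ 1 + (1 + 4 * |a|) * (1 - (G : ℝ)⁻¹) := by
  induction G, hG using Nat.le_induction with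
  | base =>
    have e1 : S a 1 = E a 0 := by
      unfold S
      simp
    have e2 : Ph a (Real.log ((1 : ℕ) : ℝ)) = 0 := by
      rw [Nat.cast_one, Real.log_one]
      unfold Ph
      exact intervalIntegral.integral_same
    rw [e1, e2, sub_zero, norm_E]
    simp
  | succ G hG ih =>
    have e1 : S a (G + 1) = S a G + ((((G + 1 : ℕ) : ℝ)⁻¹ : ℝ) : ℂ) * E a (Real.log ((G + 1 : ℕ) : ℝ)) := by
      unfold S
      rw [Finset.sum_Icc_succ_top (by omega)]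
    have e2 : S a (G + 1) - Ph a (Real.log ((G + 1 : ℕ) : ℝ)) = (S a G - Ph a (Real.log G)) +
        (((((G + 1 : ℕ) : ℝ)⁻¹ : ℝ) : ℂ) * E a (Real.log ((G + 1 : ℕ) : ℝ)) -
          (Ph a (Real.log ((G + 1 : ℕ) : ℝ)) - Ph a (Real.log (G : ℝ)))) := by
      rw [e1]
      ring
    rw [e2]
    refine (norm_add_le _ _).trans ((add_le_add ih (step a G hG)).trans (le_of_eq ?_))
    ring

theorem sum_bd' (a : ℝ) (G : ℕ) (hG : 1 ≤ G) : ‖S a G - Ph a (Real.log G)‖ ≤ 2 + 4 * |a| := by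
  refine (sum_bd a G hG).trans ?_
  have h1 : (0 : ℝ) ≤ (G : ℝ)⁻¹ := by positivity
  have h2 : (1 + 4 * |a|) * (1 - (G : ℝ)⁻¹) ≤ (1 + 4 * |a|) * 1 :=
    mul_le_mul_of_nonneg_left (by linarith) (by positivity)
  linarith

/-- powers of natural numbers -/
theorem cpow_nat (n : ℕ) (hn : 1 ≤ n) (a : ℝ) : (n : ℂ) ^ (-(1 / 2 + I * (a : ℂ))) =
    ((Real.exp (-(Real.log n / 2)) : ℝ) : ℂ) * cexp (I * ((-(a * Real.log n) : ℝ) : ℂ)) := by
  have hn0 : (n : ℂ) ≠ 0 := by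
    have : n ≠ 0 := by omega
    exact_mod_cast this
  rw [Complex.cpow_def_of_ne_zero hn0, ← Complex.natCast_log, Complex.ofReal_exp, ← Complex.exp_add]
  congr 1
  push_cast
  ring

theorem term (g h : ℕ) (hg : 1 ≤ g) (hh : 1 ≤ h) (a : ℝ) :
    ((√(h : ℝ) : ℝ) : ℂ) * ((g ^ 2 * h : ℕ) : ℂ) ^ (-(1 / 2 + I * (a : ℂ))) =
      cexp (I * ((-(a * Real.log h) : ℝ) : ℂ)) * ((((g : ℝ)⁻¹ : ℝ) : ℂ) * E a (Real.log g)) := by
  have hg0 : (0 : ℝ) < g := by exact_mod_cast hg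
  have hh0 : (0 : ℝ) < h := by exact_mod_cast hh
  rw [cpow_nat _ (Nat.mul_pos (by positivity) hh)]
  have e1 : Real.log ((g ^ 2 * h : ℕ) : ℝ) = 2 * Real.log g + Real.log h := by
    push_cast
    rw [Real.log_mul (by positivity) hh0.ne', Real.log_pow]
    push_cast
    ring
  have e2 : √(h : ℝ) * Real.exp (-(Real.log ((g ^ 2 * h : ℕ) : ℝ) / 2)) = (g : ℝ)⁻¹ := by
    rw [e1, show -((2 * Real.log g + Real.log h) / 2) = -Real.log g + -(Real.log h / 2) by ring,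
      Real.exp_add, Real.exp_neg, Real.exp_log hg0]
    have e3 : Real.exp (-(Real.log h / 2)) = (√(h : ℝ))⁻¹ := by
      rw [Real.exp_neg, ← Real.log_sqrt hh0.le, Real.exp_log (Real.sqrt_pos.2 hh0)]
    rw [e3]
    have : √(h : ℝ) ≠ 0 := (Real.sqrt_pos.2 hh0).ne'
    field_simp
  have e3 : cexp (I * ((-(a * Real.log ((g ^ 2 * h : ℕ) : ℝ)) : ℝ) : ℂ)) =
      cexp (I * ((-(a * Real.log h) : ℝ) : ℂ)) * E a (Real.log g) := by
    unfold E
    rw [← Complex.exp_add, e1]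
    congr 1
    push_cast
    ring
  rw [e3, ← e2, Complex.ofReal_mul]
  ring

theorem bz_eq (M : ℕ) (a : ℝ) (p : ℕ × ℕ) (h1 : 1 ≤ p.1) (h2 : 1 ≤ p.2) :
    ((√(ht p) : ℝ) : ℂ) * bz M a p =
      cexp (I * ((-(a * Real.log (ht p)) : ℝ) : ℂ)) * S a (M / max p.1 p.2) := by
  have e : ht p = ((p.1 * p.2 : ℕ) : ℝ) := by
    unfold ht
    push_cast
    rfl
  unfold bz S
  rw [e, Finset.mul_sum, Finset.mul_sum]
  refine Finset.sum_congr rfl fun g hg => ?_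
  exact term g (p.1 * p.2) (Finset.mem_Icc.1 hg).1 (Nat.mul_pos h1 h2) a

theorem kap_eq (α L : ℝ) (hL : 0 < L) : kap α * (L : ℂ) = Ph (α / L) L := by
  unfold kap Ph
  have h := intervalIntegral.smul_integral_comp_mul_left (f := E (α / L)) (a := 0) (b := 1) L
  rw [mul_zero, mul_one] at h
  rw [← h, Complex.real_smul, mul_comm]
  congr 1
  refine intervalIntegral.integral_congr fun x _ => ?_
  unfold E
  congr 1
  push_cast
  have : (L : ℂ) ≠ 0 := by exact_mod_cast hL.ne'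
  field_simp

/-- the length of the sum -/
theorem length {B : ℕ} {T L : ℝ} (hL : 1 ≤ L) (hT : 1 ≤ T) (hLB : 4 * L ^ B ≤ √T) {M : ℕ}
    (hM : M = ⌊T / L ^ B⌋₊) {p : ℕ × ℕ} (h1 : 1 ≤ p.1) (h2 : 1 ≤ p.2) (hp : ht p ≤ √T) :
    1 ≤ M / max p.1 p.2 ∧ ((M / max p.1 p.2 : ℕ) : ℝ) ≤ T ∧
      T / (4 * L ^ B * ht p) ≤ ((M / max p.1 p.2 : ℕ) : ℝ) := by
  have hLB1 : 1 ≤ L ^ B := one_le_pow₀ hL
  have hsT : √T * √T = T := Real.mul_self_sqrt (by linarith)
  have hs1 : 1 ≤ √T := by rw [Real.one_le_sqrt]; exact hT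
  obtain ⟨m, hm⟩ : ∃ m, m = max p.1 p.2 := ⟨_, rfl⟩
  have hmh : m ≤ p.1 * p.2 := by
    rw [hm]
    exact max_le (Nat.le_mul_of_pos_right _ h2) (Nat.le_mul_of_pos_left _ h1)
  have hm0 : 1 ≤ m := by rw [hm]; exact h1.trans (le_max_left _ _)
  have hm0' : (0 : ℝ) < m := by exact_mod_cast hm0
  have hmh' : (m : ℝ) ≤ ht p := by
    unfold ht
    exact_mod_cast hmh
  have hh0 : 0 < ht p := lt_of_lt_of_le hm0' hmh'
  rw [← hm]
  have hTL : 4 * √T ≤ T / L ^ B := by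
    rw [le_div_iff₀ (by positivity)]
    nlinarith
  have hMf : T / L ^ B < M + 1 := by
    rw [hM]
    exact Nat.lt_floor_add_one _
  have hMle : (M : ℝ) ≤ T / L ^ B := by
    rw [hM]
    exact Nat.floor_le (by positivity)
  have hM2 : T / L ^ B / 2 ≤ M := by linarith
  have hmM : m ≤ M := by
    have h3 : (m : ℝ) ≤ M := by linarith
    exact_mod_cast h3
  have hG1 : 1 ≤ M / m := Nat.div_pos hmM hm0
  have hG1' : (1 : ℝ) ≤ ((M / m : ℕ) : ℝ) := by exact_mod_cast hG1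
  refine ⟨hG1, ?_, ?_⟩
  · have h3 : ((M / m : ℕ) : ℝ) ≤ M := by exact_mod_cast Nat.div_le_self M m
    have h4 : T / L ^ B ≤ T := div_le_self (by linarith) hLB1
    linarith
  · have h3 : M < m * (M / m + 1) := Nat.lt_mul_div_succ M hm0
    have h4 : (M : ℝ) < m * (((M / m : ℕ) : ℝ) + 1) := by exact_mod_cast h3
    obtain ⟨G, hG⟩ : ∃ G : ℝ, G = ((M / m : ℕ) : ℝ) := ⟨_, rfl⟩
    rw [← hG] at h4 hG1' ⊢
    rw [div_le_iff₀ (by positivity)]
    rw [div_div, div_le_iff₀ (by positivity)] at hM2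
    have h5 : (M : ℝ) ≤ 2 * (ht p * G) := by
      have h6 : (m : ℝ) * (G + 1) ≤ ht p * (2 * G) :=
        mul_le_mul hmh' (by linarith) (by linarith) hh0.le
      linarith
    calc T ≤ M * (L ^ B * 2) := hM2
      _ ≤ 2 * (ht p * G) * (L ^ B * 2) := mul_le_mul_of_nonneg_right h5 (by positivity)
      _ = G * (4 * L ^ B * ht p) := by ring

end Pool.Agent.L0h37.KM.BZA

namespace Pool.Agent.L0h37.KM

open Complex Filter Topology MeasureTheory Set
open Pool.Agent.Y969.GP (ht)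
open Pool.Agent.L0h37.KM.BZA

theorem t_BZA : S_BZA := by
  intro α B
  obtain ⟨C, hC⟩ : ∃ C : ℝ, C = |α| * (3 + 4 * |α|) + 4 * |α| + B + 4 := ⟨_, rfl⟩
  have hα := abs_nonneg α
  have hB : (0 : ℝ) ≤ B := Nat.cast_nonneg B
  have hC0 : 0 < C := by rw [hC]; positivity
  refine ⟨C, hC0, ?_⟩
  have e1 : ∀ᶠ T : ℝ in atTop, 4 * Real.log T ^ B ≤ √T := by
    have h := (isLittleO_log_rpow_rpow_atTop (B : ℝ) (by norm_num : (0 : ℝ) < 1 / 2)).bound
      (show (0 : ℝ) < 1 / 4 by norm_num)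
    filter_upwards [h, eventually_ge_atTop 1] with T h1 h2
    rw [Real.rpow_natCast, ← Real.sqrt_eq_rpow, Real.norm_eq_abs, Real.norm_eq_abs,
      abs_of_nonneg (Real.sqrt_nonneg T), abs_of_nonneg (pow_nonneg (Real.log_nonneg h2) B)] at h1
    linarith
  have e2 : ∀ᶠ T : ℝ in atTop, 1 ≤ Real.log T := Real.tendsto_log_atTop.eventually_ge_atTop 1
  filter_upwards [e1, e2, eventually_ge_atTop 1] with T hT1 hL hT p h1 h2 hp
  obtain ⟨L, hLdef⟩ : ∃ L, L = Real.log T := ⟨_, rfl⟩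
  rw [← hLdef] at hT1 hL ⊢
  have hL0 : 0 < L := by linarith
  have hMt : Mt B T = ⌊T / L ^ B⌋₊ := by rw [hLdef]; rfl
  obtain ⟨hG1, hG2, hG3⟩ := length hL hT hT1 hMt h1 h2 hp
  rw [bz_eq _ _ _ h1 h2, kap_eq α L hL0]
  obtain ⟨G, hG⟩ : ∃ G, G = Mt B T / max p.1 p.2 := ⟨_, rfl⟩
  rw [← hG] at hG1 hG2 hG3 ⊢
  have hG0 : (0 : ℝ) < G := by exact_mod_cast hG1
  obtain ⟨a, ha⟩ : ∃ a, a = α / L := ⟨_, rfl⟩
  rw [← ha]
  have haα : |a| ≤ |α| := by
    rw [ha, abs_div, abs_of_pos hL0]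
    exact div_le_self hα hL
  have haL : |a| * L = |α| := by
    rw [ha, abs_div, abs_of_pos hL0]
    field_simp
  have hh1 : 1 ≤ ht p := by
    unfold ht
    have : 1 ≤ p.1 * p.2 := Nat.mul_pos h1 h2
    exact_mod_cast this
  have hlh : 0 ≤ Real.log (ht p) := Real.log_nonneg hh1
  have hll : 0 ≤ Real.log L := Real.log_nonneg hL
  -- the length of the sum
  have k1 : Real.log G ≤ L := by
    rw [hLdef]
    exact Real.log_le_log hG0 hG2
  have k2 : L - (Real.log 4 + B * Real.log L + Real.log (ht p)) ≤ Real.log G := by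
    have h3 := Real.log_le_log (by positivity) hG3
    rw [Real.log_div (by linarith) (by positivity), Real.log_mul (by positivity) (by positivity),
      Real.log_mul (by norm_num) (by positivity), Real.log_pow, ← hLdef] at h3
    exact h3
  have k3 : Real.log 4 ≤ 2 := by
    have h3 : Real.log 4 = 2 * Real.log 2 := by
      rw [show (4 : ℝ) = 2 ^ 2 by norm_num, Real.log_pow]
      push_cast
      ring
    have := Real.log_two_lt_d9
    linarith
  have k0 : 0 ≤ Real.log G := Real.log_nonneg (by exact_mod_cast hG1)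
  -- the three differences
  have s1 := sum_bd' a G hG1
  have s2 : ‖Ph a (Real.log G) - Ph a L‖ ≤ 2 + B * Real.log L + Real.log (ht p) := by
    refine (Ph_lip a _ _).trans ?_
    rw [abs_of_nonpos (by linarith)]
    linarith
  have s3 : ‖S a G‖ ≤ (3 + 4 * |α|) * L := by
    have h3 : ‖Ph a (Real.log G)‖ ≤ L := by
      have h4 := Ph_lip a 0 (Real.log G)
      have h5 : Ph a 0 = 0 := by
        unfold Ph
        exact intervalIntegral.integral_same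
      rw [h5, sub_zero, sub_zero, abs_of_nonneg k0] at h4
      linarith
    have h4 : ‖S a G‖ ≤ ‖S a G - Ph a (Real.log G)‖ + ‖Ph a (Real.log G)‖ := by
      have := norm_add_le (S a G - Ph a (Real.log G)) (Ph a (Real.log G))
      rwa [sub_add_cancel] at this
    nlinarith
  have s4 : ‖cexp (I * ((-(a * Real.log (ht p)) : ℝ) : ℂ)) - 1‖ ≤ |a| * Real.log (ht p) := by
    refine (exp_sub_one _).trans (le_of_eq ?_)
    rw [abs_neg, abs_mul, abs_of_nonneg hlh]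
  have s5 : ‖(cexp (I * ((-(a * Real.log (ht p)) : ℝ) : ℂ)) - 1) * S a G‖ ≤
      |α| * (3 + 4 * |α|) * Real.log (ht p) := by
    rw [norm_mul]
    calc _ ≤ (|a| * Real.log (ht p)) * ((3 + 4 * |α|) * L) :=
          mul_le_mul s4 s3 (norm_nonneg _) (by positivity)
      _ = (|a| * L) * (3 + 4 * |α|) * Real.log (ht p) := by ring
      _ = _ := by rw [haL]
  have e3 : cexp (I * ((-(a * Real.log (ht p)) : ℝ) : ℂ)) * S a G - Ph a L =
      (cexp (I * ((-(a * Real.log (ht p)) : ℝ) : ℂ)) - 1) * S a G + (S a G - Ph a (Real.log G)) +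
        (Ph a (Real.log G) - Ph a L) := by ring
  rw [e3]
  refine (norm_add_le _ _).trans ((add_le_add (norm_add_le _ _) le_rfl).trans ?_)
  have s6 : |α| * (3 + 4 * |α|) * Real.log (ht p) + (2 + 4 * |α|) +
      (2 + B * Real.log L + Real.log (ht p)) ≤ C * (1 + Real.log (ht p) + Real.log L) := by
    rw [hC]
    have q1 : 0 ≤ |α| * (3 + 4 * |α|) := by positivity
    nlinarith [mul_nonneg q1 hll, mul_nonneg hα hlh, mul_nonneg hα hll, mul_nonneg hB hlh]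
  linarith

end Pool.Agent.L0h37.KM
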