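import Pool.Agent.L0h37.KM.Stm
import Pool.Agent.N879.PZ.M4l
import Pool.Agent.N879.PZ.Crd
import Pool.Agent.N879.PZ.Afx
import Pool.Agent.N879.PZ.Lt

set_option autoImplicit false

/-! KM, part FG: the factors. -/

namespace Pool.Agent.L0h37.KM

open Complex Filter Topology MeasureTheory Set
open Pool.Agent.Y969.GP (ff ht lam FR mB)

namespace FGx

lemma Z_cont : Continuous Z := by
  unfold Z
  rw [continuous_iff_continuousAt]
  intro u
  have hne : (1 / 2 + I * u : ℂ) ≠ 1 := by
    intro h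
    have h1 := congrArg Complex.re h
    simp at h1
  exact (differentiableAt_riemannZeta hne).continuousAt.comp
    (f := fun u : ℝ => (1 / 2 + I * u : ℂ)) (by fun_prop)

lemma PM_cont (M : ℕ) : Continuous (PM M) := by
  unfold PM
  refine continuous_finsetSum _ fun n hn => ?_
  have hn1 : (n : ℂ) ≠ 0 := by
    rw [Finset.mem_Icc] at hn
    exact_mod_cast (by omega : n ≠ 0)
  exact Continuous.const_cpow (by fun_prop) (Or.inl hn1)

lemma norm_Z_neg (v : ℝ) : ‖Z (-v)‖ = ‖Z v‖ := by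
  unfold Z
  have h1 : (1 / 2 + I * ((-v : ℝ) : ℂ)) = (starRingEnd ℂ) (1 / 2 + I * (v : ℂ)) := by
    simp only [map_add, map_mul, Complex.conj_I, Complex.conj_ofReal, map_div₀, map_one, map_ofNat]
    push_cast
    ring
  rw [h1, riemannZeta_conj, RCLike.norm_conj]

/-- the windows -/
lemma win (f : ℝ → ℝ) (hf : Continuous f) (h0 : ∀ x, 0 ≤ f x) (a T : ℝ) (ha : |a| ≤ 1) (hT : 1 ≤ T) :
    ∫ u in (0 : ℝ)..(2 * T), f (a + u) ≤ ∫ v in (-(3 * T))..(3 * T), f v ∧
    ∫ u in (0 : ℝ)..(2 * T), f (a - u) ≤ ∫ v in (-(3 * T))..(3 * T), f v := by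
  rw [abs_le] at ha
  constructor
  · rw [intervalIntegral.integral_comp_add_left f a]
    exact intervalIntegral.integral_mono_interval (by linarith) (by linarith) (by linarith)
      (Filter.Eventually.of_forall h0) (hf.intervalIntegrable _ _)
  · rw [intervalIntegral.integral_comp_sub_left f a]
    exact intervalIntegral.integral_mono_interval (by linarith) (by linarith) (by linarith)
      (Filter.Eventually.of_forall h0) (hf.intervalIntegrable _ _)

/-- the fourth moment on a symmetric interval -/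
lemma four : ∃ (C : ℝ) (A : ℕ), 0 < C ∧ ∀ T : ℝ, 3 ≤ T →
    ∫ v in (-(3 * T))..(3 * T), ‖Z v‖ ^ 4 ≤ C * (T * Real.log T ^ A) := by
  obtain ⟨C, A, hC, h⟩ := Pool.Agent.N879.PZ.t_M4L Pool.Agent.N879.PZ.t_AFX
    Pool.Agent.N879.PZ.t_CRD Pool.Agent.N879.PZ.t_LT
  refine ⟨6 * C * 3 ^ A, A, by positivity, fun T hT => ?_⟩
  have hc : Continuous fun v => ‖Z v‖ ^ 4 := (Z_cont.norm).pow 4
  have hi : ∀ a b : ℝ, IntervalIntegrable (fun v => ‖Z v‖ ^ 4) volume a b :=
    fun a b => hc.intervalIntegrable a b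
  have h1 := h (3 * T) (by linarith)
  have h2 : ∫ v in (0 : ℝ)..(3 * T), ‖Z v‖ ^ 4 = ∫ u in (0 : ℝ)..(3 * T), ff u ^ 2 := by
    refine intervalIntegral.integral_congr fun v _ => ?_
    show ‖Z v‖ ^ 4 = ff v ^ 2
    unfold ff Z
    ring
  have h3 : ∫ v in (-(3 * T))..(0 : ℝ), ‖Z v‖ ^ 4 = ∫ v in (0 : ℝ)..(3 * T), ‖Z v‖ ^ 4 := by
    have h4 := intervalIntegral.integral_comp_neg (a := 0) (b := 3 * T) (fun v => ‖Z v‖ ^ 4)
    rw [neg_zero] at h4
    rw [← h4]
    refine intervalIntegral.integral_congr fun v _ => ?_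
    show ‖Z (-v)‖ ^ 4 = ‖Z v‖ ^ 4
    rw [norm_Z_neg]
  rw [← intervalIntegral.integral_add_adjacent_intervals (hi _ 0) (hi 0 _), h3, h2]
  have hT0 : 0 < T := by linarith
  have hlog : Real.log (3 * T) ≤ 3 * Real.log T := by
    have h5 : Real.log (3 * T) ≤ Real.log (T ^ 3) := by
      apply Real.log_le_log (by linarith)
      nlinarith [sq_nonneg (T - 2), mul_pos hT0 hT0]
    rw [Real.log_pow] at h5
    push_cast at h5
    exact h5
  have hl0 : 0 ≤ Real.log (3 * T) := Real.log_nonneg (by linarith)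
  have h6 : Real.log (3 * T) ^ A ≤ (3 * Real.log T) ^ A := pow_le_pow_left₀ hl0 hlog A
  calc (∫ u in (0 : ℝ)..(3 * T), ff u ^ 2) + ∫ u in (0 : ℝ)..(3 * T), ff u ^ 2
      ≤ C * (3 * T) * Real.log (3 * T) ^ A + C * (3 * T) * Real.log (3 * T) ^ A := add_le_add h1 h1
    _ ≤ C * (3 * T) * (3 * Real.log T) ^ A + C * (3 * T) * (3 * Real.log T) ^ A := by
        gcongr
    _ = 6 * C * 3 ^ A * (T * Real.log T ^ A) := by rw [mul_pow]; ring

end FGx

open FGx in
theorem t_FG (h : S_L2A) : S_FG := by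
  intro B hB
  obtain ⟨⟨C1, hC1, hZ⟩, hP⟩ := h
  obtain ⟨C2, hC2, hPM⟩ := hP B hB
  obtain ⟨C4, A, hC4, h4⟩ := four
  refine ⟨C1 + 2 * C2 + C4, A, by positivity, ?_⟩
  have hL : Tendsto Real.log atTop atTop := Real.tendsto_log_atTop
  filter_upwards [hZ, hPM, eventually_ge_atTop (3 : ℝ), hL.eventually_ge_atTop (Real.exp 1)]
    with T hZT hPT hT3 hTe a ha
  obtain ⟨hP1, hP2⟩ := hPT
  have hT0 : 0 < T := by linarith
  set l := Real.log T with hl
  have hl1 : 1 ≤ l := (by have := Real.add_one_le_exp 1; linarith : (1 : ℝ) ≤ Real.exp 1).trans hTe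
  have hll1 : 1 ≤ Real.log l := by
    rw [Real.le_log_iff_exp_le (by linarith)]
    exact hTe
  set M := Mt B T with hM
  -- the integrals of the factors
  have w2 := win (fun v => ‖Z v‖ ^ 2) (Z_cont.norm.pow 2) (fun x => by positivity) a T ha (by linarith)
  have w4 := win (fun v => ‖Z v‖ ^ 4) (Z_cont.norm.pow 4) (fun x => by positivity) a T ha (by linarith)
  have wP := win (fun v => ‖PM M v‖ ^ 2) ((PM_cont M).norm.pow 2) (fun x => by positivity) a T ha
    (by linarith)
  have wD := win (fun v => ‖Z v - PM M v‖ ^ 2) ((Z_cont.sub (PM_cont M)).norm.pow 2)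
    (fun x => by positivity) a T ha (by linarith)
  have cZp : Continuous fun u : ℝ => Z (a + u) := Z_cont.comp (by fun_prop)
  have cZm : Continuous fun u : ℝ => Z (a - u) := Z_cont.comp (by fun_prop)
  have cPp : Continuous fun u : ℝ => PM M (a + u) := (PM_cont M).comp (by fun_prop)
  have cPm : Continuous fun u : ℝ => PM M (a - u) := (PM_cont M).comp (by fun_prop)
  have h2T : (0 : ℝ) ≤ 2 * T := by linarith
  refine ⟨?_, ?_, ?_⟩
  · -- the first moment
    have e1 : ∫ u in (0 : ℝ)..(2 * T), ‖Gz a u‖ ≤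
        ∫ u in (0 : ℝ)..(2 * T), (1 / 2 * ‖Z (a + u)‖ ^ 2 + 1 / 2 * ‖Z (a - u)‖ ^ 2) := by
      refine intervalIntegral.integral_mono_on h2T ?_ ?_ fun u _ => ?_
      · exact ((cZp.mul cZm).norm).intervalIntegrable _ _
      · exact ((continuous_const.mul (cZp.norm.pow 2)).add
          (continuous_const.mul (cZm.norm.pow 2))).intervalIntegrable _ _
      · unfold Gz
        rw [norm_mul]
        nlinarith [sq_nonneg (‖Z (a + u)‖ - ‖Z (a - u)‖)]
    have j1 : IntervalIntegrable (fun u => 1 / 2 * ‖Z (a + u)‖ ^ 2) volume 0 (2 * T) :=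
      (continuous_const.mul (cZp.norm.pow 2)).intervalIntegrable _ _
    have j2 : IntervalIntegrable (fun u => 1 / 2 * ‖Z (a - u)‖ ^ 2) volume 0 (2 * T) :=
      (continuous_const.mul (cZm.norm.pow 2)).intervalIntegrable _ _
    rw [intervalIntegral.integral_add j1 j2,
      intervalIntegral.integral_const_mul, intervalIntegral.integral_const_mul] at e1
    have e2 : 0 ≤ T * l := by positivity
    have e3 : (0 : ℝ) ≤ (2 * C2 + C4) * (T * l) := by positivity
    linarith [w2.1, w2.2]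
  · -- the second moment
    have e1 : ∫ u in (0 : ℝ)..(2 * T), ‖Gz a u‖ ^ 2 ≤
        ∫ u in (0 : ℝ)..(2 * T), (1 / 2 * ‖Z (a + u)‖ ^ 4 + 1 / 2 * ‖Z (a - u)‖ ^ 4) := by
      refine intervalIntegral.integral_mono_on h2T ?_ ?_ fun u _ => ?_
      · exact ((cZp.mul cZm).norm.pow 2).intervalIntegrable _ _
      · exact ((continuous_const.mul (cZp.norm.pow 4)).add
          (continuous_const.mul (cZm.norm.pow 4))).intervalIntegrable _ _
      · unfold Gz
        rw [norm_mul]
        nlinarith [sq_nonneg (‖Z (a + u)‖ ^ 2 - ‖Z (a - u)‖ ^ 2)]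
    have j1 : IntervalIntegrable (fun u => 1 / 2 * ‖Z (a + u)‖ ^ 4) volume 0 (2 * T) :=
      (continuous_const.mul (cZp.norm.pow 4)).intervalIntegrable _ _
    have j2 : IntervalIntegrable (fun u => 1 / 2 * ‖Z (a - u)‖ ^ 4) volume 0 (2 * T) :=
      (continuous_const.mul (cZm.norm.pow 4)).intervalIntegrable _ _
    rw [intervalIntegral.integral_add j1 j2,
      intervalIntegral.integral_const_mul, intervalIntegral.integral_const_mul] at e1
    have e2 := h4 T hT3
    have e3 : (0 : ℝ) ≤ (C1 + 2 * C2) * (T * l ^ A) := by positivity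
    linarith [w4.1, w4.2]
  · -- the difference
    set r : ℝ := √(l / Real.log l) with hr
    have hr0 : 0 < r := Real.sqrt_pos.2 (by positivity)
    have hrr : r * r = l / Real.log l := Real.mul_self_sqrt (by positivity)
    set S : ℝ := √(l * Real.log l) with hS
    have hSS : S * S = l * Real.log l := Real.mul_self_sqrt (by positivity)
    have hS0 : 0 ≤ S := Real.sqrt_nonneg _
    have hrS : r * Real.log l = S := by
      have : 0 ≤ r * Real.log l := by positivity
      have h5 : (r * Real.log l) ^ 2 = S ^ 2 := by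
        have : (r * Real.log l) ^ 2 = (r * r) * Real.log l ^ 2 := by ring
        rw [this, hrr, sq S, hSS]
        field_simp
      exact (sq_eq_sq₀ (by positivity) hS0).1 h5
    have hlS : r⁻¹ * l = S := by
      have h5 : (r⁻¹ * l) ^ 2 = S ^ 2 := by
        have : (r⁻¹ * l) ^ 2 = (r * r)⁻¹ * l ^ 2 := by rw [mul_inv]; ring
        rw [this, hrr, sq S, hSS]
        field_simp
      exact (sq_eq_sq₀ (by positivity) hS0).1 h5
    have cDp : Continuous fun u : ℝ => Z (a + u) - PM M (a + u) := cZp.sub cPp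
    have cDm : Continuous fun u : ℝ => Z (a - u) - PM M (a - u) := cZm.sub cPm
    have e1 : ∫ u in (0 : ℝ)..(2 * T), ‖Gz a u - GM M a u‖ ≤
        ∫ u in (0 : ℝ)..(2 * T), ((1 / 2 * (r * ‖Z (a + u) - PM M (a + u)‖ ^ 2) +
          1 / 2 * (r⁻¹ * ‖Z (a - u)‖ ^ 2)) + (1 / 2 * (r * ‖Z (a - u) - PM M (a - u)‖ ^ 2) +
          1 / 2 * (r⁻¹ * ‖PM M (a + u)‖ ^ 2))) := by
      refine intervalIntegral.integral_mono_on h2T ?_ ?_ fun u _ => ?_
      · exact (((cZp.mul cZm).sub (cPp.mul cPm)).norm).intervalIntegrable _ _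
      · exact (((continuous_const.mul (continuous_const.mul (cDp.norm.pow 2))).add
          (continuous_const.mul (continuous_const.mul (cZm.norm.pow 2)))).add
          ((continuous_const.mul (continuous_const.mul (cDm.norm.pow 2))).add
          (continuous_const.mul (continuous_const.mul (cPp.norm.pow 2))))).intervalIntegrable _ _
      · unfold Gz GM
        have e2 : Z (a + u) * Z (a - u) - PM M (a + u) * PM M (a - u) =
            (Z (a + u) - PM M (a + u)) * Z (a - u) +
              PM M (a + u) * (Z (a - u) - PM M (a - u)) := by ring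
        rw [e2]
        refine (norm_add_le _ _).trans ?_
        rw [norm_mul, norm_mul]
        have key : ∀ x y : ℝ, x * y ≤ 1 / 2 * (r * x ^ 2) + 1 / 2 * (r⁻¹ * y ^ 2) := by
          intro x y
          have h6 : 0 ≤ r⁻¹ * (r * x - y) ^ 2 := by positivity
          have h7 : r⁻¹ * (r * x - y) ^ 2 = r * x ^ 2 - 2 * (x * y) + r⁻¹ * y ^ 2 := by
            field_simp
            ring
          linarith
        have k1 := key ‖Z (a + u) - PM M (a + u)‖ ‖Z (a - u)‖
        have k2 := key ‖Z (a - u) - PM M (a - u)‖ ‖PM M (a + u)‖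
        linarith
    have i1 : IntervalIntegrable (fun u => 1 / 2 * (r * ‖Z (a + u) - PM M (a + u)‖ ^ 2)) volume 0 (2 * T) :=
      (continuous_const.mul (continuous_const.mul (cDp.norm.pow 2))).intervalIntegrable _ _
    have i2 : IntervalIntegrable (fun u => 1 / 2 * (r⁻¹ * ‖Z (a - u)‖ ^ 2)) volume 0 (2 * T) :=
      (continuous_const.mul (continuous_const.mul (cZm.norm.pow 2))).intervalIntegrable _ _
    have i3 : IntervalIntegrable (fun u => 1 / 2 * (r * ‖Z (a - u) - PM M (a - u)‖ ^ 2)) volume 0 (2 * T) :=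
      (continuous_const.mul (continuous_const.mul (cDm.norm.pow 2))).intervalIntegrable _ _
    have i4 : IntervalIntegrable (fun u => 1 / 2 * (r⁻¹ * ‖PM M (a + u)‖ ^ 2)) volume 0 (2 * T) :=
      (continuous_const.mul (continuous_const.mul (cPp.norm.pow 2))).intervalIntegrable _ _
    rw [intervalIntegral.integral_add (i1.add i2) (i3.add i4), intervalIntegral.integral_add i1 i2,
      intervalIntegral.integral_add i3 i4] at e1
    simp only [intervalIntegral.integral_const_mul] at e1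
    have b1 : r * ∫ u in (0 : ℝ)..(2 * T), ‖Z (a + u) - PM M (a + u)‖ ^ 2 ≤ C2 * (T * S) := by
      calc r * ∫ u in (0 : ℝ)..(2 * T), ‖Z (a + u) - PM M (a + u)‖ ^ 2
          ≤ r * (C2 * (T * Real.log l)) := mul_le_mul_of_nonneg_left (wD.1.trans hP2) hr0.le
        _ = C2 * (T * (r * Real.log l)) := by ring
        _ = C2 * (T * S) := by rw [hrS]
    have b3 : r * ∫ u in (0 : ℝ)..(2 * T), ‖Z (a - u) - PM M (a - u)‖ ^ 2 ≤ C2 * (T * S) := by
      calc r * ∫ u in (0 : ℝ)..(2 * T), ‖Z (a - u) - PM M (a - u)‖ ^ 2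
          ≤ r * (C2 * (T * Real.log l)) := mul_le_mul_of_nonneg_left (wD.2.trans hP2) hr0.le
        _ = C2 * (T * (r * Real.log l)) := by ring
        _ = C2 * (T * S) := by rw [hrS]
    have b2 : r⁻¹ * ∫ u in (0 : ℝ)..(2 * T), ‖Z (a - u)‖ ^ 2 ≤ C1 * (T * S) := by
      calc r⁻¹ * ∫ u in (0 : ℝ)..(2 * T), ‖Z (a - u)‖ ^ 2
          ≤ r⁻¹ * (C1 * (T * l)) := mul_le_mul_of_nonneg_left (w2.2.trans hZT) (by positivity)
        _ = C1 * (T * (r⁻¹ * l)) := by ring
        _ = C1 * (T * S) := by rw [hlS]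
    have b4 : r⁻¹ * ∫ u in (0 : ℝ)..(2 * T), ‖PM M (a + u)‖ ^ 2 ≤ C2 * (T * S) := by
      calc r⁻¹ * ∫ u in (0 : ℝ)..(2 * T), ‖PM M (a + u)‖ ^ 2
          ≤ r⁻¹ * (C2 * (T * l)) := mul_le_mul_of_nonneg_left (wP.1.trans hP1) (by positivity)
        _ = C2 * (T * (r⁻¹ * l)) := by ring
        _ = C2 * (T * S) := by rw [hlS]
    have hTS : 0 ≤ T * S := by positivity
    have f1 : 0 ≤ C1 * (T * S) := by positivity
    have f2 : 0 ≤ C2 * (T * S) := by positivity
    have f4 : 0 ≤ C4 * (T * S) := by positivity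
    linarith

end Pool.Agent.L0h37.KM
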