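import Pool.Agent.L0h37.KM.Stm
import Pool.Agent.TH264.GS.AP

set_option autoImplicit false

/-!
Project KM, module HLA (helper90): zeta against its partial sum of length about `3T` in mean square.
-/

namespace Pool.Agent.L0h37.KM

open Complex Filter Topology MeasureTheory Set

lemma hla_block (X N : ℕ) (hXN : X ≤ N) (s : ℂ) :
    _root_.ZU.DN N s - ∑ n ∈ Finset.Icc 1 X, (n : ℂ) ^ (-s)
      = ∑ n ∈ Finset.Ioc X N, (n : ℂ) ^ (-s) := by
  have e : ∀ M : ℕ, Finset.Icc 1 M = Finset.Ioc 0 M := by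
    intro M
    ext n
    rw [Finset.mem_Icc, Finset.mem_Ioc]
    omega
  unfold _root_.ZU.DN
  rw [e, e, ← Finset.sum_Ioc_consecutive _ (Nat.zero_le X) hXN]
  ring

lemma hla_pw (C₀ p u : ℝ) (hC₀ : 0 < C₀) (hp : 2 ≤ p) (hu1 : 1 ≤ u) (hu : u ≤ 2 * p ^ 8) (X : ℕ)
    (hX1 : 2 * p ^ 8 ≤ X) (hX2 : (X : ℝ) ≤ 4 * p ^ 8)
    (hK : ∀ (N N' : ℕ) (u : ℝ), 1 ≤ u → u ≤ N → N ≤ N' →
      ‖∑ n ∈ Finset.Ioc N N', (n : ℂ) ^ (-(1 / 2 + I * (u : ℂ)))‖ ≤ C₀ * √N' / u) :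
    ‖Z u - PM X u‖ ^ 2 ≤ 2 * (6 + 2 * C₀) ^ 2 * p ^ 10 / u ^ 2 + 98 / p ^ 6 := by
  have hp0 : 0 < p := by linarith
  have hp1 : 1 ≤ p := by linarith
  have hu0 : 0 < u := by linarith
  set N : ℕ := ⌈p ^ 10⌉₊ with hN
  have hN1 : p ^ 10 ≤ N := Nat.le_ceil _
  have h10 : (1 : ℝ) ≤ p ^ 10 := one_le_pow₀ hp1
  have hN2 : (N : ℝ) ≤ 2 * p ^ 10 := by
    have := Nat.ceil_lt_add_one (show (0 : ℝ) ≤ p ^ 10 by positivity)
    rw [← hN] at this
    linarith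
  have h82 : 4 * p ^ 8 ≤ p ^ 10 := by
    have : p ^ 10 = p ^ 2 * p ^ 8 := by ring
    rw [this]
    have h4 : (4 : ℝ) ≤ p ^ 2 := by nlinarith
    exact mul_le_mul_of_nonneg_right h4 (by positivity)
  have hXN : X ≤ N := by
    have : (X : ℝ) ≤ N := by linarith
    exact_mod_cast this
  have h8 : (1 : ℝ) ≤ p ^ 8 := one_le_pow₀ hp1
  have hN2' : 2 ≤ N := by
    have : (2 : ℝ) ≤ N := by linarith
    exact_mod_cast this
  have h1 := Pool.Agent.TH264.GS.pw p u hp1 hu0.le hu N hN2' hN1 hN2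
  have h2 := hK X N u hu1 (hu.trans hX1) hXN
  have e : Z u - PM X u = (riemannZeta (1 / 2 + I * (u : ℂ))
      - _root_.ZU.DN N (1 / 2 + I * (u : ℂ)))
      + ∑ n ∈ Finset.Ioc X N, (n : ℂ) ^ (-(1 / 2 + I * (u : ℂ))) := by
    rw [← hla_block X N hXN]
    unfold Z PM
    ring
  have hsq : √(N : ℝ) ≤ 2 * p ^ 5 := by
    apply Real.sqrt_le_iff.2
    refine ⟨by positivity, ?_⟩
    have : (2 * p ^ 5) ^ 2 = 4 * p ^ 10 := by ring
    rw [this]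
    linarith
  have h3 : ‖Z u - PM X u‖ ≤ (6 + 2 * C₀) * p ^ 5 / u + 7 / p ^ 3 := by
    rw [e]
    refine (norm_add_le _ _).trans ?_
    have h4 : 6 * p ^ 5 / (1 + u) ≤ 6 * p ^ 5 / u := by
      apply div_le_div_of_nonneg_left (by positivity) hu0 (by linarith)
    have h5 : C₀ * √(N : ℝ) / u ≤ 2 * C₀ * p ^ 5 / u := by
      apply div_le_div_of_nonneg_right _ hu0.le
      calc C₀ * √(N : ℝ) ≤ C₀ * (2 * p ^ 5) := mul_le_mul_of_nonneg_left hsq hC₀.le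
        _ = 2 * C₀ * p ^ 5 := by ring
    have h6 : (6 + 2 * C₀) * p ^ 5 / u = 6 * p ^ 5 / u + 2 * C₀ * p ^ 5 / u := by ring
    rw [h6]
    linarith
  have h7 : ‖Z u - PM X u‖ ^ 2 ≤ ((6 + 2 * C₀) * p ^ 5 / u + 7 / p ^ 3) ^ 2 :=
    pow_le_pow_left₀ (norm_nonneg _) h3 2
  have h8' : ((6 + 2 * C₀) * p ^ 5 / u + 7 / p ^ 3) ^ 2
      ≤ 2 * ((6 + 2 * C₀) * p ^ 5 / u) ^ 2 + 2 * (7 / p ^ 3) ^ 2 := by
    nlinarith [sq_nonneg ((6 + 2 * C₀) * p ^ 5 / u - 7 / p ^ 3)]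
  have h9 : 2 * ((6 + 2 * C₀) * p ^ 5 / u) ^ 2 + 2 * (7 / p ^ 3) ^ 2
      = 2 * (6 + 2 * C₀) ^ 2 * p ^ 10 / u ^ 2 + 98 / p ^ 6 := by
    field_simp
    ring
  linarith

/-- **HLA** -/
theorem t_HLA (h : S_KLB) : S_HLA := by
  obtain ⟨C₀, hC₀, hK⟩ := h
  refine ⟨2 * (4 * (6 + 2 * C₀) ^ 2 + 196), by positivity, ?_⟩
  filter_upwards [eventually_ge_atTop (200 : ℝ)] with T hT X hX1 hX2
  have hT0 : 0 < T := by linarith
  set p : ℝ := (3 * T / 2) ^ (1 / 8 : ℝ) with hp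
  have h32 : 0 < 3 * T / 2 := by positivity
  have hp0 : 0 < p := Real.rpow_pos_of_pos h32 _
  have hp8 : p ^ 8 = 3 * T / 2 := by
    rw [hp, ← Real.rpow_natCast, ← Real.rpow_mul h32.le]
    norm_num
  have hp2 : 2 ≤ p := by
    by_contra hlt
    push Not at hlt
    have : p ^ 8 < 2 ^ 8 := pow_lt_pow_left₀ hlt hp0.le (by norm_num)
    rw [hp8] at this
    linarith
  have hp1 : 1 ≤ p := by linarith
  have hp6 : p ^ 6 ≤ 2 * T ^ (3 / 4 : ℝ) := by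
    have e1 : p ^ 6 = (3 * T / 2) ^ (3 / 4 : ℝ) := by
      rw [hp, ← Real.rpow_natCast, ← Real.rpow_mul h32.le]
      norm_num
    have e2 : (3 * T / 2 : ℝ) = (3 / 2) * T := by ring
    rw [e1, e2, Real.mul_rpow (by norm_num) hT0.le]
    apply mul_le_mul_of_nonneg_right _ (Real.rpow_nonneg hT0.le _)
    calc (3 / 2 : ℝ) ^ (3 / 4 : ℝ) ≤ (3 / 2 : ℝ) ^ (1 : ℝ) :=
          Real.rpow_le_rpow_of_exponent_le (by norm_num) (by norm_num)
      _ ≤ 2 := by rw [Real.rpow_one]; norm_num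
  have hsT0 : 0 < √T := Real.sqrt_pos.2 hT0
  have hsT1 : 1 ≤ √T := Real.one_le_sqrt.2 (by linarith)
  have hsTsq : √T ^ 2 = T := Real.sq_sqrt hT0.le
  have hp4 : p ^ 4 ≤ 2 * √T := by
    have h1 : (p ^ 4) ^ 2 ≤ (2 * √T) ^ 2 := by
      have e1 : (p ^ 4) ^ 2 = p ^ 8 := by ring
      have e2 : (2 * √T) ^ 2 = 4 * √T ^ 2 := by ring
      rw [e1, e2, hp8, hsTsq]
      linarith
    exact le_of_sq_le_sq h1 (by positivity)
  have hsT3 : √T ≤ 3 * T := by nlinarith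
  set D : ℝ := 2 * (6 + 2 * C₀) ^ 2 * p ^ 10 with hD
  have hD0 : 0 ≤ D := by positivity
  have hpt : ∀ u ∈ Ioc (√T) (3 * T), ‖Z u - PM X u‖ ^ 2 ≤ D / u ^ 2 + 98 / p ^ 6 := by
    intro u hu
    exact hla_pw C₀ p u hC₀ hp2 (hsT1.trans hu.1.le) (by rw [hp8]; linarith [hu.2]) X
      (by rw [hp8]; linarith) (by rw [hp8]; linarith) hK
  have hcont : ContinuousOn (fun u : ℝ => D / u ^ 2 + 98 / p ^ 6) (Icc (√T) (3 * T)) := by
    apply ContinuousOn.add _ continuousOn_const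
    apply ContinuousOn.div continuousOn_const (continuousOn_id.pow 2)
    intro u hu
    have h0 : 0 < u := hsT0.trans_le hu.1
    exact (pow_pos h0 2).ne'
  have hFTC : ∫ u in (√T)..(3 * T), (D / u ^ 2 + 98 / p ^ 6)
      = (-(D / (3 * T)) + 98 / p ^ 6 * (3 * T)) - (-(D / √T) + 98 / p ^ 6 * √T) := by
    apply intervalIntegral.integral_eq_sub_of_hasDerivAt
      (f := fun u => -(D / u) + 98 / p ^ 6 * u)
    · intro u hu
      rw [uIcc_of_le hsT3] at hu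
      have hu0 : u ≠ 0 := (hsT0.trans_le hu.1).ne'
      have d1 : HasDerivAt (fun u : ℝ => D / u) (-(D / u ^ 2)) u := by
        have := (hasDerivAt_inv hu0).const_mul D
        refine (this.congr_deriv ?_).congr_of_eventuallyEq ?_
        · field_simp
        · exact Eventually.of_forall fun v => by simp [div_eq_mul_inv]
      have d2 := d1.neg.add ((hasDerivAt_id u).const_mul (98 / p ^ 6))
      refine d2.congr_deriv ?_
      simp
    · apply ContinuousOn.intervalIntegrable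
      rw [uIcc_of_le hsT3]
      exact hcont
  have hmono : ∫ u in (√T)..(3 * T), ‖Z u - PM X u‖ ^ 2 ≤
      ∫ u in (√T)..(3 * T), (D / u ^ 2 + 98 / p ^ 6) := by
    rw [intervalIntegral.integral_of_le hsT3, intervalIntegral.integral_of_le hsT3]
    apply integral_mono_of_nonneg
    · exact Eventually.of_forall fun u => by positivity
    · exact (hcont.integrableOn_Icc).mono_set Ioc_subset_Icc_self
    · rw [EventuallyLE, ae_restrict_iff' measurableSet_Ioc]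
      exact Eventually.of_forall fun u hu => hpt u hu
  refine hmono.trans ?_
  rw [hFTC]
  have h1 : D / √T ≤ 4 * (6 + 2 * C₀) ^ 2 * p ^ 6 := by
    rw [div_le_iff₀ hsT0, hD]
    have h2 : p ^ 10 = p ^ 6 * p ^ 4 := by ring
    rw [h2]
    calc 2 * (6 + 2 * C₀) ^ 2 * (p ^ 6 * p ^ 4) ≤ 2 * (6 + 2 * C₀) ^ 2 * (p ^ 6 * (2 * √T)) := by
          gcongr
      _ = 4 * (6 + 2 * C₀) ^ 2 * p ^ 6 * √T := by ring
  have h2 : 98 / p ^ 6 * (3 * T) = 196 * p ^ 2 := by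
    have : 3 * T = 2 * p ^ 8 := by rw [hp8]; ring
    rw [this]
    field_simp
    ring
  have h3 : p ^ 2 ≤ p ^ 6 := pow_le_pow_right₀ hp1 (by norm_num)
  have h4 : 0 ≤ D / (3 * T) := by positivity
  have h5 : 0 ≤ 98 / p ^ 6 * √T := by positivity
  have h6 : (4 * (6 + 2 * C₀) ^ 2 + 196) * p ^ 6
      ≤ (4 * (6 + 2 * C₀) ^ 2 + 196) * (2 * T ^ (3 / 4 : ℝ)) :=
    mul_le_mul_of_nonneg_left hp6 (by positivity)
  rw [h2]
  nlinarith

end Pool.Agent.L0h37.KM
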