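import Pool.Agent.L0h37.KM.Stm
import Pool.Agent.H438R2.DL.Weyl

set_option autoImplicit false

/-! KLB: the blocks beyond the stationary point (Kusmin-Landau). -/

namespace Pool.Agent.L0h37.KM

open Finset

namespace KLB

/-- `n^(iu)` -/
noncomputable def zz (u : ℝ) (n : ℕ) : ℂ := Pool.Agent.H469R2.NK.e (u / (2 * Real.pi) * Real.log n)

theorem zz_eq (u : ℝ) (n : ℕ) (hn : 1 ≤ n) :
    (n : ℂ) ^ (-(1 / 2 + Complex.I * (u : ℂ))) =
      ((n : ℝ) ^ (-(1 / 2) : ℝ) : ℝ) * (starRingEnd ℂ) (zz u n) := by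
  have hn0 : (n : ℂ) ≠ 0 := by
    exact_mod_cast (by omega : n ≠ 0)
  have hnp : (0 : ℝ) < n := by exact_mod_cast hn
  have hlog : Complex.log (n : ℂ) = ((Real.log n : ℝ) : ℂ) := by
    rw [← Complex.natCast_log]
  unfold zz Pool.Agent.H469R2.NK.e
  rw [Real.rpow_def_of_pos hnp, Complex.cpow_def_of_ne_zero hn0, hlog, ← Complex.exp_conj, Complex.ofReal_exp,
    ← Complex.exp_add]
  congr 1
  rw [map_mul, Complex.conj_I, Complex.conj_ofReal]
  have hpi : (Real.pi : ℝ) ≠ 0 := Real.pi_ne_zero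
  have e1 : (2 * Real.pi * (u / (2 * Real.pi) * Real.log n) : ℝ) = u * Real.log n := by
    field_simp
  rw [e1]
  push_cast
  ring

theorem block (u : ℝ) (hu : 1 ≤ u) (Y a L : ℕ) (hY : 1 ≤ Y) (huY : u ≤ Y) (ha : Y + 1 ≤ a)
    (haL : a + L ≤ 2 * Y + 1) :
    ‖∑ n ∈ range L, zz u (a + n)‖ ≤ 40 * Y / u := by
  have hu0 : 0 < u := by linarith
  have hY0 : (0 : ℝ) < Y := by exact_mod_cast hY
  rcases Nat.lt_or_ge Y 2 with h | h
  · have hY1 : Y = 1 := by omega
    have hu1 : u ≤ 1 := by rw [hY1] at huY; exact_mod_cast huY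
    have hu2 : u = 1 := le_antisymm hu1 hu
    refine (norm_sum_le _ _).trans ?_
    have h1 : ∀ n ∈ range L, ‖zz u (a + n)‖ ≤ 1 := fun n _ => by
      unfold zz
      exact (Pool.Agent.H469R2.NK.norm_e _).le
    refine (sum_le_sum h1).trans ?_
    rw [sum_const, card_range, nsmul_eq_mul, mul_one, hu2, hY1]
    have : L ≤ 1 := by omega
    have h2 : (L : ℝ) ≤ 1 := by exact_mod_cast this
    norm_num
    linarith
  · have hZ : 0 < u / (2 * Real.pi) := by positivity
    have hpi := Real.pi_gt_three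
    have hpi4 := Real.pi_lt_d2
    have h1 := Pool.Agent.H438R2.DL.SL_le 0 (u / (2 * Real.pi)) le_rfl zero_le_one hZ Y a L hY (by omega)
      (by omega) [] (by simp) (by
        simp only [List.length_nil, zero_add, Nat.factorial_zero, Nat.cast_one, List.prod_nil, mul_one, pow_one]
        rw [mul_one_div, ← mul_div_assoc, div_le_one hY0]
        have : 2 * (u / (2 * Real.pi)) = u / Real.pi := by field_simp
        rw [this]
        refine le_trans ?_ huY
        rw [div_le_iff₀ (by positivity)]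
        nlinarith)
    simp only [List.length_nil, zero_add, Nat.factorial_zero, Nat.cast_one, List.prod_nil, mul_one, pow_one] at h1
    have h2 : Pool.Agent.H438R2.DL.SL 0 (u / (2 * Real.pi)) a L [] = ∑ n ∈ range L, zz u (a + n) := by
      unfold Pool.Agent.H438R2.DL.SL
      simp only [List.sum_nil, Nat.sub_zero]
      refine sum_congr rfl fun n _ => ?_
      unfold zz Pool.Agent.H438R2.DL.DL
      rw [add_zero]
    rw [h2] at h1
    refine h1.trans ?_
    have e1 : 2 * (3 * (Y : ℝ)) / (u / (2 * Real.pi)) = 12 * Real.pi * Y / u := by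
      field_simp
      ring
    rw [e1]
    gcongr
    linarith

/-- partial summation with decreasing weights -/
theorem parts (z : ℕ → ℂ) (w : ℕ → ℝ) (B : ℝ) (L : ℕ) (hw : ∀ n < L, w (n + 1) ≤ w n) (hw0 : 0 ≤ w L)
    (hB : ∀ k ≤ L, ‖∑ n ∈ range k, z n‖ ≤ B) :
    ‖∑ n ∈ range L, (w n : ℂ) * z n‖ ≤ w 0 * B := by
  have key : ∀ K, ∑ n ∈ range K, (w n : ℂ) * z n = (w K : ℂ) * ∑ n ∈ range K, z n +
      ∑ k ∈ range K, ((w k - w (k + 1) : ℝ) : ℂ) * ∑ n ∈ range (k + 1), z n := by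
    intro K
    induction K with
    | zero => simp
    | succ K ih =>
      rw [sum_range_succ, ih, sum_range_succ (fun k => ((w k - w (k + 1) : ℝ) : ℂ) * ∑ n ∈ range (k + 1), z n) K,
        sum_range_succ (fun n => z n) K]
      push_cast
      ring
  have tel : ∀ K, ∑ k ∈ range K, (w k - w (k + 1)) = w 0 - w K := by
    intro K
    induction K with
    | zero => simp
    | succ K ih => rw [sum_range_succ, ih]; ring
  rw [key L]
  have hB0 : 0 ≤ B := by
    have := hB 0 (Nat.zero_le _)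
    simpa using this
  calc _ ≤ ‖(w L : ℂ) * ∑ n ∈ range L, z n‖ +
        ‖∑ k ∈ range L, ((w k - w (k + 1) : ℝ) : ℂ) * ∑ n ∈ range (k + 1), z n‖ := norm_add_le _ _
    _ ≤ w L * B + ∑ k ∈ range L, (w k - w (k + 1)) * B := by
        apply add_le_add
        · rw [norm_mul, Complex.norm_real, Real.norm_eq_abs, abs_of_nonneg hw0]
          exact mul_le_mul_of_nonneg_left (hB L le_rfl) hw0
        · refine (norm_sum_le _ _).trans (sum_le_sum fun k hk => ?_)
          rw [mem_range] at hk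
          have h1 : 0 ≤ w k - w (k + 1) := sub_nonneg.2 (hw k hk)
          rw [norm_mul, Complex.norm_real, Real.norm_eq_abs, abs_of_nonneg h1]
          exact mul_le_mul_of_nonneg_left (hB (k + 1) (by omega)) h1
    _ = w 0 * B := by
        rw [← sum_mul, tel L]
        ring

theorem wblock (u : ℝ) (hu : 1 ≤ u) (Y M' : ℕ) (hY : 1 ≤ Y) (huY : u ≤ Y) (hM : Y ≤ M') (hM2 : M' ≤ 2 * Y) :
    ‖∑ n ∈ Ioc Y M', (n : ℂ) ^ (-(1 / 2 + Complex.I * (u : ℂ)))‖ ≤ 40 * √Y / u := by
  have hY0 : (0 : ℝ) < Y := by exact_mod_cast hY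
  have hu0 : 0 < u := by linarith
  have e1 : ∑ n ∈ Ioc Y M', (n : ℂ) ^ (-(1 / 2 + Complex.I * (u : ℂ))) =
      ∑ n ∈ range (M' - Y), ((((Y + 1 + n : ℕ) : ℝ) ^ (-(1 / 2) : ℝ) : ℝ) : ℂ) *
        (starRingEnd ℂ) (zz u (Y + 1 + n)) := by
    have h1 : Ioc Y M' = Ico (Y + 1) (M' + 1) := by
      ext n; simp only [mem_Ioc, mem_Ico]; omega
    rw [h1, sum_Ico_eq_sum_range, show M' + 1 - (Y + 1) = M' - Y by omega]
    refine sum_congr rfl fun n _ => ?_
    exact zz_eq u (Y + 1 + n) (by omega)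
  rw [e1]
  have h := parts (fun n => (starRingEnd ℂ) (zz u (Y + 1 + n))) (fun n => ((Y + 1 + n : ℕ) : ℝ) ^ (-(1 / 2) : ℝ))
    (40 * Y / u) (M' - Y) (fun n _ => by
      apply Real.rpow_le_rpow_of_nonpos
      · positivity
      · push_cast; linarith
      · norm_num) (by positivity) (fun k hk => by
      rw [← map_sum, RCLike.norm_conj]
      exact block u hu Y (Y + 1) k hY huY le_rfl (by omega))
  refine h.trans ?_
  have h2 : ((Y + 1 + 0 : ℕ) : ℝ) ^ (-(1 / 2) : ℝ) ≤ (√Y)⁻¹ := by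
    rw [Real.sqrt_eq_rpow, ← Real.rpow_neg hY0.le]
    apply Real.rpow_le_rpow_of_nonpos hY0
    · push_cast; linarith
    · norm_num
  calc _ ≤ (√Y)⁻¹ * (40 * Y / u) := by gcongr
    _ = 40 * √Y / u := by
        have h3 : (Y : ℝ) = √Y * √Y := (Real.mul_self_sqrt hY0.le).symm
        have h4 : 0 < √(Y : ℝ) := Real.sqrt_pos.2 hY0
        field_simp
        rw [Real.sq_sqrt hY0.le]

end KLB

theorem t_KLB : S_KLB := by
  refine ⟨400, by norm_num, ?_⟩
  intro N N' u hu huN hNN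
  have hu0 : 0 < u := by linarith
  have hN1 : 1 ≤ N := by
    have : (1 : ℝ) ≤ N := hu.trans huN
    exact_mod_cast this
  induction N' using Nat.strong_induction_on with
  | _ N' ih =>
    rcases Nat.lt_or_ge (2 * N) N' with h | h
    · obtain ⟨Y, hY⟩ : ∃ Y, Y = (N' + 1) / 2 := ⟨_, rfl⟩
      have hYN : N ≤ Y := by omega
      have hYN' : Y < N' := by omega
      have h2Y : N' ≤ 2 * Y := by omega
      have h3 : 3 * Y ≤ 2 * N' := by omega
      have hYr : (N : ℝ) ≤ Y := by exact_mod_cast hYN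
      have i1 := ih Y hYN' hYN
      have i2 := KLB.wblock u hu Y N' (hN1.trans hYN) (huN.trans hYr) hYN'.le h2Y
      have e1 : ∑ n ∈ Finset.Ioc N N', (n : ℂ) ^ (-(1 / 2 + Complex.I * (u : ℂ))) =
          ∑ n ∈ Finset.Ioc N Y, (n : ℂ) ^ (-(1 / 2 + Complex.I * (u : ℂ))) +
          ∑ n ∈ Finset.Ioc Y N', (n : ℂ) ^ (-(1 / 2 + Complex.I * (u : ℂ))) := by
        rw [← Finset.sum_union]
        · congr 1
          ext n; simp only [mem_union, mem_Ioc]; omega
        · rw [Finset.disjoint_left]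
          intro n hn hn'
          rw [mem_Ioc] at hn hn'
          omega
      rw [e1]
      refine (norm_add_le _ _).trans ?_
      have h4 : √(Y : ℝ) ≤ 9 / 10 * √(N' : ℝ) := by
        have h5 : (3 : ℝ) * Y ≤ 2 * N' := by exact_mod_cast h3
        have h6 : (0 : ℝ) ≤ N' := Nat.cast_nonneg _
        rw [show (9 / 10 : ℝ) = √(81 / 100) by
          rw [show (81 / 100 : ℝ) = (9 / 10) ^ 2 by norm_num, Real.sqrt_sq (by norm_num)], ← Real.sqrt_mul (by norm_num)]
        apply Real.sqrt_le_sqrt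
        linarith
      calc _ ≤ 400 * √Y / u + 40 * √Y / u := add_le_add i1 i2
        _ = 440 * √Y / u := by ring
        _ ≤ 440 * (9 / 10 * √N') / u := by gcongr
        _ ≤ 400 * √N' / u := by
            have : 0 ≤ √(N' : ℝ) := Real.sqrt_nonneg _
            gcongr ?_ / _
            linarith
    · have i2 := KLB.wblock u hu N N' hN1 huN hNN h
      refine i2.trans ?_
      have h5 : (N : ℝ) ≤ N' := by exact_mod_cast hNN
      have h6 : √(N : ℝ) ≤ √(N' : ℝ) := Real.sqrt_le_sqrt h5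
      have : 0 ≤ √(N' : ℝ) := Real.sqrt_nonneg _
      gcongr ?_ / _
      linarith

end Pool.Agent.L0h37.KM
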