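import Pool.Agent.L0h37.KM.Stm
import Pool.Agent.N879.PZ.M4l
import Pool.Agent.N879.PZ.Afx
import Pool.Agent.N879.PZ.Crd
import Pool.Agent.N879.PZ.Lt
import Pool.Agent.TH928.GS.MV

set_option autoImplicit false

/-! Project KM, part L2A: second moments of zeta and of its partial sums. -/

namespace Pool.Agent.L0h37.KM

open Complex Filter Topology MeasureTheory Set
open Pool.Agent.Y969.GP (ff ht lam FR mB)
open Pool.Agent.W184.NZ (w1)
open Pool.Agent.N879.PZ (ee Wb BY1 SS1 zp1 AA1)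

noncomputable section

namespace L2aaux

lemma PM_cont (M : ℕ) : Continuous (PM M) := by
  unfold PM
  refine continuous_finsetSum _ fun n hn => ?_
  have hn1 : (n : ℂ) ≠ 0 := by
    have h1 := (Finset.mem_Icc.1 hn).1
    have h2 : n ≠ 0 := by omega
    exact_mod_cast h2
  exact Continuous.const_cpow (by fun_prop) (Or.inl hn1)

lemma Z_cont : Continuous Z := by
  unfold Z
  rw [continuous_iff_continuousAt]
  intro u
  have hne : (1 / 2 + I * u : ℂ) ≠ 1 := by
    intro h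
    have h1 := congrArg Complex.re h
    simp at h1
  exact (differentiableAt_riemannZeta hne).continuousAt.comp
    (f := fun u : ℝ => (1 / 2 + I * u : ℂ)) (by fun_prop)

lemma conj_half (v : ℝ) : (1 / 2 + I * ((-v : ℝ) : ℂ)) = (starRingEnd ℂ) (1 / 2 + I * (v : ℂ)) := by
  apply Complex.ext
  · simp
  · simp

lemma Z_neg (v : ℝ) : Z (-v) = (starRingEnd ℂ) (Z v) := by
  unfold Z
  rw [conj_half, riemannZeta_conj]

lemma PM_neg (M : ℕ) (v : ℝ) : PM M (-v) = (starRingEnd ℂ) (PM M v) := by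
  unfold PM
  rw [map_sum]
  refine Finset.sum_congr rfl fun n hn => ?_
  rw [conj_half, ← map_neg, Complex.cpow_conj _ _ (by
    rw [Complex.natCast_arg]
    exact Real.pi_pos.ne), Complex.conj_natCast]

/-- an even function -/
lemma int_even (f : ℝ → ℝ) (hf : Continuous f) (he : ∀ v, f (-v) = f v) (T : ℝ) :
    ∫ v in (-T)..T, f v = 2 * ∫ v in (0 : ℝ)..T, f v := by
  have h1 : ∫ v in (-T)..T, f v = (∫ v in (-T)..0, f v) + ∫ v in (0 : ℝ)..T, f v :=
    (intervalIntegral.integral_add_adjacent_intervals (hf.intervalIntegrable _ _)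
      (hf.intervalIntegrable _ _)).symm
  have h2 : ∫ v in (-T)..0, f v = ∫ v in (0 : ℝ)..T, f v := by
    have h3 := intervalIntegral.integral_comp_neg (a := (0 : ℝ)) (b := T) f
    rw [neg_zero] at h3
    rw [← h3]
    simp_rw [he]
  rw [h1, h2]
  ring

lemma sq_add_le (a b : ℂ) : ‖a + b‖ ^ 2 ≤ 2 * ‖a‖ ^ 2 + 2 * ‖b‖ ^ 2 := by
  have h1 := norm_add_le a b
  have h2 := norm_nonneg (a + b)
  nlinarith [sq_nonneg (‖a‖ - ‖b‖)]

lemma int_add_le (f g : ℝ → ℂ) (hf : Continuous f) (hg : Continuous g) {a b : ℝ} (hab : a ≤ b) :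
    ∫ v in a..b, ‖f v + g v‖ ^ 2 ≤ 2 * (∫ v in a..b, ‖f v‖ ^ 2) + 2 * ∫ v in a..b, ‖g v‖ ^ 2 := by
  rw [← intervalIntegral.integral_const_mul, ← intervalIntegral.integral_const_mul,
    ← intervalIntegral.integral_add]
  · refine intervalIntegral.integral_mono_on hab ?_ ?_ fun v _ => sq_add_le _ _
    · exact ((hf.add hg).norm.pow 2).intervalIntegrable _ _
    · exact (((hf.norm.pow 2).const_mul 2).add ((hg.norm.pow 2).const_mul 2)).intervalIntegrable _ _
  · exact ((hf.norm.pow 2).const_mul 2).intervalIntegrable _ _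
  · exact ((hg.norm.pow 2).const_mul 2).intervalIntegrable _ _

lemma int_sub_le (f g : ℝ → ℂ) (hf : Continuous f) (hg : Continuous g) {a b : ℝ} (hab : a ≤ b) :
    ∫ v in a..b, ‖f v - g v‖ ^ 2 ≤ 2 * (∫ v in a..b, ‖f v‖ ^ 2) + 2 * ∫ v in a..b, ‖g v‖ ^ 2 := by
  have h := int_add_le f (fun v => -g v) hf hg.neg hab
  simp only [norm_neg] at h
  simpa only [sub_eq_add_neg] using h

/-- the mean value theorem for a block -/
lemma mv_block : ∃ C : ℝ, 0 < C ∧ ∀ (T : ℝ) (M X : ℕ), 1 ≤ T → M ≤ X → (X : ℝ) ≤ T ^ 2 →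
    ∫ u in (0 : ℝ)..(2 * T), ‖PM X u - PM M u‖ ^ 2 ≤
      C * (T * (∑ n ∈ Finset.Ioc M X, ((n : ℝ))⁻¹) + X) := by
  obtain ⟨C, hC, h⟩ := Pool.Agent.TH928.GS.t_MV
  refine ⟨C, hC, fun T M X hT hMX hX => ?_⟩
  have h1 := h T X (fun n => if M < n then (n : ℂ) ^ (-(1 / 2) : ℂ) else 0) hT hX
  have e1 : ∀ u : ℝ, PM X u - PM M u =
      ∑ n ∈ Finset.Icc 1 X, (if M < n then (n : ℂ) ^ (-(1 / 2) : ℂ) else 0) * (n : ℂ) ^ (-(I * u)) := by
    intro u
    unfold PM
    have e2 : Finset.Icc 1 M = (Finset.Icc 1 X).filter (fun n => ¬ M < n) := by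
      ext n
      simp only [Finset.mem_Icc, Finset.mem_filter]
      omega
    rw [e2, ← Finset.sum_filter_add_sum_filter_not (Finset.Icc 1 X) (fun n => M < n), add_sub_cancel_right,
      Finset.sum_filter]
    refine Finset.sum_congr rfl fun n hn => ?_
    have hn1 : (n : ℂ) ≠ 0 := by
      have h1 := (Finset.mem_Icc.1 hn).1
      have h2 : n ≠ 0 := by omega
      exact_mod_cast h2
    split_ifs with hM
    · rw [← Complex.cpow_add _ _ hn1]
      congr 1
      ring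
    · simp
  simp_rw [← e1] at h1
  refine h1.trans ?_
  refine mul_le_mul_of_nonneg_left ?_ hC.le
  have e3 : ∀ n ∈ Finset.Icc 1 X, (T + n) * ‖(if M < n then (n : ℂ) ^ (-(1 / 2) : ℂ) else 0)‖ ^ 2 ≤
      T * (if M < n then ((n : ℝ))⁻¹ else 0) + 1 := by
    intro n hn
    have hn0 : (0 : ℝ) < n := by
      have h1 := (Finset.mem_Icc.1 hn).1
      exact_mod_cast h1
    split_ifs with hM
    · have e4 : ‖(n : ℂ) ^ (-(1 / 2) : ℂ)‖ ^ 2 = ((n : ℝ))⁻¹ := by
        rw [Complex.norm_natCast_cpow_of_pos (by exact_mod_cast hn0)]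
        have e5 : (-(1 / 2) : ℂ).re = -(1 / 2) := by simp
        rw [e5, ← Real.rpow_natCast, ← Real.rpow_mul hn0.le]
        norm_num
        rw [Real.rpow_neg_one]
      rw [e4]
      have e6 : (n : ℝ) * ((n : ℝ))⁻¹ = 1 := mul_inv_cancel₀ hn0.ne'
      rw [add_mul, e6]
    · simp
  refine (Finset.sum_le_sum e3).trans ?_
  rw [Finset.sum_add_distrib, ← Finset.mul_sum, ← Finset.sum_filter]
  have e7 : (Finset.Icc 1 X).filter (fun n => M < n) = Finset.Ioc M X := by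
    ext n
    simp only [Finset.mem_Icc, Finset.mem_filter, Finset.mem_Ioc]
    omega
  rw [e7]
  simp

lemma sum_inv_le {M X : ℕ} (hM : 1 ≤ M) (hMX : M ≤ X) :
    ∑ n ∈ Finset.Ioc M X, ((n : ℝ))⁻¹ ≤ Real.log (X / M) := by
  induction X, hMX using Nat.le_induction with
  | base =>
    have : (M : ℝ) ≠ 0 := by
      have : M ≠ 0 := by omega
      exact_mod_cast this
    simp [div_self this]
  | succ X hX ih =>
    rw [← Finset.insert_Ioc_right_eq_Ioc_add_one (by omega : M ≤ X), Finset.sum_insert (by simp)]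
    have hM0 : (0 : ℝ) < M := by exact_mod_cast hM
    have hX0 : (0 : ℝ) < X := by
      have : 0 < X := by omega
      exact_mod_cast this
    have h1 := Real.one_sub_inv_le_log_of_pos (x := ((X : ℝ) + 1) / X) (by positivity)
    have h2 : 1 - (((X : ℝ) + 1) / X)⁻¹ = (((X + 1 : ℕ) : ℝ))⁻¹ := by
      push_cast
      field_simp
      ring
    have h3 : Real.log (((X + 1 : ℕ) : ℝ) / M) = Real.log (((X : ℝ) + 1) / X) + Real.log (X / M) := by
      rw [← Real.log_mul (by positivity) (by positivity)]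
      congr 1
      push_cast
      field_simp
    rw [h3]
    rw [h2] at h1
    linarith

lemma sum_inv_le' (X : ℕ) : ∑ n ∈ Finset.Ioc 0 X, ((n : ℝ))⁻¹ ≤ 1 + Real.log X := by
  have h1 := harmonic_le_one_add_log X
  have h2 : ∑ m ∈ Finset.Ioc 0 X, ((m : ℝ))⁻¹ = ((harmonic X : ℚ) : ℝ) := by
    rw [harmonic_eq_sum_Icc]
    push_cast
    rfl
  rw [h2]; exact h1

lemma ev_pow (m : ℕ) {s c : ℝ} (hs : 0 < s) (hc : 0 < c) :
    ∀ᶠ T : ℝ in atTop, Real.log T ^ m ≤ c * T ^ s := by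
  have h := (isLittleO_log_rpow_rpow_atTop (m : ℝ) hs).bound hc
  filter_upwards [h, eventually_ge_atTop (1 : ℝ)] with T hT hT1
  have h0 : 0 ≤ Real.log T := Real.log_nonneg hT1
  have h1 : 0 ≤ T ^ s := Real.rpow_nonneg (by linarith) s
  rw [Real.rpow_natCast, Real.norm_of_nonneg (by positivity), Real.norm_of_nonneg h1] at hT
  exact hT

/-- the two bounds on `[0, 3T]` -/
lemma half (h : S_HLA) (B : ℕ) (hB : 1 ≤ B) : ∃ C : ℝ, 0 < C ∧ ∀ᶠ T : ℝ in atTop,
    ∫ v in (0 : ℝ)..(3 * T), ‖PM (Mt B T) v‖ ^ 2 ≤ C * (T * Real.log T) ∧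
    ∫ v in (0 : ℝ)..(3 * T), ‖Z v - PM (Mt B T) v‖ ^ 2 ≤ C * (T * Real.log (Real.log T)) := by
  obtain ⟨C1, hC1, hmv⟩ := mv_block
  obtain ⟨C2, hC2, hh⟩ := h
  obtain ⟨C3, A, hC3, h4⟩ := Pool.Agent.N879.PZ.t_M4L Pool.Agent.N879.PZ.t_AFX
    Pool.Agent.N879.PZ.t_CRD Pool.Agent.N879.PZ.t_LT
  have hlog : Tendsto Real.log atTop atTop := Real.tendsto_log_atTop
  refine ⟨4 * C1 + (2 * (1 + C3) + 4 * C1 + 2 * C2 + 2 * (C1 * (11 + 2 * B))), by positivity, ?_⟩
  filter_upwards [hh, eventually_ge_atTop (9 : ℝ), hlog.eventually_ge_atTop 4,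
    (hlog.comp hlog).eventually_ge_atTop 1,
    ev_pow A (s := 1 / 2) (c := 1) (by norm_num) one_pos,
    ev_pow 1 (s := 1 / 2) (c := 1) (by norm_num) one_pos,
    ev_pow B (s := 1) (c := 1 / 2) (by norm_num) (by norm_num)] with T g1 g2 g3 g4 g5 g6 g7
  obtain ⟨L, hL⟩ : ∃ L, L = Real.log T := ⟨_, rfl⟩
  obtain ⟨M, hM⟩ : ∃ M, M = Mt B T := ⟨_, rfl⟩
  obtain ⟨X, hX⟩ : ∃ X, X = ⌈3 * T⌉₊ := ⟨_, rfl⟩
  simp only [Function.comp_apply] at g4
  rw [← hM]
  rw [← hL] at g3 g4 g5 g6 g7 ⊢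
  rw [Real.rpow_one] at g7
  rw [← Real.sqrt_eq_rpow, one_mul] at g5 g6
  rw [pow_one] at g6
  have hT0 : 0 < T := by linarith
  have hL0 : 0 < L := by linarith
  have hLB : 4 ≤ L ^ B := by
    calc (4 : ℝ) ≤ L := g3
      _ = L ^ 1 := (pow_one _).symm
      _ ≤ L ^ B := pow_le_pow_right₀ (by linarith) hB
  have hLB0 : 0 < L ^ B := by linarith
  have hs3 : 3 ≤ √T := by
    apply Real.le_sqrt_of_sq_le
    norm_num
    linarith
  have hss : √T * √T = T := Real.mul_self_sqrt hT0.le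
  have hsT : √T ≤ T := by nlinarith
  have hX1 : 3 * T ≤ X := by rw [hX]; exact Nat.le_ceil _
  have hX2 : (X : ℝ) ≤ 6 * T := by
    rw [hX]
    have := (Nat.ceil_lt_add_one (by positivity : 0 ≤ 3 * T)).le
    linarith
  have hMle : (M : ℝ) ≤ T / L ^ B := by
    rw [hM]
    unfold Mt
    rw [← hL]
    exact Nat.floor_le (by positivity)
  have hMge : T / (2 * L ^ B) ≤ M := by
    have h5 : T / L ^ B < M + 1 := by
      rw [hM]
      unfold Mt
      rw [← hL]
      exact Nat.lt_floor_add_one _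
    have h6 : 2 ≤ T / L ^ B := by
      rw [le_div_iff₀ hLB0]
      linarith
    have h7 : T / (2 * L ^ B) = T / L ^ B / 2 := by
      field_simp
    rw [h7]
    linarith
  have hM0 : (0 : ℝ) < M := lt_of_lt_of_le (by positivity) hMge
  have hM1 : 1 ≤ M := by exact_mod_cast hM0
  have hMT4 : (M : ℝ) ≤ T / 4 := hMle.trans (div_le_div_of_nonneg_left hT0.le (by norm_num) hLB)
  have hMX : M ≤ X := by
    have : (M : ℝ) ≤ X := by linarith
    exact_mod_cast this
  have hlogM : Real.log M ≤ L := by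
    rw [hL]
    exact Real.log_le_log hM0 (by linarith)
  obtain ⟨ll, hll⟩ : ∃ ll, ll = Real.log L := ⟨_, rfl⟩
  rw [← hll] at g4 ⊢
  -- P1
  have P1 : ∫ v in (0 : ℝ)..(3 * T), ‖PM M v‖ ^ 2 ≤ 4 * C1 * (T * L) := by
    have h5 := hmv (3 * T / 2) 0 M (by linarith) (Nat.zero_le _) (by nlinarith)
    have e : 2 * (3 * T / 2) = 3 * T := by ring
    have e0 : ∀ v, PM 0 v = 0 := fun v => by unfold PM; simp
    simp only [e0, sub_zero] at h5
    rw [e] at h5
    refine h5.trans ?_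
    have h6 := sum_inv_le' M
    have h7 : 3 * T / 2 * (∑ n ∈ Finset.Ioc 0 M, ((n : ℝ))⁻¹) ≤ 3 * T / 2 * (1 + L) :=
      mul_le_mul_of_nonneg_left (h6.trans (by linarith)) (by positivity)
    have h8 : 3 * T / 2 * (∑ n ∈ Finset.Ioc 0 M, ((n : ℝ))⁻¹) + M ≤ 4 * (T * L) := by
      nlinarith [mul_le_mul_of_nonneg_left g3 hT0.le]
    calc C1 * (3 * T / 2 * (∑ n ∈ Finset.Ioc 0 M, ((n : ℝ))⁻¹) + M) ≤ C1 * (4 * (T * L)) :=
          mul_le_mul_of_nonneg_left h8 hC1.le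
      _ = _ := by ring
  -- P2
  have P2 : ∫ v in (0 : ℝ)..(√T), ‖PM M v‖ ^ 2 ≤ 2 * C1 * T := by
    have h5 := hmv (√T / 2) 0 M (by linarith) (Nat.zero_le _) (by nlinarith)
    have e : 2 * (√T / 2) = √T := by ring
    have e0 : ∀ v, PM 0 v = 0 := fun v => by unfold PM; simp
    simp only [e0, sub_zero] at h5
    rw [e] at h5
    refine h5.trans ?_
    have h6 := sum_inv_le' M
    have h7 : √T / 2 * (∑ n ∈ Finset.Ioc 0 M, ((n : ℝ))⁻¹) ≤ √T / 2 * (1 + L) :=
      mul_le_mul_of_nonneg_left (h6.trans (by linarith)) (by positivity)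
    have h8 : √T / 2 * (∑ n ∈ Finset.Ioc 0 M, ((n : ℝ))⁻¹) + M ≤ 2 * T := by
      nlinarith [mul_le_mul_of_nonneg_left g6 (Real.sqrt_nonneg T)]
    calc C1 * (√T / 2 * (∑ n ∈ Finset.Ioc 0 M, ((n : ℝ))⁻¹) + M) ≤ C1 * (2 * T) :=
          mul_le_mul_of_nonneg_left h8 hC1.le
      _ = _ := by ring
  -- P3
  have P3 : ∫ v in (0 : ℝ)..(3 * T), ‖PM X v - PM M v‖ ^ 2 ≤ C1 * ((11 + 2 * B) * (T * ll)) := by
    have h5 := hmv (3 * T / 2) M X (by linarith) hMX (by nlinarith)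
    have e : 2 * (3 * T / 2) = 3 * T := by ring
    rw [e] at h5
    refine h5.trans (mul_le_mul_of_nonneg_left ?_ hC1.le)
    have h6 := sum_inv_le hM1 hMX
    have h7 : Real.log (X / M) ≤ 3 + B * ll := by
      have h8 : (X : ℝ) / M ≤ 12 * L ^ B := by
        rw [div_le_iff₀ hM0]
        have h9 : 12 * L ^ B * (T / (2 * L ^ B)) = 6 * T := by field_simp; ring
        have h10 : 12 * L ^ B * (T / (2 * L ^ B)) ≤ 12 * L ^ B * M := by gcongr
        linarith
      have h11 : 0 < (X : ℝ) / M := by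
        have : (0 : ℝ) < X := by linarith
        positivity
      have h12 : Real.log 12 ≤ 3 := by
        rw [Real.log_le_iff_le_exp (by norm_num)]
        have h13 := Real.exp_one_gt_d9
        have h14 : Real.exp 3 = Real.exp 1 ^ 3 := by
          rw [← Real.exp_nat_mul]
          norm_num
        rw [h14]
        have h15 : (2.7 : ℝ) ^ 3 ≤ Real.exp 1 ^ 3 := pow_le_pow_left₀ (by norm_num) (by linarith) 3
        norm_num at h15 ⊢
        linarith
      calc Real.log (X / M) ≤ Real.log (12 * L ^ B) := Real.log_le_log h11 h8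
        _ = Real.log 12 + B * ll := by
            rw [Real.log_mul (by norm_num) hLB0.ne', Real.log_pow, hll]
        _ ≤ _ := by linarith
    have hB0 : (0 : ℝ) ≤ B := by positivity
    have h16 : 3 * T / 2 * (∑ n ∈ Finset.Ioc M X, ((n : ℝ))⁻¹) ≤ 3 * T / 2 * (3 + B * ll) :=
      mul_le_mul_of_nonneg_left (h6.trans h7) (by positivity)
    have h17 : T ≤ T * ll := by nlinarith
    have h18 : 0 ≤ (B : ℝ) * (T * ll) := by positivity
    calc 3 * T / 2 * (∑ n ∈ Finset.Ioc M X, ((n : ℝ))⁻¹) + X ≤ 3 * T / 2 * (3 + B * ll) + 6 * T := by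
          linarith
      _ = 21 / 2 * T + 3 / 2 * (B * (T * ll)) := by ring
      _ ≤ 11 * (T * ll) + 2 * (B * (T * ll)) := by linarith
      _ = _ := by ring
  -- P4
  have P4 : ∫ u in (√T)..(3 * T), ‖Z u - PM X u‖ ^ 2 ≤ C2 * T := by
    refine (g1 X hX1 hX2).trans (mul_le_mul_of_nonneg_left ?_ hC2.le)
    calc T ^ (3 / 4 : ℝ) ≤ T ^ (1 : ℝ) := Real.rpow_le_rpow_of_exponent_le (by linarith) (by norm_num)
      _ = T := Real.rpow_one T
  -- P5
  have P5 : ∫ v in (0 : ℝ)..(√T), ‖Z v‖ ^ 2 ≤ (1 + C3) * T := by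
    have hff : ∀ v, ff v = ‖Z v‖ ^ 2 := fun v => rfl
    have h5 := h4 (√T) hs3
    simp_rw [hff] at h5
    have h6 : ∫ v in (0 : ℝ)..(√T), ‖Z v‖ ^ 2 ≤ ∫ v in (0 : ℝ)..(√T), (1 + (‖Z v‖ ^ 2) ^ 2) := by
      refine intervalIntegral.integral_mono_on (Real.sqrt_nonneg T) ?_ ?_ fun v _ => ?_
      · exact (Z_cont.norm.pow 2).intervalIntegrable _ _
      · exact (continuous_const.add ((Z_cont.norm.pow 2).pow 2)).intervalIntegrable _ _
      · nlinarith [sq_nonneg (‖Z v‖ ^ 2 - 1), sq_nonneg (‖Z v‖)]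
    have hi1 : IntervalIntegrable (fun _ : ℝ => (1 : ℝ)) volume 0 √T :=
      continuous_const.intervalIntegrable _ _
    have hi2 : IntervalIntegrable (fun v => (‖Z v‖ ^ 2) ^ 2) volume 0 √T :=
      ((Z_cont.norm.pow 2).pow 2).intervalIntegrable _ _
    rw [intervalIntegral.integral_add hi1 hi2] at h6
    have h7 : ∫ _v in (0 : ℝ)..(√T), (1 : ℝ) = √T := by simp
    rw [h7] at h6
    have h8 : Real.log √T ^ A ≤ L ^ A := by
      have h9 : 0 ≤ Real.log √T := Real.log_nonneg (by linarith)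
      refine pow_le_pow_left₀ h9 ?_ A
      rw [hL]
      exact Real.log_le_log (by linarith) hsT
    have h9 : C3 * √T * Real.log √T ^ A ≤ C3 * T := by
      calc C3 * √T * Real.log √T ^ A ≤ C3 * √T * √T := by
            refine mul_le_mul_of_nonneg_left (h8.trans g5) (by positivity)
        _ = C3 * T := by rw [mul_assoc, hss]
    linarith
  -- P6
  have hZM : Continuous fun v => Z v - PM M v := Z_cont.sub (PM_cont M)
  have P6 : ∫ v in (0 : ℝ)..(√T), ‖Z v - PM M v‖ ^ 2 ≤ 2 * ((1 + C3) * T) + 2 * (2 * C1 * T) := by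
    have h5 := int_sub_le Z (PM M) Z_cont (PM_cont M) (Real.sqrt_nonneg T)
    linarith
  have P7 : ∫ v in (√T)..(3 * T), ‖Z v - PM M v‖ ^ 2 ≤
      2 * (C2 * T) + 2 * (C1 * ((11 + 2 * B) * (T * ll))) := by
    have h5 := int_add_le (fun v => Z v - PM X v) (fun v => PM X v - PM M v)
      (Z_cont.sub (PM_cont X)) ((PM_cont X).sub (PM_cont M)) (by linarith : √T ≤ 3 * T)
    simp only [sub_add_sub_cancel] at h5
    have hi : ∀ a b : ℝ, IntervalIntegrable (fun v => ‖PM X v - PM M v‖ ^ 2) volume a b :=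
      fun a b => (((PM_cont X).sub (PM_cont M)).norm.pow 2).intervalIntegrable a b
    have h6 : ∫ v in (√T)..(3 * T), ‖PM X v - PM M v‖ ^ 2 ≤ ∫ v in (0 : ℝ)..(3 * T), ‖PM X v - PM M v‖ ^ 2 := by
      rw [← intervalIntegral.integral_add_adjacent_intervals (hi 0 √T) (hi _ _)]
      have h7 : 0 ≤ ∫ v in (0 : ℝ)..(√T), ‖PM X v - PM M v‖ ^ 2 :=
        intervalIntegral.integral_nonneg (Real.sqrt_nonneg T) fun v _ => by positivity
      linarith
    linarith
  have hT1 : T ≤ T * ll := by nlinarith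
  have hll0 : 0 ≤ T * ll := by linarith
  refine ⟨P1.trans ?_, ?_⟩
  · refine mul_le_mul_of_nonneg_right ?_ (by positivity)
    have : 0 ≤ 2 * (1 + C3) + 4 * C1 + 2 * C2 + 2 * (C1 * (11 + 2 * B)) := by positivity
    linarith
  · have hi : ∀ a b : ℝ, IntervalIntegrable (fun v => ‖Z v - PM M v‖ ^ 2) volume a b :=
      fun a b => (hZM.norm.pow 2).intervalIntegrable a b
    rw [← intervalIntegral.integral_add_adjacent_intervals (hi 0 √T) (hi _ _)]
    have e1 : 0 ≤ (2 * (1 + C3) + 4 * C1 + 2 * C2) * (T * ll - T) :=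
      mul_nonneg (by positivity) (by linarith)
    have e2 : 0 ≤ 4 * C1 * (T * ll) := by positivity
    calc (∫ v in (0 : ℝ)..(√T), ‖Z v - PM M v‖ ^ 2) + ∫ v in (√T)..(3 * T), ‖Z v - PM M v‖ ^ 2
        ≤ (2 * ((1 + C3) * T) + 2 * (2 * C1 * T)) + (2 * (C2 * T) + 2 * (C1 * ((11 + 2 * B) * (T * ll)))) :=
          add_le_add P6 P7
      _ = (4 * C1 + (2 * (1 + C3) + 4 * C1 + 2 * C2 + 2 * (C1 * (11 + 2 * B)))) * (T * ll) -
          (2 * (1 + C3) + 4 * C1 + 2 * C2) * (T * ll - T) - 4 * C1 * (T * ll) := by ring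
      _ ≤ _ := by linarith

end L2aaux

open L2aaux in
theorem t_L2A (h : S_HLA) : S_L2A := by
  have ePM : ∀ (M : ℕ) (v : ℝ), ‖PM M (-v)‖ ^ 2 = ‖PM M v‖ ^ 2 := by
    intro M v
    rw [PM_neg, Complex.norm_conj]
  have eZ : ∀ v : ℝ, ‖Z (-v)‖ ^ 2 = ‖Z v‖ ^ 2 := by
    intro v
    rw [Z_neg, Complex.norm_conj]
  have eD : ∀ (M : ℕ) (v : ℝ), ‖Z (-v) - PM M (-v)‖ ^ 2 = ‖Z v - PM M v‖ ^ 2 := by
    intro M v
    rw [PM_neg, Z_neg, ← map_sub, Complex.norm_conj]
  refine ⟨?_, ?_⟩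
  · obtain ⟨C, hC, h1⟩ := half h 1 le_rfl
    have hlog : Tendsto Real.log atTop atTop := Real.tendsto_log_atTop
    refine ⟨8 * C, by positivity, ?_⟩
    filter_upwards [h1, eventually_ge_atTop (1 : ℝ), hlog.eventually_ge_atTop 1] with T h2 hT hL
    have hT0 : 0 < T := by linarith
    rw [int_even (fun v => ‖Z v‖ ^ 2) (Z_cont.norm.pow 2) eZ]
    have h3 := int_add_le (fun v => Z v - PM (Mt 1 T) v) (fun v => PM (Mt 1 T) v)
      (Z_cont.sub (PM_cont _)) (PM_cont _) (by linarith : 0 ≤ 3 * T)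
    simp only [sub_add_cancel] at h3
    have h4 : Real.log (Real.log T) ≤ Real.log T := by
      have := Real.log_le_sub_one_of_pos (by linarith : 0 < Real.log T)
      linarith
    have h5 : C * (T * Real.log (Real.log T)) ≤ C * (T * Real.log T) := by gcongr
    linarith [h2.1, h2.2]
  · intro B hB
    obtain ⟨C, hC, h1⟩ := half h B hB
    refine ⟨2 * C, by positivity, ?_⟩
    filter_upwards [h1] with T h2
    rw [int_even (fun v => ‖PM (Mt B T) v‖ ^ 2) ((PM_cont _).norm.pow 2) (ePM _),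
      int_even (fun v => ‖Z v - PM (Mt B T) v‖ ^ 2) ((Z_cont.sub (PM_cont _)).norm.pow 2) (eD _)]
    constructor
    · linarith [h2.1]
    · linarith [h2.2]

end

end Pool.Agent.L0h37.KM
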