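import Pool.Agent.L0h37.KM.Stm

set_option autoImplicit false

/-!
Project KM: MSA, the coefficient of a tuple.
-/

namespace Pool.Agent.L0h37.KM

open Complex Filter Topology MeasureTheory Set
open Pool.Agent.Y969.GP (ff ht lam FR mB)
open Pool.Agent.W184.NZ (w1)
open Pool.Agent.N879.PZ (ee Wb BY1 SS1 zp1 AA1)

namespace MSA

lemma mem_FR {N : ℕ} {p : ℕ × ℕ} (h : p ∈ FR N) : 1 ≤ p.1 ∧ 1 ≤ p.2 ∧ p.1 * p.2 ≤ N := by
  unfold Pool.Agent.Y969.GP.FR Pool.Agent.Y969.GP.PS at h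
  simp only [Finset.mem_filter, Finset.mem_product, Finset.mem_Icc] at h
  exact ⟨h.1.1.1.1, h.1.1.2.1, h.1.2⟩

lemma norm_kap (α : ℝ) : ‖kap α‖ ≤ 1 := by
  unfold kap
  have h := intervalIntegral.norm_integral_le_of_norm_le_const (a := (0 : ℝ)) (b := 1) (C := 1)
    (f := fun x : ℝ => cexp (-(2 * I * ((α * x : ℝ) : ℂ)))) (fun x _ => by
      rw [Complex.norm_exp]
      simp)
  simpa using h

lemma tele : ∀ (n : ℕ) (x y : Fin n → ℂ) (K E : ℝ), 0 ≤ K → 0 ≤ E → (∀ i, ‖x i‖ ≤ K) → (∀ i, ‖y i‖ ≤ K) →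
    (∀ i, ‖x i - y i‖ ≤ E) → ‖∏ i, x i - ∏ i, y i‖ * K ≤ n * K ^ n * E
  | 0, x, y, K, E, _, _, _, _, _ => by simp
  | n + 1, x, y, K, E, hK, hE, hx, hy, hd => by
    have ih := tele n (fun i => x i.succ) (fun i => y i.succ) K E hK hE (fun i => hx _)
      (fun i => hy _) (fun i => hd _)
    rw [Fin.prod_univ_succ, Fin.prod_univ_succ]
    have e : x 0 * ∏ i : Fin n, x i.succ - y 0 * ∏ i : Fin n, y i.succ =
        (x 0 - y 0) * ∏ i : Fin n, x i.succ + y 0 * (∏ i : Fin n, x i.succ - ∏ i : Fin n, y i.succ) := by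
      ring
    have hP : ‖∏ i : Fin n, x i.succ‖ ≤ K ^ n := by
      rw [norm_prod]
      calc ∏ i : Fin n, ‖x i.succ‖ ≤ ∏ _i : Fin n, K :=
            Finset.prod_le_prod (fun i _ => norm_nonneg _) (fun i _ => hx _)
        _ = K ^ n := by simp
    have h1 : ‖x 0 * ∏ i : Fin n, x i.succ - y 0 * ∏ i : Fin n, y i.succ‖ ≤
        E * K ^ n + K * ‖∏ i : Fin n, x i.succ - ∏ i : Fin n, y i.succ‖ := by
      rw [e]
      refine (norm_add_le _ _).trans ?_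
      rw [norm_mul, norm_mul]
      exact add_le_add (mul_le_mul (hd 0) hP (norm_nonneg _) hE)
        (mul_le_mul_of_nonneg_right (hy 0) (norm_nonneg _))
    have h2 : K * (‖∏ i : Fin n, x i.succ - ∏ i : Fin n, y i.succ‖ * K) ≤ K * (n * K ^ n * E) :=
      mul_le_mul_of_nonneg_left ih hK
    calc ‖x 0 * ∏ i : Fin n, x i.succ - y 0 * ∏ i : Fin n, y i.succ‖ * K ≤
        (E * K ^ n + K * ‖∏ i : Fin n, x i.succ - ∏ i : Fin n, y i.succ‖) * K :=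
          mul_le_mul_of_nonneg_right h1 hK
      _ = E * K ^ (n + 1) + K * (‖∏ i : Fin n, x i.succ - ∏ i : Fin n, y i.succ‖ * K) := by ring
      _ ≤ E * K ^ (n + 1) + K * (n * K ^ n * E) := by linarith
      _ = ((n + 1 : ℕ) : ℝ) * K ^ (n + 1) * E := by
        push_cast
        ring

/-- with one more factor -/
lemma tele1 (n : ℕ) (x y : Fin n → ℂ) (x0 y0 : ℂ) (K E : ℝ) (hK : 0 ≤ K) (hE : 0 ≤ E) (hx : ∀ i, ‖x i‖ ≤ K)
    (hy : ∀ i, ‖y i‖ ≤ K) (hd : ∀ i, ‖x i - y i‖ ≤ E) (hx0 : ‖x0‖ ≤ K) (hd0 : ‖x0 - y0‖ ≤ E) :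
    ‖(∏ i, x i) * x0 - (∏ i, y i) * y0‖ ≤ (n + 1) * K ^ n * E := by
  have e : (∏ i, x i) * x0 - (∏ i, y i) * y0 = (∏ i, x i - ∏ i, y i) * x0 + (∏ i, y i) * (x0 - y0) := by ring
  have hQ : ‖∏ i, y i‖ ≤ K ^ n := by
    rw [norm_prod]
    calc ∏ i : Fin n, ‖y i‖ ≤ ∏ _i : Fin n, K :=
          Finset.prod_le_prod (fun i _ => norm_nonneg _) (fun i _ => hy _)
      _ = K ^ n := by simp
  rw [e]
  refine (norm_add_le _ _).trans ?_
  rw [norm_mul, norm_mul]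
  have h1 := tele n x y K E hK hE hx hy hd
  have h2 : ‖∏ i, x i - ∏ i, y i‖ * ‖x0‖ ≤ ‖∏ i, x i - ∏ i, y i‖ * K :=
    mul_le_mul_of_nonneg_left hx0 (norm_nonneg _)
  have h3 : ‖∏ i, y i‖ * ‖x0 - y0‖ ≤ K ^ n * E := mul_le_mul hQ hd0 (norm_nonneg _) (by positivity)
  nlinarith

lemma ht_pr {n : ℕ} (q : Fin n → ℕ × ℕ) : ht (pr q) = ∏ j, ht (q j) := by
  unfold Pool.Agent.Y969.GP.ht pr
  push_cast
  rw [Finset.prod_mul_distrib]

lemma pr_pos {n : ℕ} {q : Fin n → ℕ × ℕ} (hq : ∀ j, 1 ≤ (q j).1 ∧ 1 ≤ (q j).2) :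
    1 ≤ (pr q).1 ∧ 1 ≤ (pr q).2 := by
  constructor
  · change 0 < ∏ j, (q j).1
    exact Finset.prod_pos fun j _ => (hq j).1
  · change 0 < ∏ j, (q j).2
    exact Finset.prod_pos fun j _ => (hq j).2

lemma ht_rd {x : ℕ × ℕ} (h1 : 1 ≤ x.1) :
    ht x = (Nat.gcd x.1 x.2 : ℝ) ^ 2 * ht (rd x) ∧ 0 < Nat.gcd x.1 x.2 := by
  have hg : 0 < Nat.gcd x.1 x.2 := Nat.gcd_pos_of_pos_left _ h1
  refine ⟨?_, hg⟩
  have e1 : ((Nat.gcd x.1 x.2 * (x.1 / Nat.gcd x.1 x.2) : ℕ) : ℝ) = (x.1 : ℝ) := by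
    rw [Nat.mul_div_cancel' (Nat.gcd_dvd_left _ _)]
  have e2 : ((Nat.gcd x.1 x.2 * (x.2 / Nat.gcd x.1 x.2) : ℕ) : ℝ) = (x.2 : ℝ) := by
    rw [Nat.mul_div_cancel' (Nat.gcd_dvd_right _ _)]
  unfold Pool.Agent.Y969.GP.ht rd
  rw [← e1, ← e2]
  push_cast
  ring

lemma rd_pos {x : ℕ × ℕ} (h1 : 1 ≤ x.1) (h2 : 1 ≤ x.2) : 1 ≤ (rd x).1 ∧ 1 ≤ (rd x).2 :=
  ⟨Nat.div_pos (Nat.gcd_le_left _ h1) (Nat.gcd_pos_of_pos_left _ h1),
    Nat.div_pos (Nat.gcd_le_right _ h2) (Nat.gcd_pos_of_pos_left _ h1)⟩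

lemma one_le_ht {p : ℕ × ℕ} (h1 : 1 ≤ p.1) (h2 : 1 ≤ p.2) : 1 ≤ ht p := by
  unfold Pool.Agent.Y969.GP.ht
  exact_mod_cast Nat.mul_pos h1 h2

lemma w1_eq {n : ℕ} {q : Fin n → ℕ × ℕ} (hq : ∀ j, 1 ≤ (q j).1 ∧ 1 ≤ (q j).2) :
    (∏ j, (√(ht (q j)))⁻¹) * (√(ht (rd (pr q))))⁻¹ = w1 (pr q) := by
  obtain ⟨p1, p2⟩ := pr_pos hq
  obtain ⟨r1, r2⟩ := rd_pos p1 p2
  obtain ⟨e, hg⟩ := ht_rd (x := pr q) p1
  have hg' : (0 : ℝ) < (Nat.gcd (pr q).1 (pr q).2 : ℝ) := by exact_mod_cast hg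
  have hr : 0 < ht (rd (pr q)) := lt_of_lt_of_le one_pos (one_le_ht r1 r2)
  have h1 : ∏ j, (√(ht (q j)))⁻¹ = (√(ht (pr q)))⁻¹ := by
    rw [Finset.prod_inv_distrib, ht_pr, Real.sqrt_prod _ (fun j _ => by
      have := one_le_ht (hq j).1 (hq j).2
      linarith)]
  have h2 : √(ht (pr q)) = (Nat.gcd (pr q).1 (pr q).2 : ℝ) * √(ht (rd (pr q))) := by
    rw [e, Real.sqrt_mul (by positivity), Real.sqrt_sq hg'.le]
  have h3 : w1 (pr q) = (Nat.gcd (pr q).1 (pr q).2 : ℝ) / ht (pr q) := rfl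
  rw [h1, h2, h3, e]
  have hs : √(ht (rd (pr q))) ≠ 0 := (Real.sqrt_pos.2 hr).ne'
  have hs2 : √(ht (rd (pr q))) * √(ht (rd (pr q))) = ht (rd (pr q)) := Real.mul_self_sqrt hr.le
  rw [← mul_inv, mul_assoc, hs2]
  field_simp

end MSA

open MSA in
theorem t_MSA (h1 : S_GRP) (h2 : S_BZA) : S_MSA := by
  intro n B C1 α0 α
  obtain ⟨c0, hc0, hb0⟩ := h2 α0 B
  choose c hc hb using fun j => h2 (α j) B
  obtain ⟨D, hD⟩ : ∃ D : ℝ, D = c0 + ∑ j, c j := ⟨_, rfl⟩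
  have hcs : 0 ≤ ∑ j, c j := Finset.sum_nonneg fun j _ => (hc j).le
  have hcj : ∀ j, c j ≤ D := fun j => by
    have := Finset.single_le_sum (f := c) (fun i _ => (hc i).le) (Finset.mem_univ j)
    linarith
  have hc0D : c0 ≤ D := by linarith
  have hD0 : 0 < D := by linarith
  refine ⟨(n + 1) * 2 ^ n * D, by positivity, ?_⟩
  have tL := Real.tendsto_log_atTop
  have hpow : ∀ k : ℕ, ∀ᶠ T : ℝ in atTop, Real.log T ^ k ≤ √T := fun k => by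
    have h := (isLittleO_log_rpow_rpow_atTop (s := 1 / 2) (k : ℝ) (by norm_num)).bound one_pos
    filter_upwards [h, eventually_ge_atTop 1] with T hT h1T
    rw [Real.rpow_natCast, one_mul, Real.norm_eq_abs, Real.norm_eq_abs,
      abs_of_nonneg (Real.rpow_nonneg (by linarith) _), ← Real.sqrt_eq_rpow] at hT
    exact (le_abs_self _).trans hT
  filter_upwards [hb0, eventually_all.2 hb, hpow C1, hpow (C1 * n), tL.eventually_ge_atTop 1,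
    eventually_ge_atTop 1] with T hT0 hTj hp1 hpn hL h1T q hq
  obtain ⟨L, hLd⟩ : ∃ L : ℝ, L = Real.log T := ⟨_, rfl⟩
  rw [← hLd] at hL hp1 hpn hTj hT0 hq ⊢
  obtain ⟨M, hM⟩ : ∃ M : ℕ, M = Mt B T := ⟨_, rfl⟩
  rw [← hM] at hTj hT0 ⊢
  have hMT : (M : ℝ) ≤ T := by
    rw [hM, Mt, ← hLd]
    refine (Nat.floor_le (by positivity)).trans ?_
    exact div_le_self (by linarith) (one_le_pow₀ hL)
  have hML : 1 + Real.log M ≤ 2 * L := by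
    rcases Nat.eq_zero_or_pos M with h0 | h0
    · rw [h0, Nat.cast_zero, Real.log_zero]
      linarith
    · have : Real.log M ≤ Real.log T := Real.log_le_log (by exact_mod_cast h0) hMT
      rw [← hLd] at this
      linarith
  have hM0 : 0 ≤ 1 + Real.log M := by
    have := Real.log_natCast_nonneg M
    linarith
  rw [Fintype.mem_piFinset] at hq
  have hq' := fun j => mem_FR (hq j)
  have hq1 : ∀ j, 1 ≤ (q j).1 ∧ 1 ≤ (q j).2 := fun j => ⟨(hq' j).1, (hq' j).2.1⟩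
  obtain ⟨p1, p2⟩ := pr_pos hq1
  obtain ⟨r1, r2⟩ := rd_pos p1 p2
  obtain ⟨erd, hg⟩ := ht_rd (x := pr q) p1
  have hht1 : ∀ j, 1 ≤ ht (q j) := fun j => one_le_ht (hq1 j).1 (hq1 j).2
  have hhtN : ∀ j, ht (q j) ≤ L ^ C1 := fun j => by
    have h3 : ht (q j) ≤ (⌊L ^ C1⌋₊ : ℝ) := by
      unfold Pool.Agent.Y969.GP.ht
      exact_mod_cast (hq' j).2.2
    exact h3.trans (Nat.floor_le (by positivity))
  obtain ⟨H, hH⟩ : ∃ H : ℝ, H = ∏ j, ht (q j) := ⟨_, rfl⟩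
  have hHpr : ht (pr q) = H := by rw [ht_pr, hH]
  have hrH : ht (rd (pr q)) ≤ H := by
    rw [← hHpr, erd]
    have hg1 : (1 : ℝ) ≤ (Nat.gcd (pr q).1 (pr q).2 : ℝ) ^ 2 := by
      have : (1 : ℝ) ≤ (Nat.gcd (pr q).1 (pr q).2 : ℝ) := by exact_mod_cast hg
      exact one_le_pow₀ this
    have := one_le_ht r1 r2
    nlinarith
  have hHn : H ≤ √T := by
    refine le_trans ?_ hpn
    rw [hH, pow_mul]
    calc ∏ j, ht (q j) ≤ ∏ _j : Fin n, L ^ C1 :=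
          Finset.prod_le_prod (fun j _ => (zero_le_one.trans (hht1 j))) (fun j _ => hhtN j)
      _ = (L ^ C1) ^ n := by simp
  have hjH : ∀ j, ht (q j) ≤ H := fun j => by
    rw [hH, ← Finset.mul_prod_erase Finset.univ _ (Finset.mem_univ j)]
    have h5 : (1 : ℝ) ≤ ∏ i ∈ Finset.univ.erase j, ht (q i) := by
      have := Finset.prod_le_prod (s := Finset.univ.erase j) (f := fun _ => (1 : ℝ))
        (g := fun i => ht (q i)) (fun i _ => zero_le_one) (fun i _ => hht1 i)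
      simpa using this
    have := hht1 j
    nlinarith
  have hr1 : 1 ≤ ht (rd (pr q)) := one_le_ht r1 r2
  have hH1 : 1 ≤ H := hr1.trans hrH
  have hlL : 0 ≤ Real.log L := Real.log_nonneg hL
  obtain ⟨E, hE⟩ : ∃ E : ℝ, E = D * (1 + Real.log H + Real.log L) := ⟨_, rfl⟩
  have hlH : 0 ≤ Real.log H := Real.log_nonneg hH1
  have hE0 : 0 ≤ E := by
    rw [hE]
    positivity
  -- the factors
  have bound : ∀ (α' : ℝ) (c' : ℝ) (p : ℕ × ℕ), 0 < c' → c' ≤ D → 1 ≤ p.1 → 1 ≤ p.2 → ht p ≤ H →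
      ‖((√(ht p) : ℝ) : ℂ) * bz M (α' / L) p - kap α' * (L : ℂ)‖ ≤ c' * (1 + Real.log (ht p) + Real.log L) →
      ‖((√(ht p) : ℝ) : ℂ) * bz M (α' / L) p‖ ≤ 2 * L ∧ ‖kap α' * (L : ℂ)‖ ≤ 2 * L ∧
      ‖((√(ht p) : ℝ) : ℂ) * bz M (α' / L) p - kap α' * (L : ℂ)‖ ≤ E := by
    intro α' c' p hc' hcD hp1 hp2 hpH hb
    have hp : 1 ≤ ht p := one_le_ht hp1 hp2
    have hsp : 0 < √(ht p) := Real.sqrt_pos.2 (by linarith)
    refine ⟨?_, ?_, ?_⟩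
    · rw [norm_mul, Complex.norm_real, Real.norm_eq_abs, abs_of_pos hsp]
      have h6 := (h1 M (α' / L)).2.2 p hp1 hp2
      calc √(ht p) * ‖bz M (α' / L) p‖ ≤ √(ht p) * ((1 + Real.log M) * (√(ht p))⁻¹) :=
            mul_le_mul_of_nonneg_left h6 hsp.le
        _ = 1 + Real.log M := by
            field_simp
        _ ≤ 2 * L := hML
    · rw [norm_mul, Complex.norm_real, Real.norm_eq_abs, abs_of_nonneg (by linarith)]
      have := mul_le_mul_of_nonneg_right (norm_kap α') (by linarith : (0 : ℝ) ≤ L)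
      linarith
    · refine hb.trans ?_
      rw [hE]
      have h7 : Real.log (ht p) ≤ Real.log H := Real.log_le_log (by linarith) hpH
      have h8 : 0 ≤ Real.log (ht p) := Real.log_nonneg hp
      exact mul_le_mul hcD (by linarith) (by linarith) (by linarith)
  have bj : ∀ j, _ := fun j => bound (α j) (c j) (q j) (hc j) (hcj j) (hq1 j).1 (hq1 j).2 (hjH j)
    (hTj j (q j) (hq1 j).1 (hq1 j).2 ((hhtN j).trans hp1))
  have b0 := bound α0 c0 (rd (pr q)) hc0 hc0D r1 r2 hrH (hT0 _ r1 r2 (hrH.trans hHn))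
  have ht1 := tele1 n (fun j => ((√(ht (q j)) : ℝ) : ℂ) * bz M (α j / L) (q j)) (fun j => kap (α j) * (L : ℂ))
    (((√(ht (rd (pr q))) : ℝ) : ℂ) * bz M (α0 / L) (rd (pr q))) (kap α0 * (L : ℂ)) (2 * L) E (by linarith) hE0
    (fun j => (bj j).1) (fun j => (bj j).2.1) (fun j => (bj j).2.2) b0.1 b0.2.2
  have hw := w1_eq hq1
  have hw0 : 0 ≤ w1 (pr q) := Pool.Agent.W184.NZ.w1_nonneg _
  have ew : ((w1 (pr q) : ℝ) : ℂ) = (∏ j, ((√(ht (q j)) : ℝ) : ℂ)⁻¹) * (((√(ht (rd (pr q))) : ℝ) : ℂ))⁻¹ := by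
    rw [← hw]
    push_cast
    rfl
  have hsj : ∀ j, ((√(ht (q j)) : ℝ) : ℂ) ≠ 0 := fun j => by
    rw [Complex.ofReal_ne_zero]
    exact (Real.sqrt_pos.2 (by linarith [hht1 j])).ne'
  have hs0 : ((√(ht (rd (pr q))) : ℝ) : ℂ) ≠ 0 := by
    rw [Complex.ofReal_ne_zero]
    exact (Real.sqrt_pos.2 (by linarith)).ne'
  have key : (∏ j, bz M (α j / L) (q j)) * bz M (α0 / L) (rd (pr q)) -
      (kap α0 * ∏ j, kap (α j)) * ((L ^ (n + 1) * w1 (pr q) : ℝ) : ℂ) =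
      ((w1 (pr q) : ℝ) : ℂ) * ((∏ j, ((√(ht (q j)) : ℝ) : ℂ) * bz M (α j / L) (q j)) *
        (((√(ht (rd (pr q))) : ℝ) : ℂ) * bz M (α0 / L) (rd (pr q))) -
        (∏ j, kap (α j) * (L : ℂ)) * (kap α0 * (L : ℂ))) := by
    have e1 : ((w1 (pr q) : ℝ) : ℂ) * ((∏ j, ((√(ht (q j)) : ℝ) : ℂ) * bz M (α j / L) (q j)) *
        (((√(ht (rd (pr q))) : ℝ) : ℂ) * bz M (α0 / L) (rd (pr q)))) =
        (∏ j, bz M (α j / L) (q j)) * bz M (α0 / L) (rd (pr q)) := by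
      rw [ew]
      have e2 : (∏ j, ((√(ht (q j)) : ℝ) : ℂ)⁻¹) * (∏ j, ((√(ht (q j)) : ℝ) : ℂ) * bz M (α j / L) (q j)) =
          ∏ j, bz M (α j / L) (q j) := by
        rw [← Finset.prod_mul_distrib]
        exact Finset.prod_congr rfl fun j _ => by rw [← mul_assoc, inv_mul_cancel₀ (hsj j), one_mul]
      calc (∏ j, ((√(ht (q j)) : ℝ) : ℂ)⁻¹) * (((√(ht (rd (pr q))) : ℝ) : ℂ))⁻¹ *
          ((∏ j, ((√(ht (q j)) : ℝ) : ℂ) * bz M (α j / L) (q j)) *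
          (((√(ht (rd (pr q))) : ℝ) : ℂ) * bz M (α0 / L) (rd (pr q)))) =
          ((∏ j, ((√(ht (q j)) : ℝ) : ℂ)⁻¹) * (∏ j, ((√(ht (q j)) : ℝ) : ℂ) * bz M (α j / L) (q j))) *
          ((((√(ht (rd (pr q))) : ℝ) : ℂ))⁻¹ * ((√(ht (rd (pr q))) : ℝ) : ℂ)) *
            bz M (α0 / L) (rd (pr q)) := by ring
        _ = _ := by rw [e2, inv_mul_cancel₀ hs0, mul_one]
    rw [mul_sub, e1, Finset.prod_mul_distrib]
    congr 1
    simp only [Finset.prod_const, Finset.card_univ, Fintype.card_fin]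
    push_cast
    ring
  rw [key, norm_mul, Complex.norm_real, Real.norm_eq_abs, abs_of_nonneg hw0]
  calc w1 (pr q) * _ ≤ w1 (pr q) * ((n + 1) * (2 * L) ^ n * E) := mul_le_mul_of_nonneg_left ht1 hw0
    _ = _ := by
      rw [hE, ← hH, mul_pow]
      ring

end Pool.Agent.L0h37.KM
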