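import Pool.Agent.L0h37.KM.Stm
import Pool.Agent.N879.PZ.Ctg
import Pool.Agent.N879.PZ.Telc

set_option autoImplicit false

/-!
Project KM (helper37), module TELX: replacement of all the factors.
-/

namespace Pool.Agent.L0h37.KM

open Complex Filter Topology MeasureTheory Set
open Pool.Agent.Y969.GP (mB)
open Pool.Agent.N879.PZ (Wb)
open Pool.Agent.N879.PZ.Telcaux (wb_mul wb_int)

noncomputable section

namespace TELXaux

/-- the mixed factors -/
def kk {n : ℕ} (f g : Fin n → ℝ → ℂ) (j i : Fin n) : ℝ → ℂ := if i < j then g i else f i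

lemma kk_cont {n : ℕ} {f g : Fin n → ℝ → ℂ} (hf : ∀ j, Continuous (f j))
    (hg : ∀ j, Continuous (g j)) (j i : Fin n) : Continuous (kk f g j i) := by
  unfold kk
  split_ifs
  · exact hg i
  · exact hf i

/-- the factors with the `j`-th one replaced by `h` -/
def uu {n : ℕ} (f g : Fin n → ℝ → ℂ) (h : ℝ → ℂ) (j : Fin n) : Fin n → ℝ → ℂ :=
  Function.update (kk f g j) j h

lemma uu_cont {n : ℕ} {f g : Fin n → ℝ → ℂ} (hf : ∀ j, Continuous (f j))
    (hg : ∀ j, Continuous (g j)) {h : ℝ → ℂ} (hh : Continuous h) (j i : Fin n) :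
    Continuous (uu f g h j i) := by
  unfold uu
  by_cases hij : i = j
  · rw [hij, Function.update_self]
    exact hh
  · rw [Function.update_of_ne hij]
    exact kk_cont hf hg j i

lemma uu_prod {n : ℕ} (f g : Fin n → ℝ → ℂ) (h : ℝ → ℂ) (j : Fin n) (t : ℝ) (c : Fin n → ℝ) :
    ∏ i, uu f g h j i (t + c i) =
      h (t + c j) * ∏ i ∈ Finset.univ.erase j, kk f g j i (t + c i) := by
  rw [← Finset.mul_prod_erase Finset.univ _ (Finset.mem_univ j)]
  unfold uu
  rw [Function.update_self]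
  congr 1
  refine Finset.prod_congr rfl fun i hi => ?_
  rw [Function.update_of_ne (Finset.ne_of_mem_erase hi)]

lemma tele {n : ℕ} (F G : Fin n → ℂ) :
    ∏ j, F j - ∏ j, G j =
      ∑ j, (F j - G j) * ∏ i ∈ Finset.univ.erase j, (if i < j then G i else F i) := by
  have h1 := Finset.prod_sub_ordered Finset.univ F (fun i => F i - G i)
  simp only [sub_sub_cancel] at h1
  rw [h1, sub_sub_cancel]
  refine Finset.sum_congr rfl fun j _ => ?_
  rw [mul_assoc, Finset.prod_ite]
  congr 2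
  · refine Finset.prod_congr ?_ fun _ _ => rfl
    ext i
    simp only [Finset.mem_filter, Finset.mem_univ, true_and, Finset.mem_erase, and_true]
    exact ⟨fun h => ⟨h.ne, h⟩, fun h => h.2⟩
  · refine Finset.prod_congr ?_ fun _ _ => rfl
    ext i
    simp only [Finset.mem_filter, Finset.mem_univ, true_and, Finset.mem_erase, and_true, not_lt]
    exact ⟨fun h => ⟨h.ne', h.le⟩, fun h => lt_of_le_of_ne h.2 (Ne.symm h.1)⟩

lemma split {n : ℕ} (f g h r : Fin n → ℝ → ℂ) (hr : ∀ j u, f j u - g j u = h j u + r j u)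
    (w : ℝ → ℂ) (t : ℝ) (c : Fin n → ℝ) :
    w t * (∏ j, f j (t + c j) - ∏ j, g j (t + c j)) =
      ∑ j, (w t * ∏ i, uu f g (h j) j i (t + c i) + w t * ∏ i, uu f g (r j) j i (t + c i)) := by
  rw [tele, Finset.mul_sum]
  refine Finset.sum_congr rfl fun j _ => ?_
  rw [uu_prod, uu_prod, hr]
  have h1 : ∏ i ∈ Finset.univ.erase j, (if i < j then g i (t + c i) else f i (t + c i)) =
      ∏ i ∈ Finset.univ.erase j, kk f g j i (t + c i) := by
    refine Finset.prod_congr rfl fun i _ => ?_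
    unfold kk
    split_ifs <;> rfl
  rw [h1]
  ring

/-- the integrals with the shifts -/
def AA {n : ℕ} (T : ℝ) (w : ℝ → ℂ) (k : Fin n → ℝ → ℂ) (c : Fin n → ℝ) : ℂ :=
  ∫ t in (0 : ℝ)..T, w t * ∏ i, k i (t + c i)

lemma AA_Ioc {n : ℕ} {T : ℝ} (hT : 0 < T) (w : ℝ → ℂ) (k : Fin n → ℝ → ℂ) (c : Fin n → ℝ) :
    AA T w k c = ∫ t in Ioc 0 T, w t * ∏ i, k i (t + c i) := by
  unfold AA
  rw [intervalIntegral.integral_of_le hT.le]

lemma AA_cont {n : ℕ} {T : ℝ} (hT : 0 < T) {w : ℝ → ℂ} (hw : Wb 0 T w) {k : Fin n → ℝ → ℂ}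
    (hk : ∀ i, Continuous (k i)) : Continuous (AA T w k) := by
  have h1 := Pool.Agent.N879.PZ.t_CTG n 0 T (Ioc 0 T) w k hT.le measurableSet_Ioc
    Ioc_subset_Icc_self hw hk
  have h2 : AA T w k = fun c : Fin n → ℝ => ∫ t in Ioc 0 T, w t * ∏ j, k j (t + c j) :=
    funext fun c => AA_Ioc hT w k c
  rw [h2]
  exact h1

lemma fin_mB (n : ℕ) (T : ℝ) : IsFiniteMeasure (mB n 0 T) := by
  have hcomp : IsCompact (Set.univ.pi fun _ : Fin n => Icc (0 : ℝ) T) :=
    isCompact_univ_pi fun _ => isCompact_Icc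
  rw [Pool.Agent.N879.PZ.Ctgaux.mB_eq]
  exact ⟨by rw [Measure.restrict_apply_univ]; exact hcomp.measure_lt_top⟩

lemma int_mB {n : ℕ} (T : ℝ) {φ : (Fin n → ℝ) → ℝ} (hφ : Continuous φ) :
    Integrable φ (mB n 0 T) := by
  have hcomp : IsCompact (Set.univ.pi fun _ : Fin n => Icc (0 : ℝ) T) :=
    isCompact_univ_pi fun _ => isCompact_Icc
  rw [Pool.Agent.N879.PZ.Ctgaux.mB_eq]
  exact hφ.continuousOn.integrableOn_compact hcomp

lemma int_t {n : ℕ} {T : ℝ} (hT : 0 < T) {w : ℝ → ℂ} (hw : Wb 0 T w) {k : Fin n → ℝ → ℂ}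
    (hk : ∀ i, Continuous (k i)) (c : Fin n → ℝ) :
    IntervalIntegrable (fun t => w t * ∏ i, k i (t + c i)) volume 0 T := by
  rw [intervalIntegrable_iff_integrableOn_Icc_of_le hT.le]
  refine wb_int (wb_mul hw ?_)
  refine continuous_finsetProd _ fun i _ => (hk i).comp ?_
  exact continuous_id.add continuous_const

/-- windows -/
lemma window {T X : ℝ} (hT : 0 < T) {φ : ℝ → ℂ} (hφ : Continuous φ)
    (h : ∫ u in (0 : ℝ)..(2 * T), ‖φ u‖ ≤ X) (t : ℝ) (ht : t ∈ Ioc 0 T) :
    ∫ c in (0 : ℝ)..T, ‖φ (t + c)‖ ≤ X := by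
  rw [intervalIntegral.integral_comp_add_left (fun u => ‖φ u‖) t]
  refine le_trans ?_ h
  refine intervalIntegral.integral_mono_interval ?_ ?_ ?_ ?_ ?_
  · linarith [ht.1]
  · linarith
  · linarith [ht.2]
  · exact Eventually.of_forall fun u => norm_nonneg _
  · exact (hφ.norm).intervalIntegrable _ _

end TELXaux

open TELXaux in
theorem t_TELX (hTX : S_TX1) : S_TELX := by
  intro n T K V W ρ w f g h r hT hK hV hW hρ hw hf hg hh hr hfg hop hmom
  obtain ⟨I2, hI2⟩ : ∃ I2 : ℝ, I2 = √(T ^ n * K * V ^ (n - 1) * ∫ t in (0 : ℝ)..T, ‖w t‖ ^ 2) :=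
    ⟨_, rfl⟩
  obtain ⟨I1, hI1⟩ : ∃ I1 : ℝ, I1 = ρ * W ^ (n - 1) * ∫ t in (0 : ℝ)..T, ‖w t‖ := ⟨_, rfl⟩
  rw [← hI2, ← hI1]
  have hfin := fin_mB n T
  -- the two kinds of terms
  have hA : ∀ j, ∫ c, ‖AA T w (uu f g (h j) j) c‖ ∂(mB n 0 T) ≤ I2 := by
    intro j
    have h1 := hTX n T K V j w (h j) (kk f g j) hT hK hV hw (hh j) (kk_cont hf hg j) (hop j)
      (by
        intro i _
        unfold kk
        split_ifs
        · exact (hmom i).2.1
        · exact (hmom i).1)
    rw [← hI2] at h1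
    refine le_trans (le_of_eq ?_) h1
    refine integral_congr_ae (Eventually.of_forall fun c => ?_)
    simp only [AA]
    congr 2
    funext t
    rw [uu_prod]
  have hB : ∀ j, ∫ c, ‖AA T w (uu f g (r j) j) c‖ ∂(mB n 0 T) ≤ I1 := by
    intro j
    have h1 := Pool.Agent.N879.PZ.t_FUB n 0 T T (Ioc 0 T) w (uu f g (r j) j) hT.le hT
      measurableSet_Ioc Ioc_subset_Icc_self hw (uu_cont hf hg (hr j) j)
    have h2 : ∫ c, ‖AA T w (uu f g (r j) j) c‖ ∂(mB n 0 T) =
        ∫ c, ‖∫ t in Ioc 0 T, w t * ∏ i, uu f g (r j) j i (t + c i)‖ ∂(mB n 0 T) := by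
      refine integral_congr_ae (Eventually.of_forall fun c => ?_)
      simp only
      rw [AA_Ioc hT]
    rw [h2]
    refine h1.trans ?_
    have hwi : IntegrableOn (fun t => ‖w t‖) (Ioc 0 T) :=
      ((wb_int hw).mono_measure (Measure.restrict_mono Ioc_subset_Icc_self le_rfl)).norm
    have hpr : ∀ t ∈ Ioc (0 : ℝ) T, ∏ i, ∫ c in (0 : ℝ)..T, ‖uu f g (r j) j i (t + c)‖ ≤
        ρ * W ^ (n - 1) := by
      intro t ht
      rw [← Finset.mul_prod_erase Finset.univ _ (Finset.mem_univ j)]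
      have e0 : ∀ i, 0 ≤ ∫ c in (0 : ℝ)..T, ‖uu f g (r j) j i (t + c)‖ := fun i =>
        intervalIntegral.integral_nonneg hT.le fun c _ => norm_nonneg _
      refine mul_le_mul ?_ ?_ (Finset.prod_nonneg fun i _ => e0 i) hρ
      · have : uu f g (r j) j j = r j := by
          unfold uu
          rw [Function.update_self]
        rw [this]
        exact window hT (hr j) (hmom j).2.2.2.2 t ht
      · refine (Finset.prod_le_prod (fun i _ => e0 i) (g := fun _ => W) ?_).trans (le_of_eq ?_)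
        · intro i hi
          have e1 : uu f g (r j) j i = kk f g j i := by
            unfold uu
            rw [Function.update_of_ne (Finset.ne_of_mem_erase hi)]
          rw [e1]
          refine window hT (kk_cont hf hg j i) ?_ t ht
          unfold kk
          split_ifs
          · exact (hmom i).2.2.2.1
          · exact (hmom i).2.2.1
        · rw [Finset.prod_const, Finset.card_erase_of_mem (Finset.mem_univ j), Finset.card_univ,
            Fintype.card_fin]
    calc ∫ t in Ioc 0 T, ‖w t‖ * ∏ i, ∫ c in (0 : ℝ)..T, ‖uu f g (r j) j i (t + c)‖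
        ≤ ∫ t in Ioc 0 T, ‖w t‖ * (ρ * W ^ (n - 1)) := by
          refine integral_mono_of_nonneg ?_ (hwi.mul_const _) ?_
          · refine Eventually.of_forall fun t => ?_
            exact mul_nonneg (norm_nonneg _) (Finset.prod_nonneg fun i _ =>
              intervalIntegral.integral_nonneg hT.le fun c _ => norm_nonneg _)
          · refine (ae_restrict_mem measurableSet_Ioc).mono fun t ht => ?_
            exact mul_le_mul_of_nonneg_left (hpr t ht) (norm_nonneg _)
      _ = I1 := by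
          rw [integral_mul_const, hI1, intervalIntegral.integral_of_le hT.le, mul_comm]
  -- pointwise
  have hpt : ∀ c : Fin n → ℝ, ‖∫ t in (0 : ℝ)..T, w t * (∏ j, f j (t + c j) - ∏ j, g j (t + c j))‖ ≤
      ∑ j, (‖AA T w (uu f g (h j) j) c‖ + ‖AA T w (uu f g (r j) j) c‖) := by
    intro c
    have e1 : ∫ t in (0 : ℝ)..T, w t * (∏ j, f j (t + c j) - ∏ j, g j (t + c j)) =
        ∑ j, (AA T w (uu f g (h j) j) c + AA T w (uu f g (r j) j) c) := by
      have e2 : (fun t => w t * (∏ j, f j (t + c j) - ∏ j, g j (t + c j))) = fun t =>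
          ∑ j, (w t * ∏ i, uu f g (h j) j i (t + c i) + w t * ∏ i, uu f g (r j) j i (t + c i)) :=
        funext fun t => split f g h r hfg w t c
      rw [e2, intervalIntegral.integral_finsetSum]
      · refine Finset.sum_congr rfl fun j _ => ?_
        rw [intervalIntegral.integral_add]
        · rfl
        · exact int_t hT hw (uu_cont hf hg (hh j) j) c
        · exact int_t hT hw (uu_cont hf hg (hr j) j) c
      · intro j _
        exact (int_t hT hw (uu_cont hf hg (hh j) j) c).add (int_t hT hw (uu_cont hf hg (hr j) j) c)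
    rw [e1]
    refine (norm_sum_le _ _).trans (Finset.sum_le_sum fun j _ => norm_add_le _ _)
  have hcA : ∀ j, Integrable (fun c => ‖AA T w (uu f g (h j) j) c‖) (mB n 0 T) := fun j =>
    int_mB T (AA_cont hT hw (uu_cont hf hg (hh j) j)).norm
  have hcB : ∀ j, Integrable (fun c => ‖AA T w (uu f g (r j) j) c‖) (mB n 0 T) := fun j =>
    int_mB T (AA_cont hT hw (uu_cont hf hg (hr j) j)).norm
  have hcs : ∀ j : Fin n, j ∈ Finset.univ → Integrable (fun c => ‖AA T w (uu f g (h j) j) c‖ +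
      ‖AA T w (uu f g (r j) j) c‖) (mB n 0 T) := fun j _ => (hcA j).add (hcB j)
  calc ∫ c, ‖∫ t in (0 : ℝ)..T, w t * (∏ j, f j (t + c j) - ∏ j, g j (t + c j))‖ ∂(mB n 0 T)
      ≤ ∫ c, ∑ j, (‖AA T w (uu f g (h j) j) c‖ + ‖AA T w (uu f g (r j) j) c‖) ∂(mB n 0 T) :=
        integral_mono_of_nonneg (Eventually.of_forall fun c => norm_nonneg _)
          (integrable_finset_sum _ hcs) (Eventually.of_forall hpt)
    _ = ∑ j, (∫ c, ‖AA T w (uu f g (h j) j) c‖ ∂(mB n 0 T) +
          ∫ c, ‖AA T w (uu f g (r j) j) c‖ ∂(mB n 0 T)) := by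
        rw [integral_finset_sum _ hcs]
        exact Finset.sum_congr rfl fun j _ => integral_add (hcA j) (hcB j)
    _ ≤ ∑ _j : Fin n, (I2 + I1) := Finset.sum_le_sum fun j _ => add_le_add (hA j) (hB j)
    _ = n * I2 + n * I1 := by
        rw [Finset.sum_const, Finset.card_univ, Fintype.card_fin, nsmul_eq_mul]
        ring

end

end Pool.Agent.L0h37.KM
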