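import Pool.Agent.L0h37.KM.Stm
import Pool.Agent.N879.PZ.Telc
import Pool.Agent.N879.PZ.Ctg

set_option autoImplicit false

/-!
Project KM (helper37), module TX1 (helper39): one factor bounded as an operator.
-/

namespace Pool.Agent.L0h37.KM

open Complex Filter Topology MeasureTheory Set
open Pool.Agent.Y969.GP (mB)
open Pool.Agent.N879.PZ (Wb)
open Pool.Agent.N879.PZ.Telcaux
open scoped ENNReal

noncomputable section

namespace TX1aux

/-- the variable with the index `j` -/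
lemma lint_prodj {n : ℕ} (U : ℝ) (j : Fin (n + 1)) (F : (Fin (n + 1) → ℝ) → ℝ≥0∞) (hF : Measurable F) :
    ∫⁻ γ, F γ ∂(mB (n + 1) 0 U) =
      ∫⁻ p : ℝ × (Fin n → ℝ), F (j.insertNth p.1 p.2)
        ∂((volume.restrict (Icc 0 U)).prod (mB n 0 U)) := by
  have hmp := (measurePreserving_piFinSuccAbove
    (fun _ : Fin (n + 1) => (volume.restrict (Icc 0 U) : Measure ℝ)) j).symm
  have h1 := hmp.lintegral_comp hF
  unfold mB
  rw [← h1]
  refine lintegral_congr fun p => ?_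
  rfl

/-- the product of the second moments -/
lemma pmomj {U V : ℝ} (hV0 : 0 ≤ V) : ∀ (n : ℕ) (φ : Fin n → ℝ → ℂ), (∀ i, Continuous (φ i)) →
    (∀ i, ∫⁻ y, ENNReal.ofReal (‖φ i y‖ ^ 2) ∂(volume.restrict (Icc 0 U)) ≤ ENNReal.ofReal V) →
    ∫⁻ γ, ENNReal.ofReal (‖∏ i, φ i (γ i)‖ ^ 2) ∂(mB n 0 U) ≤ ENNReal.ofReal (V ^ n) := by
  intro n
  induction n with
  | zero =>
    intro φ _ _
    simp [mB, Measure.pi_empty_univ]
  | succ n ih =>
    intro φ hφ h
    have hc : Continuous fun γ : Fin (n + 1) → ℝ => ‖∏ i, φ i (γ i)‖ ^ 2 := by fun_prop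
    rw [lint_prod U _ (mor hc.measurable)]
    have hcc : Continuous fun p : ℝ × (Fin n → ℝ) => (Fin.cons p.1 p.2 : Fin (n + 1) → ℝ) :=
      Continuous.finCons (A := fun _ => ℝ) continuous_fst continuous_snd
    have hcomp : Continuous fun p : ℝ × (Fin n → ℝ) =>
        ‖∏ i, φ i ((Fin.cons p.1 p.2 : Fin (n + 1) → ℝ) i)‖ ^ 2 := hc.comp hcc
    rw [lintegral_prod _ (mor hcomp.measurable).aemeasurable]
    have e1 : ∀ (y : ℝ) (γ : Fin n → ℝ), ‖∏ i, φ i ((Fin.cons y γ : Fin (n + 1) → ℝ) i)‖ ^ 2 =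
        ‖φ 0 y‖ ^ 2 * ‖∏ i : Fin n, φ i.succ (γ i)‖ ^ 2 := by
      intro y γ
      rw [Fin.prod_univ_succ, norm_mul, mul_pow]
      simp only [Fin.cons_zero, Fin.cons_succ]
    have cs : Continuous fun γ : Fin n → ℝ => ‖∏ i : Fin n, φ i.succ (γ i)‖ ^ 2 := by
      have := fun i : Fin n => hφ i.succ
      fun_prop
    have e2 : ∀ y : ℝ, ∫⁻ γ : Fin n → ℝ,
        ENNReal.ofReal (‖∏ i, φ i ((Fin.cons y γ : Fin (n + 1) → ℝ) i)‖ ^ 2) ∂(mB n 0 U) ≤
        ENNReal.ofReal (‖φ 0 y‖ ^ 2) * ENNReal.ofReal (V ^ n) := by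
      intro y
      simp_rw [e1, ENNReal.ofReal_mul (sq_nonneg ‖φ 0 y‖)]
      rw [lintegral_const_mul _ (mor cs.measurable)]
      exact mul_le_mul' le_rfl (ih (fun i => φ i.succ) (fun i => hφ i.succ) fun i => h i.succ)
    refine (lintegral_mono e2).trans ?_
    have c0 : Continuous fun y : ℝ => ‖φ 0 y‖ ^ 2 := (hφ 0).norm.pow 2
    rw [lintegral_mul_const _ (mor c0.measurable), pow_succ, ENNReal.ofReal_mul (pow_nonneg hV0 n), mul_comm]
    exact mul_le_mul' le_rfl (h 0)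

lemma erase_eq {n : ℕ} (j : Fin (n + 1)) (f : Fin (n + 1) → ℂ) :
    ∏ i ∈ Finset.univ.erase j, f i = ∏ i : Fin n, f (j.succAbove i) := by
  have h : Finset.univ.erase j = Finset.univ.map (Fin.succAboveEmb j) := by
    ext i
    simp only [Finset.mem_erase, Finset.mem_univ, and_true, Finset.mem_map, true_and, Fin.coe_succAboveEmb]
    exact (Fin.exists_succAbove_eq_iff (x := j) (y := i)).symm
  rw [h, Finset.prod_map]
  rfl

/-- the second moment -/
lemma core {n : ℕ} {T K V : ℝ} (hK : 0 ≤ K) (hV : 0 ≤ V) (j : Fin (n + 1)) {w h : ℝ → ℂ}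
    {k : Fin (n + 1) → ℝ → ℂ} (hw : Wb 0 T w) (hh : Continuous h) (hk : ∀ i, Continuous (k i))
    (h1 : ∀ v : ℝ → ℂ, Wb 0 T v → ∫⁻ y, ENNReal.ofReal (‖∫ t in Icc 0 T, v t * h (t + y)‖ ^ 2)
      ∂(volume.restrict (Icc 0 T)) ≤ ENNReal.ofReal K * ∫⁻ t in Icc 0 T, ENNReal.ofReal (‖v t‖ ^ 2))
    (h2 : ∀ i, i ≠ j → ∀ t ∈ Icc 0 T, ∫⁻ y, ENNReal.ofReal (‖k i (t + y)‖ ^ 2)
      ∂(volume.restrict (Icc 0 T)) ≤ ENNReal.ofReal V) :
    ∫⁻ c, ENNReal.ofReal (‖∫ t in Icc 0 T, w t * (h (t + c j) *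
        ∏ i ∈ Finset.univ.erase j, k i (t + c i))‖ ^ 2) ∂(mB (n + 1) 0 T) ≤
      ENNReal.ofReal (K * V ^ n) * ∫⁻ t in Icc 0 T, ENNReal.ofReal (‖w t‖ ^ 2) := by
  have hm0 : Measurable fun c : Fin (n + 1) → ℝ => ∫ t in Icc 0 T, w t * (h (t + c j) *
      ∏ i ∈ Finset.univ.erase j, k i (t + c i)) := by
    refine meas_int ((hw.1.comp measurable_snd).mul (Continuous.measurable ?_))
    fun_prop
  rw [lint_prodj T j _ (mor (hm0.norm.pow_const 2))]
  obtain ⟨q, hq⟩ : ∃ q : Fin n → ℝ → ℂ, q = fun i => k (j.succAbove i) := ⟨_, rfl⟩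
  have hqc : ∀ i, Continuous (q i) := fun i => by rw [hq]; exact hk _
  obtain ⟨S, hS⟩ : ∃ S : ℝ × (Fin n → ℝ) → ℂ, S = fun p => ∫ t in Icc 0 T,
    (w t * ∏ i, q i (t + p.2 i)) * h (t + p.1) := ⟨_, rfl⟩
  have c1 : Measurable fun p => ‖S p‖ ^ 2 := by
    rw [hS]
    refine (meas_int (X := ℝ × (Fin n → ℝ)) (((hw.1.comp measurable_snd).mul
      (Continuous.measurable ?_)).mul (Continuous.measurable ?_))).norm.pow_const 2
    · fun_prop
    · fun_prop
  have e1 : ∀ p : ℝ × (Fin n → ℝ), ∫ t in Icc 0 T, w t * (h (t + (j.insertNth p.1 p.2 : Fin (n + 1) → ℝ) j) *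
      ∏ i ∈ Finset.univ.erase j, k i (t + (j.insertNth p.1 p.2 : Fin (n + 1) → ℝ) i)) = S p := by
    intro p
    rw [hS]
    refine integral_congr_ae (Filter.Eventually.of_forall fun t => ?_)
    simp only [erase_eq j, Fin.insertNth_apply_same, Fin.insertNth_apply_succAbove, hq]
    ring
  have e2 : ∀ p : ℝ × (Fin n → ℝ), ENNReal.ofReal (‖∫ t in Icc 0 T, w t *
      (h (t + (j.insertNth p.1 p.2 : Fin (n + 1) → ℝ) j) *
      ∏ i ∈ Finset.univ.erase j, k i (t + (j.insertNth p.1 p.2 : Fin (n + 1) → ℝ) i))‖ ^ 2) =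
      ENNReal.ofReal (‖S p‖ ^ 2) := fun p => by rw [e1]
  refine (lintegral_congr e2).trans_le ?_
  rw [lintegral_prod_symm _ (mor c1).aemeasurable]
  have e3 : ∀ γ : Fin n → ℝ, ∫⁻ x, ENNReal.ofReal (‖S (x, γ)‖ ^ 2) ∂(volume.restrict (Icc 0 T)) ≤
      ENNReal.ofReal K * ∫⁻ t in Icc 0 T, ENNReal.ofReal (‖w t‖ ^ 2 * ‖∏ i, q i (t + γ i)‖ ^ 2) := by
    intro γ
    have h4 := h1 (fun t => w t * ∏ i, q i (t + γ i)) (wb_mul hw (by fun_prop))
    simp only [norm_mul, mul_pow] at h4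
    rw [hS]
    exact h4
  refine (lintegral_mono e3).trans ?_
  rw [lintegral_const_mul' _ _ ENNReal.ofReal_ne_top, ENNReal.ofReal_mul hK, mul_assoc]
  refine mul_le_mul' le_rfl ?_
  have cm : Measurable (Function.uncurry fun (t : ℝ) (γ : Fin n → ℝ) => ‖∏ i, q i (t + γ i)‖ ^ 2) := by
    refine Continuous.measurable ?_
    fun_prop
  have cp : ∀ t ∈ (Set.univ : Set ℝ), t ∈ Icc 0 T → ∫⁻ γ : Fin n → ℝ, ENNReal.ofReal (‖∏ i, q i (t + γ i)‖ ^ 2)
      ∂(mB n 0 T) ≤ ENNReal.ofReal (V ^ n) := fun t _ ht =>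
    pmomj hV n (fun i y => q i (t + y)) (fun i => (hqc i).comp (continuous_const.add continuous_id))
      (fun i => by
        have h5 := h2 (j.succAbove i) (Fin.succAbove_ne j i) t ht
        rw [hq]
        exact h5)
  exact wint (X := Fin n → ℝ) (μ := mB n 0 T) (a := 0) (b := T) (C := V ^ n) (G := Set.univ) hw.1
    (fun t ht => absurd (Set.mem_univ t) ht)
    (h := fun (t : ℝ) (γ : Fin n → ℝ) => ‖∏ i, q i (t + γ i)‖ ^ 2) cm cp

/-- Cauchy's inequality on a space of finite measure -/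
lemma cs {X : Type} [MeasurableSpace X] {μ : Measure X} [IsFiniteMeasure μ] {f : X → ℝ}
    (h1 : Integrable f μ) (h2 : Integrable (fun x => f x ^ 2) μ) :
    (∫ x, f x ∂μ) ^ 2 ≤ μ.real Set.univ * ∫ x, f x ^ 2 ∂μ := by
  obtain ⟨M, hM⟩ : ∃ M : ℝ, M = μ.real Set.univ := ⟨_, rfl⟩
  obtain ⟨A, hA⟩ : ∃ A : ℝ, A = ∫ x, f x ∂μ := ⟨_, rfl⟩
  obtain ⟨B, hB⟩ : ∃ B : ℝ, B = ∫ x, f x ^ 2 ∂μ := ⟨_, rfl⟩
  have hM0 : 0 ≤ M := by rw [hM]; exact measureReal_nonneg
  have key : 0 ≤ ∫ x, (M * f x - A) ^ 2 ∂μ := integral_nonneg fun x => sq_nonneg _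
  have e : ∫ x, (M * f x - A) ^ 2 ∂μ = M ^ 2 * B - 2 * M * A * A + A ^ 2 * M := by
    have e0 : (fun x => (M * f x - A) ^ 2) = fun x => (M ^ 2 * f x ^ 2 - 2 * M * A * f x) + A ^ 2 := by
      funext x
      ring
    have i1 : Integrable (fun x => M ^ 2 * f x ^ 2) μ := h2.const_mul _
    have i2 : Integrable (fun x => 2 * M * A * f x) μ := h1.const_mul _
    have i3 : Integrable (fun x => M ^ 2 * f x ^ 2 - 2 * M * A * f x) μ := i1.sub i2
    rw [e0, integral_add i3 (integrable_const _), integral_sub i1 i2, integral_const_mul, integral_const_mul,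
      integral_const, smul_eq_mul, ← hA, ← hB, ← hM]
    ring
  rw [e] at key
  rw [← hA, ← hB, ← hM]
  rcases eq_or_lt_of_le hM0 with h0 | h0
  · have hμ : μ = 0 := by
      rw [← h0, measureReal_def] at hM
      have h3 := (ENNReal.toReal_eq_zero_iff _).1 hM.symm
      rcases h3 with h3 | h3
      · exact Measure.measure_univ_eq_zero.1 h3
      · exact absurd h3 (measure_ne_top μ _)
    have hA0 : A = 0 := by rw [hA, hμ, integral_zero_measure]
    rw [hA0, ← h0]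
    simp
  · have h3 : 0 ≤ M * (M * B - A ^ 2) := by nlinarith
    have h4 := nonneg_of_mul_nonneg_right h3 h0
    linarith

end TX1aux

open TX1aux in
theorem t_TX1 : S_TX1 := by
  intro n T K V j w h k hT hK hV hw hh hk hop hwin
  obtain ⟨m, rfl⟩ : ∃ m, n = m + 1 := ⟨n - 1, by have := j.2; omega⟩
  rw [Nat.add_sub_cancel]
  -- the inner integral as an integral over a set
  obtain ⟨X, hX⟩ : ∃ X : (Fin (m + 1) → ℝ) → ℂ, X = fun c => ∫ t in Icc 0 T, w t * (h (t + c j) *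
    ∏ i ∈ Finset.univ.erase j, k i (t + c i)) := ⟨_, rfl⟩
  have eI : ∀ F : ℝ → ℂ, ∫ t in (0 : ℝ)..T, F t = ∫ t in Icc 0 T, F t := fun F => by
    rw [intervalIntegral.integral_of_le hT.le, ← integral_Icc_eq_integral_Ioc]
  have eX : ∀ c : Fin (m + 1) → ℝ, ∫ t in (0 : ℝ)..T, w t * (h (t + c j) *
      ∏ i ∈ Finset.univ.erase j, k i (t + c i)) = X c := fun c => by
    rw [eI, hX]
  simp_rw [eX]
  -- continuity
  have hXc : Continuous X := by
    have h1 := Pool.Agent.N879.PZ.t_CTG (m + 1) 0 T (Icc 0 T) w (Function.update k j h) hT.le measurableSet_Icc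
      subset_rfl hw (fun i => by
        by_cases hi : i = j
        · subst hi
          rw [Function.update_self]
          exact hh
        · rw [Function.update_of_ne hi]
          exact hk i)
    have h2 : X = fun c : Fin (m + 1) → ℝ => ∫ t in Icc 0 T, w t * ∏ i, (Function.update k j h) i (t + c i) := by
      rw [hX]
      funext c
      refine integral_congr_ae (Filter.Eventually.of_forall fun t => ?_)
      simp only
      rw [← Finset.mul_prod_erase _ _ (Finset.mem_univ j), Function.update_self]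
      congr 2
      refine Finset.prod_congr rfl fun i hi => ?_
      rw [Function.update_of_ne (Finset.ne_of_mem_erase hi)]
    rw [h2]
    exact h1
  -- the box
  have hcomp : IsCompact (Set.univ.pi fun _ : Fin (m + 1) => Icc (0 : ℝ) T) :=
    isCompact_univ_pi fun _ => isCompact_Icc
  have hfin : IsFiniteMeasure (mB (m + 1) 0 T) := by
    rw [Pool.Agent.N879.PZ.Ctgaux.mB_eq]
    exact ⟨by rw [Measure.restrict_apply_univ]; exact hcomp.measure_lt_top⟩
  have hint : ∀ f : (Fin (m + 1) → ℝ) → ℝ, Continuous f → Integrable f (mB (m + 1) 0 T) := by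
    intro f hf
    rw [Pool.Agent.N879.PZ.Ctgaux.mB_eq]
    exact hf.continuousOn.integrableOn_compact hcomp
  have hvol : (mB (m + 1) 0 T).real Set.univ = T ^ (m + 1) := by
    rw [measureReal_def]
    unfold Pool.Agent.Y969.GP.mB
    rw [Measure.pi_univ]
    simp only [Measure.restrict_apply_univ, Real.volume_Icc, sub_zero, Finset.prod_const, Finset.card_univ,
      Fintype.card_fin]
    rw [ENNReal.toReal_pow, ENNReal.toReal_ofReal hT.le]
  -- the second moment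
  have key := core (n := m) (T := T) hK hV j hw hh hk
    (by
      intro v hv
      have h1 := hyp (a := 0) (b := T) (U := T) (K := K) (f := h) (g := fun _ => 0) hT.le hT hh
        continuous_const hK (fun F hF => by simpa only [sub_zero] using hop F hF) v hv
      simpa only [sub_zero] using h1)
    (by
      intro i hi t ht
      have ck : Continuous fun y => ‖k i (t + y)‖ ^ 2 := by
        have := hk i
        fun_prop
      rw [lint1 hT.le ck.continuousOn.integrableOn_Icc fun y => sq_nonneg _]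
      refine ENNReal.ofReal_le_ofReal (le_trans ?_ (hwin i hi))
      have e1 : ∫ y in (0 : ℝ)..T, ‖k i (t + y)‖ ^ 2 = ∫ u in t..(t + T), ‖k i u‖ ^ 2 := by
        rw [intervalIntegral.integral_comp_add_left (fun u => ‖k i u‖ ^ 2) t, add_zero]
      rw [e1]
      refine intervalIntegral.integral_mono_interval ht.1 (by linarith) (by linarith [ht.2])
        (Filter.Eventually.of_forall fun u => sq_nonneg _) ?_
      exact ((hk i).norm.pow 2).intervalIntegrable _ _)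
  obtain ⟨I, hI⟩ : ∃ I : ℝ, I = ∫ t in (0 : ℝ)..T, ‖w t‖ ^ 2 := ⟨_, rfl⟩
  have hI0 : 0 ≤ I := by
    rw [hI]
    exact intervalIntegral.integral_nonneg hT.le fun t _ => sq_nonneg _
  rw [lint1 hT.le (wb_int2 hw) (fun y => sq_nonneg _), ← hI,
    ← ENNReal.ofReal_mul (mul_nonneg hK (pow_nonneg hV m))] at key
  have hsq : ∫ c, ‖X c‖ ^ 2 ∂(mB (m + 1) 0 T) ≤ K * V ^ m * I := by
    rw [integral_eq_lintegral_of_nonneg_ae (Filter.Eventually.of_forall fun c => sq_nonneg _)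
      (hXc.norm.pow 2).measurable.aestronglyMeasurable]
    have h0 : 0 ≤ K * V ^ m * I := mul_nonneg (mul_nonneg hK (pow_nonneg hV m)) hI0
    rw [← ENNReal.toReal_ofReal h0]
    refine ENNReal.toReal_mono ENNReal.ofReal_ne_top ?_
    rw [hX]
    exact key
  have hcs := cs (μ := mB (m + 1) 0 T) (hint _ hXc.norm) (hint _ (hXc.norm.pow 2))
  rw [hvol] at hcs
  rw [← hI]
  refine Real.le_sqrt_of_sq_le (hcs.trans ?_)
  calc T ^ (m + 1) * ∫ c, ‖X c‖ ^ 2 ∂(mB (m + 1) 0 T) ≤ T ^ (m + 1) * (K * V ^ m * I) :=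
        mul_le_mul_of_nonneg_left hsq (pow_nonneg hT.le _)
    _ = T ^ (m + 1) * K * V ^ m * I := by ring

end

end Pool.Agent.L0h37.KM
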