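import Pool.Agent.L0h37.KM.MAIN
import Pool.Agent.L0h37.KM.TX1
import Pool.Agent.L0h37.KM.TELX
import Pool.Agent.L0h37.KM.L2A
import Pool.Agent.L0h37.KM.HLA
import Pool.Agent.L0h37.KM.KLB
import Pool.Agent.L0h37.KM.BZA
import Pool.Agent.L0h37.KM.MSA
import Pool.Agent.L0h95.KM.OPM
import Pool.Agent.L0h59.KM.TWM
import Pool.Agent.L0h66.KM.GRP
import Pool.Agent.N879.PZ.Aa1
import Pool.Agent.N879.PZ.Eul1
import Pool.Agent.N879.PZ.Eut1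
import Pool.Agent.N879.PZ.Loc1
import Pool.Agent.N879.PZ.Lb1
import Pool.Agent.N879.PZ.Ze1

set_option autoImplicit false

/-! Project KM (helper37): the final forms. -/

namespace Pool.Agent.L0h37.KM

open Complex Filter Topology MeasureTheory Set
open Pool.Agent.Y969.GP (ff ht lam FR mB)
open Pool.Agent.Y969.SM (mB_int mB_eq)
open Pool.Agent.N879.PZ (SS1 SS1_cont zp1 AA1 loc1 ep1 S_AA1 S_EUL1 S_LB1 S_ZE1)

theorem k_GRP : S_GRP := Pool.Agent.L0h66.KM.t_GRP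

theorem k_MEAN : S_MEAN :=
  t_MEAN (t_FG (t_L2A (t_HLA t_KLB))) k_GRP Pool.Agent.L0h95.KM.t_OPM (t_TELX t_TX1)
    (t_MSM k_GRP (t_MSA k_GRP t_BZA) Pool.Agent.L0h59.KM.t_TWM)

theorem k_AA1 : S_AA1 := Pool.Agent.N879.PZ.t_AA1 Pool.Agent.N879.PZ.t_LOC1

theorem k_EUL1 : S_EUL1 :=
  Pool.Agent.N879.PZ.t_EUL1 Pool.Agent.N879.PZ.t_LOC1 (Pool.Agent.N879.PZ.t_EUT1 Pool.Agent.N879.PZ.t_LSM1)

theorem k_LB1 : S_LB1 := Pool.Agent.N879.PZ.t_LB1 Pool.Agent.N879.PZ.t_LOC1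

theorem k_ZE1 : S_ZE1 := Pool.Agent.N879.PZ.t_ZE1 k_AA1

/-- all the forms -/
theorem k_all (n : ℕ) (α0 : ℝ) (α : Fin n → ℝ) :
    (∃ C : ℝ, ∀ c : Fin n → ℝ, ∀ p : ℕ, p.Prime → |loc1 c p * ep1 c p - 1| ≤ C / (p : ℝ) ^ 2) ∧
    ∀ ε : ℝ, 0 < ε → ∃ T₀ : ℝ, ∀ T : ℝ, T₀ ≤ T →
      IntegrableOn (fun c : Fin n → ℝ => ‖JJ α0 α T c / ((T * Real.log T ^ (n + 1) : ℝ) : ℂ) -
        (kap α0 * ∏ j, kap (α j)) * ((SS1 (Real.log T) c : ℝ) : ℂ)‖) {c | ∀ j, c j ∈ Set.Icc 0 T} ∧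
      ∫ c in {c : Fin n → ℝ | ∀ j, c j ∈ Set.Icc 0 T}, ‖JJ α0 α T c / ((T * Real.log T ^ (n + 1) : ℝ) : ℂ) -
        (kap α0 * ∏ j, kap (α j)) * ((SS1 (Real.log T) c : ℝ) : ℂ)‖ ≤ ε * T ^ n ∧
      volume {c : Fin n → ℝ | (∀ j, c j ∈ Set.Icc 0 T) ∧
        ε ≤ ‖JJ α0 α T c / ((T * Real.log T ^ (n + 1) : ℝ) : ℂ) -
          (kap α0 * ∏ j, kap (α j)) * ((zp1 c * AA1 c : ℝ) : ℂ)‖} ≤ ENNReal.ofReal (ε * T ^ n) ∧
      (kap α0 * ∏ j, kap (α j) ≠ 0 → volume {c : Fin n → ℝ | (∀ j, c j ∈ Set.Icc 0 T) ∧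
        ¬ ‖JJ α0 α T c / ((kap α0 * ∏ j, kap (α j)) *
          ((zp1 c * AA1 c * (T * Real.log T ^ (n + 1)) : ℝ) : ℂ)) - 1‖ ≤ ε} ≤ ENNReal.ofReal (ε * T ^ n)) := by
  refine ⟨?_, fun ε hε => ?_⟩
  · obtain ⟨C, _, hC⟩ := k_AA1 n
    exact ⟨C, fun c p hp => ((hC c).1 p hp).2⟩
  · have r1 := mean2 k_MEAN k_EUL1 n α0 α ε hε
    have r2 := main2 k_MEAN k_EUL1 k_ZE1 n α0 α ε hε
    have r3 : ∀ᶠ T : ℝ in atTop, kap α0 * ∏ j, kap (α j) ≠ 0 →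
        volume {c : Fin n → ℝ | (∀ j, 0 ≤ c j ∧ c j ≤ T) ∧
        ¬ ‖JJ α0 α T c / ((kap α0 * ∏ j, kap (α j)) *
          ((zp1 c * AA1 c * (T * Real.log T ^ (n + 1)) : ℝ) : ℂ)) - 1‖ ≤ ε} ≤ ENNReal.ofReal (ε * T ^ n) := by
      by_cases hne : kap α0 * ∏ j, kap (α j) = 0
      · exact Eventually.of_forall fun T h => absurd hne h
      · filter_upwards [rel2 k_MEAN k_EUL1 k_ZE1 k_LB1 n α0 α hne ε hε] with T h _
        exact h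
    obtain ⟨T₀, hT₀⟩ := eventually_atTop.1 (((r1.and r2).and r3).and (eventually_ge_atTop (0 : ℝ)))
    refine ⟨T₀, fun T hT => ?_⟩
    obtain ⟨⟨⟨q1, q2⟩, q3⟩, q4⟩ := hT₀ T hT
    have hset : {c : Fin n → ℝ | ∀ j, c j ∈ Set.Icc 0 T} = Set.Icc (fun _ => 0) (fun _ => T) := by
      ext c
      simp only [Set.mem_ofPred_eq, Set.mem_Icc, Pi.le_def]
      exact forall_and
    refine ⟨?_, ?_, ?_, ?_⟩
    · rw [hset]
      have hc : Continuous fun c : Fin n → ℝ => ‖JJ α0 α T c / ((T * Real.log T ^ (n + 1) : ℝ) : ℂ) -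
          (kap α0 * ∏ j, kap (α j)) * ((SS1 (Real.log T) c : ℝ) : ℂ)‖ :=
        (((Meanaux.JJ_cont α0 α q4).div_const _).sub (continuous_const.mul
          (Complex.continuous_ofReal.comp (SS1_cont (n := n) (Real.log T))))).norm
      exact hc.continuousOn.integrableOn_compact (μ := volume)
        (isCompact_Icc (a := fun _ : Fin n => (0:ℝ)) (b := fun _ => T))
    · rw [hset]
      rw [mB_eq] at q1
      exact q1
    · simpa only [Set.mem_Icc] using q2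
    · simpa only [Set.mem_Icc] using q3

end Pool.Agent.L0h37.KM
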