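import Pool.Agent.W184.NZ.Up2
import Pool.Agent.W184.NZ.Win
import Pool.Agent.N879.PZ.M4l
import Pool.Agent.N879.PZ.Afx
import Pool.Agent.N879.PZ.Crd
import Pool.Agent.N879.PZ.Lt

set_option autoImplicit false

/-! The second moment of zeta: `∫_0^{2T} |ζ(1/2+iu)|² du ≤ C T log T` for `T ≥ 2`. -/

namespace Pool.Agent.L0h37.KM

open Filter Topology MeasureTheory Complex
open Pool.Agent.Y969.GP (ff)
open Pool.Agent.H306R2.SM (om cl Yf)
open Pool.Agent.H262R4.TM (Rng Ck)
open Pool.Agent.W184.NZ (wz Zm Mn mh TC TC_ev mono_moment win wz_nonneg)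

theorem ff_cl (u : ℝ) : ff u = ‖riemannZeta (cl u)‖ ^ 2 := by
  unfold ff cl
  rw [mul_comm I (u : ℂ)]

theorem ff_cont0 : Continuous ff := by
  unfold ff
  rw [continuous_iff_continuousAt]
  intro t
  have h1 : (1 / 2 + I * (t : ℂ)) ≠ 1 := by
    intro h
    have := congrArg Complex.re h
    simp at this
  refine ContinuousAt.pow (ContinuousAt.norm ?_) 2
  exact ContinuousAt.comp (g := riemannZeta) (f := fun t : ℝ => 1 / 2 + I * (t : ℂ))
    (differentiableAt_riemannZeta h1).continuousAt (by fun_prop)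

theorem sm_win : ∀ᶠ T : ℝ in atTop, ∫ t in (T ^ ((3:ℝ)/4))..T, ff t ≤ 160 * (T * Real.log T) := by
  obtain ⟨η, hη, hm⟩ := mono_moment
  obtain ⟨Y0, hY0⟩ := eventually_atTop.1 hm
  have hbig : ∀ᶠ T : ℝ in atTop, 2 * max Y0 1 ≤ T ^ ((3:ℝ)/4) :=
    (tendsto_rpow_atTop (by norm_num)).eventually_ge_atTop _
  filter_upwards [TC_ev 1 1 1, hbig, eventually_ge_atTop 3, Real.tendsto_log_atTop.eventually_ge_atTop 2]
    with T hTC hT1 hT3 hL
  obtain ⟨k, hk⟩ := hTC
  have hT0 : 0 < T := by linarith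
  have hA : T ^ ((3:ℝ)/4) ≤ T := by
    calc T ^ ((3:ℝ)/4) ≤ T ^ (1:ℝ) := Real.rpow_le_rpow_of_exponent_le (by linarith) (by norm_num)
      _ = T := Real.rpow_one T
  have hw := win (g := fun _ => 1) continuous_const (fun _ => zero_le_one) (C := 1) (fun _ => by simp) hk.k8
    (A := T ^ ((3:ℝ)/4)) (T := T) (S := 10 * Real.log T) (by positivity) hA (by positivity) (by
      intro x hx
      have hx1 : max Y0 1 ≤ x := by
        have := hx.1
        linarith
      have hxY : Y0 ≤ x := (le_max_left _ _).trans hx1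
      have hx2 : 1 ≤ x := (le_max_right _ _).trans hx1
      have h1 := hY0 x hxY k (hk.rng x hx) (1, 1) one_ne_zero one_ne_zero
        (by simpa using Real.one_le_rpow hx2 (by norm_num)) (by simpa using Real.one_le_rpow hx2 (by norm_num))
      have h2 := hk.yf x hx
      have e1 : Zm k x (1, 1) = ∫ t in Set.Ioi (0:ℝ), wz k x t * 1 := by
        unfold Zm
        refine setIntegral_congr_fun measurableSet_Ioi fun t _ => ?_
        have : mh t (1, 1) = 1 := by
          rw [Pool.Agent.W184.NZ.mh_eq t 1 one_ne_zero]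
          simp
        rw [this]
        simp
      have e2 : Mn k x (1, 1) = Real.log (Yf k x) + Ck k := by
        unfold Mn Pool.Agent.W184.NZ.w1 Pool.Agent.W184.NZ.wl Pool.Agent.W184.NZ.w1
        simp
      rw [e1, e2] at h1
      have h3 : x ^ (-η) ≤ 1 := Real.rpow_le_one_of_one_le_of_nonpos hx2 (by linarith)
      have h4 := abs_le.1 h1
      have h5 := abs_le.1 h2
      linarith [h4.2, h5.2])
  have e3 : (∫ t in (T ^ ((3:ℝ)/4))..T, ff t) = ∫ t in (T ^ ((3:ℝ)/4))..T, ‖riemannZeta (cl t)‖ ^ 2 * 1 := by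
    refine intervalIntegral.integral_congr fun t _ => ?_
    simp only [mul_one]
    exact ff_cl t
  rw [e3]
  refine hw.trans (le_of_eq (by ring))

theorem sm_low : ∀ᶠ T : ℝ in atTop, ∫ t in (0:ℝ)..(T ^ ((3:ℝ)/4)), ff t ≤ T * Real.log T := by
  obtain ⟨C, A, hC, h4⟩ := Pool.Agent.N879.PZ.t_M4L Pool.Agent.N879.PZ.t_AFX Pool.Agent.N879.PZ.t_CRD
    Pool.Agent.N879.PZ.t_LT
  have hd : ∀ᶠ T : ℝ in atTop, C * Real.log T ^ A ≤ T ^ (1 / 4 : ℝ) := by
    have h1 := (isLittleO_log_rpow_rpow_atTop (A : ℝ) (show (0:ℝ) < 1 / 4 by norm_num)).def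
      (show (0:ℝ) < 1 / C by positivity)
    filter_upwards [h1, eventually_ge_atTop 3, Real.tendsto_log_atTop.eventually_ge_atTop 1] with T h2 hT3 hL
    rw [Real.norm_of_nonneg (by positivity), Real.norm_of_nonneg (by positivity), Real.rpow_natCast] at h2
    have := mul_le_mul_of_nonneg_left h2 hC.le
    calc C * Real.log T ^ A ≤ C * (1 / C * T ^ (1 / 4 : ℝ)) := this
      _ = T ^ (1 / 4 : ℝ) := by field_simp
  have hb : ∀ᶠ T : ℝ in atTop, 3 ≤ T ^ ((3:ℝ)/4) := (tendsto_rpow_atTop (by norm_num)).eventually_ge_atTop _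
  filter_upwards [hd, hb, eventually_ge_atTop 3, Real.tendsto_log_atTop.eventually_ge_atTop 1] with T hd hb hT3 hL
  have hT0 : 0 < T := by linarith
  obtain ⟨a, ha⟩ : ∃ a, a = T ^ ((3:ℝ)/4) := ⟨_, rfl⟩
  rw [← ha] at hb ⊢
  have ha0 : 0 < a := by linarith
  have hla : Real.log a ≤ Real.log T := by
    rw [ha, Real.log_rpow hT0]
    nlinarith
  have hla0 : 0 ≤ Real.log a := Real.log_nonneg (by linarith)
  have h5 := h4 a hb
  -- pointwise `ff ≤ (ff^2/s + s)/2` with `s = T^(1/4)`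
  obtain ⟨s, hs⟩ : ∃ s, s = T ^ (1 / 4 : ℝ) := ⟨_, rfl⟩
  have hs0 : 0 < s := by rw [hs]; positivity
  have has : a * s = T := by
    rw [ha, hs, ← Real.rpow_add hT0]
    norm_num
  have h6 : ∫ t in (0:ℝ)..a, ff t ≤ ∫ t in (0:ℝ)..a, (s⁻¹ / 2 * ff t ^ 2 + s / 2) := by
    refine intervalIntegral.integral_mono_on ha0.le (ff_cont0.intervalIntegrable _ _)
      (((continuous_const.mul (ff_cont0.pow 2)).add continuous_const).intervalIntegrable _ _) fun t _ => ?_
    have h7 : 0 ≤ s⁻¹ / 2 * (ff t - s) ^ 2 := by positivity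
    have h8 : s⁻¹ / 2 * (ff t - s) ^ 2 = s⁻¹ / 2 * ff t ^ 2 + s / 2 - ff t := by
      field_simp
      ring
    linarith
  have i1 : IntervalIntegrable (fun t : ℝ => s⁻¹ / 2 * ff t ^ 2) volume 0 a :=
    (continuous_const.mul (ff_cont0.pow 2)).intervalIntegrable _ _
  have i2 : IntervalIntegrable (fun _ : ℝ => s / 2) volume 0 a := continuous_const.intervalIntegrable _ _
  rw [intervalIntegral.integral_add i1 i2, intervalIntegral.integral_const_mul, intervalIntegral.integral_const,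
    smul_eq_mul, sub_zero] at h6
  have h9 : s⁻¹ / 2 * ∫ t in (0:ℝ)..a, ff t ^ 2 ≤ a / 2 := by
    have h10 : C * a * Real.log a ^ A ≤ a * s := by
      calc C * a * Real.log a ^ A ≤ C * a * Real.log T ^ A := by gcongr
        _ = a * (C * Real.log T ^ A) := by ring
        _ ≤ a * s := by rw [hs]; gcongr
    calc s⁻¹ / 2 * ∫ t in (0:ℝ)..a, ff t ^ 2 ≤ s⁻¹ / 2 * (a * s) := by
          exact mul_le_mul_of_nonneg_left (h5.trans h10) (by positivity)
      _ = a / 2 := by field_simp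
  have h11 : a ≤ T := by
    rw [ha]
    calc T ^ ((3:ℝ)/4) ≤ T ^ (1:ℝ) := Real.rpow_le_rpow_of_exponent_le (by linarith) (by norm_num)
      _ = T := Real.rpow_one T
  have h12 : a * (s / 2) = T / 2 := by rw [← has]; ring
  rw [h12] at h6
  nlinarith

theorem ff_ev : ∀ᶠ T : ℝ in atTop, ∫ t in (0:ℝ)..T, ff t ≤ 200 * (T * Real.log T) := by
  filter_upwards [sm_win, sm_low, eventually_ge_atTop 3, Real.tendsto_log_atTop.eventually_ge_atTop 1] with T h1 h2 h3 h4
  rw [← intervalIntegral.integral_add_adjacent_intervals (ff_cont0.intervalIntegrable 0 (T ^ ((3:ℝ)/4)))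
    (ff_cont0.intervalIntegrable _ T)]
  nlinarith

theorem gp_sm : Pool.Agent.Y969.GP.S_SM := by
  obtain ⟨T0, hT0⟩ := eventually_atTop.1 ff_ev
  obtain ⟨K, hK⟩ : ∃ K, K = ∫ u in (0:ℝ)..(max T0 1), ff u := ⟨_, rfl⟩
  have hff0 : ∀ u, 0 ≤ ff u := fun u => by unfold ff; positivity
  have hK0 : 0 ≤ K := by
    rw [hK]
    exact intervalIntegral.integral_nonneg (by positivity) fun u _ => hff0 u
  have hl2 : (1 : ℝ) / 2 < Real.log 2 := by have := Real.log_two_gt_d9; linarith
  refine ⟨800 + K, by linarith, fun T hT => ?_⟩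
  have hlT : Real.log 2 ≤ Real.log T := Real.log_le_log (by norm_num) hT
  have hT00 : 0 < T := by linarith
  rcases le_or_gt T0 (2 * T) with h | h
  · have h1 := hT0 (2 * T) h
    have h2 : Real.log (2 * T) ≤ 2 * Real.log T := by
      rw [Real.log_mul (by norm_num) hT00.ne']
      linarith
    calc ∫ u in (0:ℝ)..(2 * T), ff u ≤ 200 * (2 * T * Real.log (2 * T)) := h1
      _ ≤ 200 * (2 * T * (2 * Real.log T)) := by gcongr
      _ = 800 * T * Real.log T := by ring
      _ ≤ (800 + K) * T * Real.log T := by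
          have : 0 ≤ Real.log T := by linarith
          gcongr
          linarith
  · have h1 : ∫ u in (0:ℝ)..(2 * T), ff u ≤ K := by
      rw [hK]
      refine intervalIntegral.integral_mono_interval le_rfl (by positivity) (h.le.trans (le_max_left _ _))
        (Eventually.of_forall fun u => hff0 u) (ff_cont0.intervalIntegrable _ _)
    have h3 : 1 ≤ T * Real.log T := by nlinarith
    calc ∫ u in (0:ℝ)..(2 * T), ff u ≤ K := h1
      _ = K * 1 := (mul_one K).symm
      _ ≤ K * (T * Real.log T) := by gcongr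
      _ ≤ (800 + K) * (T * Real.log T) := by
          have : 0 ≤ T * Real.log T := by linarith
          gcongr
          linarith
      _ = _ := by ring

end Pool.Agent.L0h37.KM
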