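import Pool.Agent.Helper240.ZU.A1
import Pool.Agent.Helper240.ZU.A2
import Pool.Agent.Helper240.ZU.A3
import Pool.Agent.Y969.GP.Def

set_option autoImplicit false

/-! Mean square of zeta on the vertical lines `Re s = x`, `1/2 ≤ x ≤ 2`:
`∫_1^T |ζ(x+iv)|² dv ≤ C T^(1+κ)`. -/

namespace Pool.Agent.L0h37.KM

open Complex Filter Topology Set MeasureTheory

theorem zl_sq3 (a b c : ℂ) : ‖a + b - c‖ ^ 2 ≤ 3 * (‖a‖ ^ 2 + ‖b‖ ^ 2 + ‖c‖ ^ 2) := by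
  have h1 : ‖a + b - c‖ ≤ ‖a‖ + ‖b‖ + ‖c‖ :=
    (norm_sub_le _ _).trans (add_le_add_left (norm_add_le _ _) _)
  have h2 : ‖a + b - c‖ ^ 2 ≤ (‖a‖ + ‖b‖ + ‖c‖) ^ 2 := pow_le_pow_left₀ (norm_nonneg _) h1 2
  nlinarith [sq_nonneg (‖a‖ - ‖b‖), sq_nonneg (‖b‖ - ‖c‖), sq_nonneg (‖a‖ - ‖c‖)]

theorem zl_pt {x : ℝ} (hx1 : 1 / 2 ≤ x) (hx2 : x ≤ 2) {L : ℕ} (hL : 1 ≤ L) {T : ℝ} (hT : 1 ≤ T)
    {t : ℝ} (ht : t ∈ Ioc 1 T) :
    ‖riemannZeta ((x : ℂ) + t * I)‖ ^ 2 ≤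
      3 * Real.exp 1 * (Real.exp (-(t / T) ^ 2) *
        ‖∑ n ∈ Finset.Ioc 0 L, (n : ℂ) ^ (-((x : ℂ) + t * I))‖ ^ 2) +
      3 * (2 * (L : ℝ)) * (1 + t ^ 2)⁻¹ +
      3 * Real.exp 1 * (5 * T ^ 2) * (Real.exp (-(t / T) ^ 2) *
        ‖∫ u in Ioi (L : ℝ), ((Int.fract u : ℝ) : ℂ) * (u : ℂ) ^ (-((x : ℂ) + t * I) - 1)‖ ^ 2) := by
  have hT0 : 0 < T := by linarith
  have ht1 : 1 < t := ht.1
  have ht2 : t ≤ T := ht.2
  set s : ℂ := (x : ℂ) + t * I with hs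
  have hre : s.re = x := by simp [hs]
  have him : s.im = t := by simp [hs]
  have hs1 : s ≠ 1 := by
    intro h
    have := congrArg Complex.im h
    rw [him, Complex.one_im] at this
    linarith
  have hform := ZU.zeta_formula L hL s (by rw [hre]; linarith) hs1
  set A : ℂ := ∑ n ∈ Finset.Ioc 0 L, (n : ℂ) ^ (-s) with hA
  set J : ℂ := ∫ u in Ioi (L : ℝ), ((Int.fract u : ℝ) : ℂ) * (u : ℂ) ^ (-s - 1) with hJ
  have hDN : ZU.DN L s = A := by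
    have e : Finset.Icc 1 L = Finset.Ioc 0 L := by
      ext a
      simp only [Finset.mem_Icc, Finset.mem_Ioc]
      omega
    unfold ZU.DN
    rw [e]
  rw [hDN] at hform
  have hE : 1 ≤ Real.exp 1 * Real.exp (-(t / T) ^ 2) := by
    rw [← Real.exp_add]
    apply Real.one_le_exp
    have h5 : |t / T| ≤ 1 := by
      rw [abs_div, abs_of_pos hT0, div_le_iff₀ hT0, abs_le]
      constructor <;> linarith
    have h6 : (t / T) ^ 2 ≤ 1 := by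
      rw [← sq_abs]
      nlinarith [abs_nonneg (t / T)]
    linarith
  have hL1 : (1 : ℝ) ≤ L := by exact_mod_cast hL
  have hb : ‖(L : ℂ) ^ (1 - s) / (s - 1)‖ ^ 2 ≤ (2 * (L : ℝ)) * (1 + t ^ 2)⁻¹ := by
    have hL0 : 0 < L := by omega
    rw [norm_div, div_pow, Complex.norm_natCast_cpow_of_pos hL0]
    have h7 : (1 - s).re = 1 - x := by simp [hre]
    have h8 : ‖s - 1‖ ^ 2 = (x - 1) ^ 2 + t ^ 2 := by
      rw [← Complex.normSq_eq_norm_sq, Complex.normSq_apply]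
      simp [hre, him]
      ring
    rw [h7, h8]
    have h9 : ((L : ℝ) ^ (1 - x)) ^ 2 ≤ L := by
      rw [← Real.rpow_natCast, ← Real.rpow_mul (by positivity)]
      calc (L : ℝ) ^ ((1 - x) * ((2 : ℕ) : ℝ)) ≤ (L : ℝ) ^ (1 : ℝ) :=
            Real.rpow_le_rpow_of_exponent_le hL1 (by push_cast; linarith)
        _ = L := Real.rpow_one _
    have h10 : 0 < (x - 1) ^ 2 + t ^ 2 := by nlinarith [sq_nonneg (x - 1)]
    have h11 : 0 < 1 + t ^ 2 := by positivity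
    rw [← div_eq_mul_inv, div_le_div_iff₀ h10 h11]
    have h12 : 1 + t ^ 2 ≤ 2 * ((x - 1) ^ 2 + t ^ 2) := by nlinarith [sq_nonneg (x - 1)]
    calc ((L : ℝ) ^ (1 - x)) ^ 2 * (1 + t ^ 2) ≤ L * (2 * ((x - 1) ^ 2 + t ^ 2)) :=
          mul_le_mul h9 h12 h11.le (by positivity)
      _ = _ := by ring
  have hc : ‖s * J‖ ^ 2 ≤ (5 * T ^ 2) * ‖J‖ ^ 2 := by
    rw [norm_mul, mul_pow]
    have h8 : ‖s‖ ^ 2 = x ^ 2 + t ^ 2 := by
      rw [← Complex.normSq_eq_norm_sq, Complex.normSq_apply, hre, him]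
      ring
    rw [h8]
    have h9 : x ^ 2 ≤ 4 := by nlinarith
    have h10 : t ^ 2 ≤ T ^ 2 := by nlinarith
    have h11 : 1 ≤ T ^ 2 := by nlinarith
    exact mul_le_mul_of_nonneg_right (by linarith) (by positivity)
  have h20 := zl_sq3 A ((L : ℂ) ^ (1 - s) / (s - 1)) (s * J)
  rw [← hform] at h20
  have hA2 : ‖A‖ ^ 2 ≤ Real.exp 1 * (Real.exp (-(t / T) ^ 2) * ‖A‖ ^ 2) := by
    rw [← mul_assoc]
    exact le_mul_of_one_le_left (by positivity) hE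
  have hJ2 : ‖J‖ ^ 2 ≤ Real.exp 1 * (Real.exp (-(t / T) ^ 2) * ‖J‖ ^ 2) := by
    rw [← mul_assoc]
    exact le_mul_of_one_le_left (by positivity) hE
  have hc2 : ‖s * J‖ ^ 2 ≤
      (5 * T ^ 2) * (Real.exp 1 * (Real.exp (-(t / T) ^ 2) * ‖J‖ ^ 2)) :=
    hc.trans (mul_le_mul_of_nonneg_left hJ2 (by positivity))
  calc ‖riemannZeta s‖ ^ 2 ≤ _ := h20
    _ ≤ 3 * (Real.exp 1 * (Real.exp (-(t / T) ^ 2) * ‖A‖ ^ 2) +
        (2 * (L : ℝ)) * (1 + t ^ 2)⁻¹ +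
        (5 * T ^ 2) * (Real.exp 1 * (Real.exp (-(t / T) ^ 2) * ‖J‖ ^ 2))) := by
          linarith
    _ = _ := by ring

theorem zl_bd {x : ℝ} (hx1 : 1 / 2 ≤ x) (hx2 : x ≤ 2) {L : ℕ} (hL : 1 ≤ L) {T : ℝ} (hT : 1 ≤ T) :
    ∫ t in (1 : ℝ)..T, ‖riemannZeta ((x : ℂ) + t * I)‖ ^ 2 ≤
      3 * Real.exp 1 * (√Real.pi * T * (∑ n ∈ Finset.Ioc 0 L, (n : ℝ) ^ (-(2 * x)) +
        (L : ℝ) ^ 2 * Real.exp (-(T ^ 2 / (4 * (L : ℝ) ^ 2))))) +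
      3 * (2 * (L : ℝ)) * Real.pi +
      3 * Real.exp 1 * (5 * T ^ 2) * (2 * Real.pi * ((L : ℝ) ^ (-(2 * x)) / (2 * x))) := by
  have hT0 : 0 < T := by linarith
  have hσ0 : 0 < x := by linarith
  obtain ⟨i1, b1⟩ := ZU.gauss_mv x hσ0.le 0 L T hT0
  obtain ⟨i2, b2⟩ := ZU.planch x hσ0 L hL T hT0
  have i3 : Integrable (fun t : ℝ => (1 + t ^ 2)⁻¹) := integrable_inv_one_add_sq
  have b3 : ∫ t : ℝ, (1 + t ^ 2)⁻¹ = Real.pi := integral_univ_inv_one_add_sq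
  have j1 := i1.const_mul (3 * Real.exp 1)
  have j2 := i2.const_mul (3 * Real.exp 1 * (5 * T ^ 2))
  have j3 := i3.const_mul (3 * (2 * (L : ℝ)))
  have jadd : Integrable (fun t : ℝ => 3 * Real.exp 1 * (Real.exp (-(t / T) ^ 2) *
        ‖∑ n ∈ Finset.Ioc 0 L, (n : ℂ) ^ (-((x : ℂ) + t * I))‖ ^ 2) +
      3 * (2 * (L : ℝ)) * (1 + t ^ 2)⁻¹) := j1.add j3
  have jG := jadd.add j2
  rw [intervalIntegral.integral_of_le (by linarith)]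
  have step1 : ∫ t in Ioc 1 T,
      ‖riemannZeta ((x : ℂ) + t * I)‖ ^ 2 ≤
      ∫ t in Ioc 1 T, (3 * Real.exp 1 * (Real.exp (-(t / T) ^ 2) *
        ‖∑ n ∈ Finset.Ioc 0 L, (n : ℂ) ^ (-((x : ℂ) + t * I))‖ ^ 2) +
      3 * (2 * (L : ℝ)) * (1 + t ^ 2)⁻¹ +
      3 * Real.exp 1 * (5 * T ^ 2) * (Real.exp (-(t / T) ^ 2) *
        ‖∫ u in Ioi (L : ℝ), ((Int.fract u : ℝ) : ℂ) * (u : ℂ) ^ (-((x : ℂ) + t * I) - 1)‖ ^ 2)) := by
    refine integral_mono_of_nonneg (Eventually.of_forall fun t => by positivity)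
      jG.integrableOn ?_
    rw [EventuallyLE, ae_restrict_iff' measurableSet_Ioc]
    exact Eventually.of_forall fun t ht => zl_pt hx1 hx2 hL hT ht
  have step2 : ∫ t in Ioc 1 T, (3 * Real.exp 1 * (Real.exp (-(t / T) ^ 2) *
        ‖∑ n ∈ Finset.Ioc 0 L, (n : ℂ) ^ (-((x : ℂ) + t * I))‖ ^ 2) +
      3 * (2 * (L : ℝ)) * (1 + t ^ 2)⁻¹ +
      3 * Real.exp 1 * (5 * T ^ 2) * (Real.exp (-(t / T) ^ 2) *
        ‖∫ u in Ioi (L : ℝ), ((Int.fract u : ℝ) : ℂ) * (u : ℂ) ^ (-((x : ℂ) + t * I) - 1)‖ ^ 2)) ≤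
      ∫ t, (3 * Real.exp 1 * (Real.exp (-(t / T) ^ 2) *
        ‖∑ n ∈ Finset.Ioc 0 L, (n : ℂ) ^ (-((x : ℂ) + t * I))‖ ^ 2) +
      3 * (2 * (L : ℝ)) * (1 + t ^ 2)⁻¹ +
      3 * Real.exp 1 * (5 * T ^ 2) * (Real.exp (-(t / T) ^ 2) *
        ‖∫ u in Ioi (L : ℝ), ((Int.fract u : ℝ) : ℂ) * (u : ℂ) ^ (-((x : ℂ) + t * I) - 1)‖ ^ 2)) := by
    refine setIntegral_le_integral jG (Eventually.of_forall fun t => ?_)
    simp only [Pi.add_apply, Pi.zero_apply]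
    positivity
  refine (step1.trans step2).trans ?_
  have e1 : ∫ t, (3 * Real.exp 1 * (Real.exp (-(t / T) ^ 2) *
        ‖∑ n ∈ Finset.Ioc 0 L, (n : ℂ) ^ (-((x : ℂ) + t * I))‖ ^ 2) +
      3 * (2 * (L : ℝ)) * (1 + t ^ 2)⁻¹ +
      3 * Real.exp 1 * (5 * T ^ 2) * (Real.exp (-(t / T) ^ 2) *
        ‖∫ u in Ioi (L : ℝ), ((Int.fract u : ℝ) : ℂ) * (u : ℂ) ^ (-((x : ℂ) + t * I) - 1)‖ ^ 2)) =
      3 * Real.exp 1 * (∫ t, (Real.exp (-(t / T) ^ 2) *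
        ‖∑ n ∈ Finset.Ioc 0 L, (n : ℂ) ^ (-((x : ℂ) + t * I))‖ ^ 2)) +
      3 * (2 * (L : ℝ)) * Real.pi +
      3 * Real.exp 1 * (5 * T ^ 2) * (∫ t, (Real.exp (-(t / T) ^ 2) *
        ‖∫ u in Ioi (L : ℝ), ((Int.fract u : ℝ) : ℂ) * (u : ℂ) ^ (-((x : ℂ) + t * I) - 1)‖ ^ 2)) := by
    rw [integral_add jadd j2, integral_add j1 j3, integral_const_mul, integral_const_mul,
      integral_const_mul, b3]
  rw [e1]
  have k1 : (0:ℝ) ≤ 3 * Real.exp 1 := by positivity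
  have k2 : (0:ℝ) ≤ 3 * Real.exp 1 * (5 * T ^ 2) := by positivity
  have m1 := mul_le_mul_of_nonneg_left b1 k1
  have m2 := mul_le_mul_of_nonneg_left b2 k2
  linarith

/-- the sum of `n ^ (-2x)` -/
theorem zl_sum {x κ : ℝ} (hx1 : 1 / 2 ≤ x) (hκ : 0 < κ) {L : ℕ} (hL : 1 ≤ L) :
    ∑ n ∈ Finset.Ioc 0 L, (n : ℝ) ^ (-(2 * x)) ≤ (1 + 1 / κ) * (L : ℝ) ^ κ := by
  have hL1 : (1 : ℝ) ≤ L := by exact_mod_cast hL
  have h1 : ∑ n ∈ Finset.Ioc 0 L, (n : ℝ) ^ (-(2 * x)) ≤ ∑ n ∈ Finset.Icc 1 L, (n : ℝ)⁻¹ := by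
    have e : Finset.Icc 1 L = Finset.Ioc 0 L := by
      ext a
      simp only [Finset.mem_Icc, Finset.mem_Ioc]
      omega
    rw [e]
    refine Finset.sum_le_sum fun n hn => ?_
    have hn1 : (1 : ℝ) ≤ n := by
      have := (Finset.mem_Ioc.1 hn).1
      exact_mod_cast this
    rw [← Real.rpow_neg_one]
    exact Real.rpow_le_rpow_of_exponent_le hn1 (by linarith)
  have h2 : ∑ n ∈ Finset.Icc 1 L, (n : ℝ)⁻¹ ≤ 1 + Real.log L := by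
    have h := harmonic_le_one_add_log L
    rw [harmonic_eq_sum_Icc] at h
    push_cast at h
    exact h
  have h3 : Real.log L ≤ (L : ℝ) ^ κ / κ := Real.log_le_rpow_div (by positivity) hκ
  have h4 : 1 ≤ (L : ℝ) ^ κ := Real.one_le_rpow hL1 hκ.le
  calc _ ≤ 1 + Real.log L := h1.trans h2
    _ ≤ (L : ℝ) ^ κ + (L : ℝ) ^ κ / κ := add_le_add h4 h3
    _ = _ := by ring

theorem zl_main {κ : ℝ} (hκ : 0 < κ) (hκ1 : κ ≤ 1) : ∃ C : ℝ, 0 < C ∧ ∀ x T : ℝ, 1 / 2 ≤ x → x ≤ 2 →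
    1 ≤ T → (∫ v in (1 : ℝ)..T, ‖riemannZeta (x + I * v)‖ ^ 2 ≤ C * T ^ (1 + κ)) := by
  obtain ⟨m, hm⟩ := exists_nat_ge (2 / κ)
  set C2 : ℝ := (m.factorial : ℝ) * 16 ^ m with hC2
  have hC20 : 0 < C2 := by positivity
  set C : ℝ := 3 * Real.exp 1 * (√Real.pi * ((1 + 1 / κ) * 2 + 4 * C2)) + 12 * Real.pi +
    3 * Real.exp 1 * 5 * (2 * Real.pi) with hC
  refine ⟨C, by positivity, fun x T hx1 hx2 hT => ?_⟩
  have hT0 : 0 < T := by linarith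
  set y : ℝ := T ^ (1 - κ / 2) with hy
  have hy1 : 1 ≤ y := Real.one_le_rpow hT (by linarith)
  have hyT : y ≤ T := by
    calc y ≤ T ^ (1 : ℝ) := Real.rpow_le_rpow_of_exponent_le hT (by linarith)
      _ = T := Real.rpow_one T
  set L : ℕ := ⌈y⌉₊ with hLd
  have hLy : y ≤ L := Nat.le_ceil y
  have hL1r : (1 : ℝ) ≤ L := hy1.trans hLy
  have hL1 : 1 ≤ L := by exact_mod_cast hL1r
  have hL2 : (L : ℝ) ≤ 2 * y := by
    have := (Nat.ceil_lt_add_one (by linarith : 0 ≤ y)).le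
    linarith
  have hL0 : (0 : ℝ) < L := by linarith
  have hTk : 1 ≤ T ^ κ := Real.one_le_rpow hT hκ.le
  have hT1k : T ^ (1 + κ) = T * T ^ κ := by rw [Real.rpow_add hT0, Real.rpow_one]
  have e0 : ∀ v : ℝ, ‖riemannZeta (x + I * v)‖ ^ 2 = ‖riemannZeta ((x : ℂ) + v * I)‖ ^ 2 := by
    intro v
    rw [mul_comm]
  simp only [e0]
  refine (zl_bd hx1 hx2 hL1 hT).trans ?_
  -- first term
  have a1 : ∑ n ∈ Finset.Ioc 0 L, (n : ℝ) ^ (-(2 * x)) ≤ (1 + 1 / κ) * 2 * T ^ κ := by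
    refine (zl_sum hx1 hκ hL1).trans ?_
    have h1 : (L : ℝ) ^ κ ≤ 2 * T ^ κ := by
      calc (L : ℝ) ^ κ ≤ (2 * T) ^ κ := Real.rpow_le_rpow hL0.le (by linarith) hκ.le
        _ = 2 ^ κ * T ^ κ := Real.mul_rpow (by norm_num) hT0.le
        _ ≤ 2 * T ^ κ := by
          refine mul_le_mul_of_nonneg_right ?_ (by positivity)
          calc (2 : ℝ) ^ κ ≤ 2 ^ (1 : ℝ) := Real.rpow_le_rpow_of_exponent_le (by norm_num) hκ1
            _ = 2 := Real.rpow_one 2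
    calc (1 + 1 / κ) * (L : ℝ) ^ κ ≤ (1 + 1 / κ) * (2 * T ^ κ) :=
          mul_le_mul_of_nonneg_left h1 (by positivity)
      _ = _ := by ring
  have a2 : (L : ℝ) ^ 2 * Real.exp (-(T ^ 2 / (4 * (L : ℝ) ^ 2))) ≤ 4 * C2 * T ^ κ := by
    set z : ℝ := T ^ κ / 16 with hz
    have hz0 : 0 ≤ z := by positivity
    have hzle : z ≤ T ^ 2 / (4 * (L : ℝ) ^ 2) := by
      rw [le_div_iff₀ (by positivity)]
      have h1 : (L : ℝ) ^ 2 ≤ 4 * y ^ 2 := by nlinarith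
      have h2 : T ^ κ * y ^ 2 = T ^ 2 := by
        rw [hy, ← Real.rpow_natCast (T ^ (1 - κ / 2)), ← Real.rpow_mul hT0.le, ← Real.rpow_add hT0,
          ← Real.rpow_natCast T]
        congr 1
        push_cast
        ring
      calc z * (4 * (L : ℝ) ^ 2) ≤ z * (4 * (4 * y ^ 2)) := by gcongr
        _ = T ^ κ * y ^ 2 := by rw [hz]; ring
        _ = T ^ 2 := h2
    have h3 : Real.exp (-(T ^ 2 / (4 * (L : ℝ) ^ 2))) ≤ Real.exp (-z) :=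
      Real.exp_le_exp.2 (by linarith)
    have h4 : z ^ m / m.factorial ≤ Real.exp z := Real.pow_div_factorial_le_exp z hz0 m
    have h5 : T ^ 2 ≤ (T ^ κ) ^ m := by
      rw [← Real.rpow_natCast (T ^ κ), ← Real.rpow_mul hT0.le, ← Real.rpow_natCast T]
      refine Real.rpow_le_rpow_of_exponent_le hT ?_
      push_cast
      rw [div_le_iff₀ hκ] at hm
      linarith
    have h6 : T ^ 2 * Real.exp (-z) ≤ C2 := by
      rw [Real.exp_neg, ← div_eq_mul_inv, div_le_iff₀ (Real.exp_pos z)]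
      calc T ^ 2 ≤ (T ^ κ) ^ m := h5
        _ = C2 * (z ^ m / m.factorial) := by
          rw [hC2, hz, div_pow]
          field_simp
        _ ≤ C2 * Real.exp z := mul_le_mul_of_nonneg_left h4 hC20.le
    have h7 : (L : ℝ) ^ 2 ≤ 4 * T ^ 2 := by nlinarith
    calc (L : ℝ) ^ 2 * Real.exp (-(T ^ 2 / (4 * (L : ℝ) ^ 2))) ≤ 4 * T ^ 2 * Real.exp (-z) :=
          mul_le_mul h7 h3 (Real.exp_pos _).le (by positivity)
      _ = 4 * (T ^ 2 * Real.exp (-z)) := by ring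
      _ ≤ 4 * C2 := by linarith
      _ ≤ 4 * C2 * T ^ κ := le_mul_of_one_le_right (by positivity) hTk
  have a3 : (L : ℝ) ≤ 2 * (T * T ^ κ) := by
    have : T ≤ T * T ^ κ := le_mul_of_one_le_right hT0.le hTk
    linarith
  have a4 : T ^ 2 * ((L : ℝ) ^ (-(2 * x)) / (2 * x)) ≤ T * T ^ κ := by
    have h1 : (L : ℝ) ^ (-(2 * x)) / (2 * x) ≤ (L : ℝ)⁻¹ := by
      have h2 : (L : ℝ) ^ (-(2 * x)) ≤ (L : ℝ)⁻¹ := by
        rw [← Real.rpow_neg_one]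
        exact Real.rpow_le_rpow_of_exponent_le hL1r (by linarith)
      exact (div_le_self (by positivity) (by linarith)).trans h2
    have h3 : (L : ℝ)⁻¹ ≤ y⁻¹ := inv_anti₀ (by linarith) hLy
    calc T ^ 2 * ((L : ℝ) ^ (-(2 * x)) / (2 * x)) ≤ T ^ 2 * y⁻¹ :=
          mul_le_mul_of_nonneg_left (h1.trans h3) (by positivity)
      _ = T ^ (1 + κ / 2) := by
        rw [hy, ← Real.rpow_neg hT0.le, ← Real.rpow_natCast T, ← Real.rpow_add hT0]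
        congr 1
        push_cast
        ring
      _ ≤ T ^ (1 + κ) := Real.rpow_le_rpow_of_exponent_le hT (by linarith)
      _ = _ := hT1k
  rw [hT1k]
  have b1 : 3 * Real.exp 1 * (√Real.pi * T * (∑ n ∈ Finset.Ioc 0 L, (n : ℝ) ^ (-(2 * x)) +
        (L : ℝ) ^ 2 * Real.exp (-(T ^ 2 / (4 * (L : ℝ) ^ 2))))) ≤
      3 * Real.exp 1 * (√Real.pi * T * ((1 + 1 / κ) * 2 * T ^ κ + 4 * C2 * T ^ κ)) := by
    gcongr
  have b2 : 3 * (2 * (L : ℝ)) * Real.pi ≤ 3 * (2 * (2 * (T * T ^ κ))) * Real.pi := by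
    gcongr
  have b3 : 3 * Real.exp 1 * (5 * T ^ 2) * (2 * Real.pi * ((L : ℝ) ^ (-(2 * x)) / (2 * x))) ≤
      3 * Real.exp 1 * 5 * (2 * Real.pi) * (T * T ^ κ) := by
    calc _ = 3 * Real.exp 1 * 5 * (2 * Real.pi) * (T ^ 2 * ((L : ℝ) ^ (-(2 * x)) / (2 * x))) := by
          ring
      _ ≤ _ := mul_le_mul_of_nonneg_left a4 (by positivity)
  refine (add_le_add (add_le_add b1 b2) b3).trans (le_of_eq ?_)
  rw [hC]
  ring

theorem gp_zl : Pool.Agent.Y969.GP.S_ZL := by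
  intro κ hκ
  obtain ⟨C, hC, h⟩ := zl_main (κ := min κ 1) (by positivity) (min_le_right _ _)
  refine ⟨C, hC, fun x T hx1 hx2 hT => (h x T hx1 hx2 hT).trans ?_⟩
  refine mul_le_mul_of_nonneg_left ?_ hC.le
  refine Real.rpow_le_rpow_of_exponent_le hT ?_
  have := min_le_left κ 1
  linarith

end Pool.Agent.L0h37.KM
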