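import Pool.Agent.TH612.GS.Asm6
import Pool.Agent.TH612.GS.GF1
import Pool.Agent.TH612.GS.GF3
import Pool.Agent.TH612.GS.GF4
import Pool.Agent.TH612.GS.Z
import Pool.Agent.TH612.GS.Inv
import Pool.Agent.TH521.GS.Rep
import Pool.Agent.TH889.GS.OP
import Pool.Agent.TH503.GS.MVD
import Pool.Agent.TH928.GS.MV
import Pool.Agent.TH264.GS.AP
import Pool.Agent.TH367.GS.SS
import Pool.Agent.TH448.GS.FL2
import Pool.Agent.TH347.GS.A4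
import Pool.Agent.TH757.GS.CONT
import Pool.Agent.TH753.GS.GL2
import Pool.Agent.TH228.GS.ZM
import Pool.Agent.TH811.GS.One
import Pool.Agent.TH805.GS.SW
import Pool.Agent.TH406.GS.CHI
import Pool.Agent.TH767.GS.NS
import Pool.Agent.TH509.GS.DIAG
import Pool.Agent.TH113.GF.A5
import Pool.Agent.TH740.GF.GL3
import Pool.Agent.TH740.GF.VQ
import Pool.Agent.TH928.GF.ZN
import Pool.Agent.TH521.GF.SW3
import Pool.Agent.TH440.GF.ZA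
import Pool.Agent.TH637.GF.NA
import Pool.Agent.TH406.GF.REPA
import Pool.Agent.TH236.GF.OQ
import Pool.Agent.TH321.GF.AQ
import Pool.Agent.TH263.GF.A2
import Pool.Agent.TH738.GF.TMV
import Pool.Agent.TH576.GF.TL
import Pool.Agent.TH751.GF.MVB
import Pool.Agent.TH914.GF.TW
import Pool.Agent.TH778.GF.ST
import Pool.Agent.TH445.GF.DS
import Pool.Agent.TH479.GF.HD
import Pool.Agent.L0h37.KM.SM2

set_option autoImplicit false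

/-! Assembly of the start projects TH612/GS and TH612/GF with the second moment `gp_sm`. -/

namespace Pool.Agent.L0h37.KM

open Pool.Agent

theorem gs_sm : TH612.GS.S_SM := by
  obtain ⟨C, hC, h⟩ := gp_sm
  exact ⟨C, 2, hC, le_rfl, fun T hT => h T hT⟩

theorem gs_one : TH612.GS.S_ONE := TH811.GS.t_ONE TH928.GS.t_MV

theorem gs_main (k : ℕ) : ∃ δ : ℝ, 0 < δ ∧ ∃ T₀ : ℝ, ∀ T : ℝ, T₀ ≤ T →
    TH612.GS.mP (Fin k ⊕ Fin k) T (TH612.GS.Bad k T (T ^ (1 - δ))) ≤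
      ENNReal.ofReal (T ^ (2 * k - δ : ℝ)) := by
  have hMV := TH928.GS.t_MV
  have hMVD := TH503.GS.t_MVD hMV
  have hSP := TH503.GS.t_SP hMV
  have hOP := TH889.GS.t_OP hMV hMVD TH264.GS.t_AP
  have hZ1 := TH612.GS.t_Z1 TH521.GS.t_REP hOP gs_sm hSP
  have hZ2 := TH612.GS.t_Z2 TH521.GS.t_REP2 gs_sm
  have hSS := TH367.GS.t_SS TH448.GS.t_FL2
  have hA4 := TH347.GS.t_A4 TH757.GS.t_CONT (TH753.GS.t_GL2 TH448.GS.t_FL2)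
  exact TH612.GS.main hZ1 hZ2 hSS hA4 (TH228.GS.t_ZM gs_one) (TH805.GS.t_SW TH406.GS.t_CHI) gs_one
    TH767.GS.t_NS TH509.GS.t_DIAG TH612.GS.t_INV k

theorem gf_w : TH612.GS.S_W := by
  have hMV := TH928.GS.t_MV
  exact TH612.GS.t_W TH406.GF.t_REPA (TH236.GF.t_OQ TH321.GF.t_AQ) gs_sm (TH740.GF.t_VQ hMV)
    TH263.GF.t_A2 (TH738.GF.t_TMV hMV) (TH576.GF.t_TL TH263.GF.t_A2 TH751.GF.t_MVB)
    (TH914.GF.t_TW TH778.GF.t_ST TH445.GF.t_DS) TH479.GF.t_HD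

theorem gf_main (k : ℕ) (hk : k ≤ 4) : ∃ δ : ℝ, 0 < δ ∧ ∀ α : Fin k → ℝ, Function.Injective α →
      ∃ T₀ : ℝ, ∀ T : ℝ, T₀ ≤ T → ∀ S : ℝ, 0 ≤ S → S ≤ T →
      TH612.GS.mP (Fin k) T (TH612.GS.BadA α T S (T ^ (1 - δ))) ≤ ENNReal.ofReal (T ^ (k - δ : ℝ)) :=
  TH612.GS.mainA gf_w (TH113.GF.t_A5 TH757.GS.t_CONT (TH740.GF.t_GL3 TH928.GS.t_MV))
    (TH928.GF.t_ZN gs_one) (TH521.GF.t_SW3 TH406.GS.t_CHI) (TH440.GF.t_ZA gs_one) TH637.GF.t_NA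
    TH612.GS.t_INV k hk

theorem gf_mainD (k : ℕ) (hk : k ≤ 4) : ∃ δ : ℝ, 0 < δ ∧ ∀ α : Fin k → ℝ,
      ∃ T₀ : ℝ, ∀ T : ℝ, T₀ ≤ T → ∀ S : ℝ, 0 ≤ S → S ≤ T →
      TH612.GS.mP (Fin k) T (TH612.GS.BadD α T S (T ^ (1 - δ))) ≤ ENNReal.ofReal (T ^ (k - δ : ℝ)) :=
  TH612.GS.mainD gf_w (TH113.GF.t_A5 TH757.GS.t_CONT (TH740.GF.t_GL3 TH928.GS.t_MV))
    (TH928.GF.t_ZN gs_one) TH637.GF.t_NA k hk

end Pool.Agent.L0h37.KM
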