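import Pool.Agent.L0h37.KM.TELX
import Pool.Agent.L0h37.KM.SM2
import Pool.Agent.N879.PZ.Asm1
import Pool.Agent.Y969.SM.Bas

set_option autoImplicit false

/-! The statement LED of the start project N879/PZ (leading term of the model). -/

namespace Pool.Agent.L0h37.KM

open Complex Filter Topology MeasureTheory Set
open Pool.Agent.Y969.GP (ff ht lam FR mB)
open Pool.Agent.Y969.SM (mB_int)
open Pool.Agent.N879.PZ

namespace LEDaux

lemma winL1 {φ : ℝ → ℂ} (hφ : Continuous φ) {C U X : ℝ} (hC : 0 < C) (hU : 0 < U) (hX : 0 < X)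
    (h : ∫ c in (0 : ℝ)..U, ‖φ c‖ ^ 2 ≤ C * U * X ^ 2) : ∫ c in (0 : ℝ)..U, ‖φ c‖ ≤ √C * U * X := by
  obtain ⟨m, hm⟩ : ∃ m, m = √C * X := ⟨_, rfl⟩
  have hm0 : 0 < m := by rw [hm]; positivity
  have hm2 : m ^ 2 = C * X ^ 2 := by rw [hm, mul_pow, Real.sq_sqrt hC.le]
  have i1 : IntervalIntegrable (fun u : ℝ => m⁻¹ / 2 * ‖φ u‖ ^ 2) volume 0 U :=
    (continuous_const.mul (hφ.norm.pow 2)).intervalIntegrable _ _
  have i2 : IntervalIntegrable (fun _ : ℝ => m / 2) volume 0 U := continuous_const.intervalIntegrable _ _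
  have h6 : ∫ u in (0 : ℝ)..U, ‖φ u‖ ≤ ∫ u in (0 : ℝ)..U, (m⁻¹ / 2 * ‖φ u‖ ^ 2 + m / 2) := by
    refine intervalIntegral.integral_mono_on hU.le (hφ.norm.intervalIntegrable _ _) (i1.add i2) fun t _ => ?_
    have h7 : 0 ≤ m⁻¹ / 2 * (‖φ t‖ - m) ^ 2 := by positivity
    have h8 : m⁻¹ / 2 * (‖φ t‖ - m) ^ 2 = m⁻¹ / 2 * ‖φ t‖ ^ 2 + m / 2 - ‖φ t‖ := by
      field_simp
      ring
    linarith
  rw [intervalIntegral.integral_add i1 i2, intervalIntegral.integral_const_mul, intervalIntegral.integral_const,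
    smul_eq_mul, sub_zero] at h6
  calc ∫ u in (0 : ℝ)..U, ‖φ u‖ ≤ m⁻¹ / 2 * (∫ u in (0 : ℝ)..U, ‖φ u‖ ^ 2) + U * (m / 2) := h6
    _ ≤ m⁻¹ / 2 * (C * U * X ^ 2) + U * (m / 2) := by gcongr
    _ = m⁻¹ / 2 * (m ^ 2 * U) + U * (m / 2) := by rw [hm2]; ring
    _ = m * U := by field_simp; ring
    _ = √C * U * X := by rw [hm]; ring

end LEDaux

open LEDaux TELXaux in
theorem t_LED (hWIN : S_WIN) (hSM : Pool.Agent.Y969.GP.S_SM) : S_LED := by
  intro n
  obtain ⟨Cw, hCw, hWIN⟩ := hWIN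
  obtain ⟨Cs, hCs, hSM⟩ := hSM
  refine ⟨n * (Cs * √Cw ^ n) + 1, by positivity, ?_⟩
  intro T U a N hP
  have hP' := hP
  obtain ⟨hT, hU, hUT, haL, haT, hN1, hN2, hNU⟩ := hP'
  have hT0 : 0 < T := by linarith
  have hU0 : 0 < U := by linarith
  have hL0 : 0 < Real.log T := Real.log_pos (by linarith)
  have ha1 : 0 < a := lt_of_lt_of_le (by positivity) haL
  have hN1' : (1 : ℝ) ≤ N := by exact_mod_cast hN1
  have hlN : 0 ≤ Real.log N := Real.log_nonneg hN1'
  have hlTa : 0 ≤ Real.log (T / a) := Real.log_nonneg (by rw [le_div_iff₀ ha1]; linarith)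
  obtain ⟨L, hL⟩ : ∃ L, L = Real.log T := ⟨_, rfl⟩
  obtain ⟨s, hs⟩ : ∃ s, s = 1 + Real.log N := ⟨_, rfl⟩
  obtain ⟨l, hl⟩ : ∃ l, l = 1 + Real.log (T / a) := ⟨_, rfl⟩
  rw [← hL] at hL0 ⊢
  rw [← hs, ← hl]
  have hs1 : 1 ≤ s := by rw [hs]; linarith
  have hl1 : 1 ≤ l := by rw [hl]; linarith
  have hs0 : 0 < s := by linarith
  have hl0 : 0 < l := by linarith
  obtain ⟨W, hW⟩ : ∃ W, W = √Cw * U * (s ^ 2 * L) := ⟨_, rfl⟩
  obtain ⟨D, hD⟩ : ∃ D, D = √Cw * U * (s ^ 2 * l) := ⟨_, rfl⟩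
  have hW0 : 0 ≤ W := by rw [hW]; positivity
  have hD0 : 0 ≤ D := by rw [hD]; positivity
  have cD := DN_cont N
  have cP : Continuous fun u : ℝ => (L : ℂ) * P1 N u := continuous_const.mul (P1_cont N)
  have hff := ffC_cont
  have w1 : ∀ t : ℝ, a ≤ t → t ≤ T → ∫ c in (0 : ℝ)..U, ‖DN N (t + c)‖ ≤ W := by
    intro t h1 h2
    rw [hW]
    refine winL1 (φ := fun c => DN N (t + c)) (cD.comp (by fun_prop)) hCw hU0 (by positivity) ?_
    refine (hWIN T U a N hP t h1 h2).2.1.trans (le_of_eq ?_)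
    rw [hL, hs]
    ring
  have w2 : ∀ t : ℝ, a ≤ t → t ≤ T → ∫ c in (0 : ℝ)..U, ‖(L : ℂ) * P1 N (t + c)‖ ≤ W := by
    intro t h1 h2
    rw [hW]
    refine winL1 (φ := fun c => (L : ℂ) * P1 N (t + c)) (cP.comp (by fun_prop)) hCw hU0 (by positivity) ?_
    have e1 : ∀ c : ℝ, ‖(L : ℂ) * P1 N (t + c)‖ ^ 2 = L ^ 2 * ‖P1 N (t + c)‖ ^ 2 := by
      intro c
      rw [norm_mul, mul_pow, Complex.norm_real, Real.norm_eq_abs, sq_abs]
    simp only [e1]
    rw [intervalIntegral.integral_const_mul]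
    have h3 := (hWIN T U a N hP t h1 h2).1
    rw [← hs] at h3
    calc L ^ 2 * ∫ c in (0 : ℝ)..U, ‖P1 N (t + c)‖ ^ 2 ≤ L ^ 2 * (Cw * U * s ^ 2) := by gcongr
      _ = Cw * U * (s ^ 2 * 1 * L ^ 2) := by ring
      _ ≤ Cw * U * (s ^ 2 * s ^ 2 * L ^ 2) := by
          have : (1 : ℝ) ≤ s ^ 2 := one_le_pow₀ hs1
          gcongr
      _ = _ := by ring
  have w3 : ∀ t : ℝ, a ≤ t → t ≤ T → ∫ c in (0 : ℝ)..U, ‖DN N (t + c) - (L : ℂ) * P1 N (t + c)‖ ≤ D := by
    intro t h1 h2
    rw [hD]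
    refine winL1 (φ := fun c => DN N (t + c) - (L : ℂ) * P1 N (t + c))
      ((cD.comp (by fun_prop)).sub (cP.comp (by fun_prop))) hCw hU0 (by positivity) ?_
    have h3 := (hWIN T U a N hP t h1 h2).2.2
    rw [← hs, ← hl, ← hL] at h3
    refine h3.trans (le_of_eq ?_)
    ring
  -- the telescoping
  let f : Fin n → ℝ → ℂ := fun _ => DN N
  let g : Fin n → ℝ → ℂ := fun _ u => (L : ℂ) * P1 N u
  let d : ℝ → ℂ := fun u => DN N u - (L : ℂ) * P1 N u
  have cf : ∀ j, Continuous (f j) := fun _ => cD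
  have cg : ∀ j, Continuous (g j) := fun _ => cP
  have cd : Continuous d := cD.sub cP
  have hint : ∀ (j : Fin n) (c : Fin n → ℝ),
      IntegrableOn (fun t => ((ff t : ℝ) : ℂ) * ∏ i, uu f g d j i (t + c i)) (Icc a T) := fun j c =>
    prod_int (a := a) (b := T) subset_rfl (uu f g d j) (fun i => uu_cont cf cg cd j i) c
  have key : ∀ c : Fin n → ℝ, (∫ t in Icc a T, ((ff t : ℝ) : ℂ) * (∏ j : Fin n, DN N (t + c j) -
      ∏ j : Fin n, ((L : ℂ) * P1 N (t + c j)))) =
      ∑ j, ∫ t in Icc a T, ((ff t : ℝ) : ℂ) * ∏ i, uu f g d j i (t + c i) := by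
    intro c
    rw [← integral_finset_sum _ fun j _ => hint j c]
    refine integral_congr_ae (Eventually.of_forall fun t => ?_)
    simp only
    have h1 := tele (fun j => f j (t + c j)) (fun j => g j (t + c j))
    have h2 : (∏ j : Fin n, DN N (t + c j) - ∏ j : Fin n, ((L : ℂ) * P1 N (t + c j))) =
      ∏ j, f j (t + c j) - ∏ j, g j (t + c j) := rfl
    rw [h2, h1, Finset.mul_sum]
    refine Finset.sum_congr rfl fun j _ => ?_
    rw [uu_prod]
    have h3 : ∏ i ∈ Finset.univ.erase j, (if i < j then g i (t + c i) else f i (t + c i)) =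
        ∏ i ∈ Finset.univ.erase j, kk f g j i (t + c i) := by
      refine Finset.prod_congr rfl fun i _ => ?_
      unfold kk
      split_ifs <;> rfl
    rw [h3]
  have hcont : ∀ j : Fin n, Continuous fun c : Fin n → ℝ =>
      ∫ t in Icc a T, ((ff t : ℝ) : ℂ) * ∏ i, uu f g d j i (t + c i) := fun j =>
    t_CTG n a T (Icc a T) _ _ haT measurableSet_Icc subset_rfl (Wb_ff a T) fun i => uu_cont cf cg cd j i
  have hffI : ∫ t in Icc a T, ‖((ff t : ℝ) : ℂ)‖ ≤ Cs * T * L := by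
    have e0 : ∀ t : ℝ, ‖((ff t : ℝ) : ℂ)‖ = ff t := by
      intro t
      rw [Complex.norm_real, Real.norm_eq_abs, abs_of_nonneg (by unfold Pool.Agent.Y969.GP.ff; positivity)]
    simp only [e0]
    have h1 := hSM T (by linarith)
    rw [← hL] at h1
    refine le_trans ?_ h1
    rw [integral_Icc_eq_integral_Ioc, ← intervalIntegral.integral_of_le haT]
    exact intervalIntegral.integral_mono_interval ha1.le haT (by linarith)
      (Eventually.of_forall fun t => by unfold Pool.Agent.Y969.GP.ff; positivity) (ff_cont0.intervalIntegrable _ _)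
  have hone : ∀ j : Fin n, ∫ c, ‖∫ t in Icc a T, ((ff t : ℝ) : ℂ) * ∏ i, uu f g d j i (t + c i)‖ ∂(mB n 0 U) ≤
      Cs * T * L * (D * W ^ (n - 1)) := by
    intro j
    refine (t_FUB n a T U (Icc a T) _ _ haT hU0 measurableSet_Icc subset_rfl (Wb_ff a T)
      fun i => uu_cont cf cg cd j i).trans ?_
    have h3 : ∫ t in Icc a T, ‖((ff t : ℝ) : ℂ)‖ * ∏ i, ∫ c in (0 : ℝ)..U, ‖uu f g d j i (t + c)‖ ≤
        ∫ t in Icc a T, ‖((ff t : ℝ) : ℂ)‖ * (D * W ^ (n - 1)) := by
      refine integral_mono_of_nonneg ?_ ?_ ?_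
      · refine Eventually.of_forall fun t => mul_nonneg (norm_nonneg _) (Finset.prod_nonneg fun i _ => ?_)
        exact intervalIntegral.integral_nonneg hU0.le fun c _ => norm_nonneg _
      · exact ((hff.norm.mul continuous_const).continuousOn).integrableOn_compact isCompact_Icc
      · rw [EventuallyLE, ae_restrict_iff' measurableSet_Icc]
        refine Eventually.of_forall fun t ht => ?_
        refine mul_le_mul_of_nonneg_left ?_ (norm_nonneg _)
        rw [← Finset.mul_prod_erase Finset.univ _ (Finset.mem_univ j)]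
        have h5 : ∏ i ∈ Finset.univ.erase j, ∫ c in (0 : ℝ)..U, ‖uu f g d j i (t + c)‖ ≤ W ^ (n - 1) := by
          calc ∏ i ∈ Finset.univ.erase j, ∫ c in (0 : ℝ)..U, ‖uu f g d j i (t + c)‖
              ≤ ∏ _i ∈ Finset.univ.erase j, W := by
                refine Finset.prod_le_prod
                  (fun i _ => intervalIntegral.integral_nonneg hU0.le fun c _ => norm_nonneg _) fun i hi => ?_
                have hij := Finset.ne_of_mem_erase hi
                unfold uu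
                rw [Function.update_of_ne hij]
                unfold kk
                split_ifs
                · exact w2 t ht.1 ht.2
                · exact w1 t ht.1 ht.2
            _ = W ^ (n - 1) := by
                rw [Finset.prod_const, Finset.card_erase_of_mem (Finset.mem_univ j), Finset.card_univ, Fintype.card_fin]
        have h6 : ∫ c in (0 : ℝ)..U, ‖uu f g d j j (t + c)‖ ≤ D := by
          unfold uu
          rw [Function.update_self]
          exact w3 t ht.1 ht.2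
        exact mul_le_mul h6 h5 (Finset.prod_nonneg fun i _ =>
          intervalIntegral.integral_nonneg hU0.le fun c _ => norm_nonneg _) hD0
    refine h3.trans ?_
    rw [integral_mul_const]
    exact mul_le_mul_of_nonneg_right hffI (by positivity)
  calc ∫ c, ‖∫ t in Icc a T, ((ff t : ℝ) : ℂ) * (∏ j : Fin n, DN N (t + c j) -
      ∏ j : Fin n, ((L : ℂ) * P1 N (t + c j)))‖ ∂(mB n 0 U)
      ≤ ∫ c, ∑ j, ‖∫ t in Icc a T, ((ff t : ℝ) : ℂ) * ∏ i, uu f g d j i (t + c i)‖ ∂(mB n 0 U) := by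
        refine integral_mono_of_nonneg (Eventually.of_forall fun c => norm_nonneg _) ?_
          (Eventually.of_forall fun c => ?_)
        · exact mB_int (continuous_finsetSum _ fun j _ => (hcont j).norm) 0 U
        · simp only
          rw [key]
          exact norm_sum_le _ _
    _ = ∑ j, ∫ c, ‖∫ t in Icc a T, ((ff t : ℝ) : ℂ) * ∏ i, uu f g d j i (t + c i)‖ ∂(mB n 0 U) :=
        integral_finset_sum _ fun j _ => mB_int (hcont j).norm 0 U
    _ ≤ ∑ _j : Fin n, Cs * T * L * (D * W ^ (n - 1)) := Finset.sum_le_sum fun j _ => hone j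
    _ = n * (Cs * T * L * (D * W ^ (n - 1))) := by
        rw [Finset.sum_const, Finset.card_univ, Fintype.card_fin, nsmul_eq_mul]
    _ ≤ n * (Cs * √Cw ^ n) * s ^ (2 * n) * l * L ^ n * T * U ^ n := by
        rcases Nat.eq_zero_or_pos n with hn | hn
        · rw [hn]
          simp
        · obtain ⟨m, rfl⟩ : ∃ m, n = m + 1 := ⟨n - 1, by omega⟩
          rw [Nat.add_sub_cancel, hW, hD]
          refine le_of_eq ?_
          rw [mul_pow, mul_pow, mul_pow, ← pow_mul, pow_succ (√Cw), pow_succ L, pow_succ U,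
            show 2 * (m + 1) = 2 * m + 2 by ring, pow_add s (2 * m) 2]
          ring
    _ ≤ _ := by
        have h9 : 0 ≤ s ^ (2 * n) * l * L ^ n * T * U ^ n := by positivity
        nlinarith

end Pool.Agent.L0h37.KM
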