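import Pool.Agent.L0h37.KM.MEAN
import Pool.Agent.N879.PZ.Asm4

set_option autoImplicit false

/-! Project KM (helper37): the theorem for almost all shifts. -/

namespace Pool.Agent.L0h37.KM

open Complex Filter Topology MeasureTheory Set
open Pool.Agent.Y969.GP (ff ht lam FR mB)
open Pool.Agent.Y969.SM (mB_int mB_cs mB_const mB_mass mB_markov mB_eq)
open Pool.Agent.N879.PZ (ee Wb BY1 BY1_cont SS1 SS1_cont zp1 AA1 S_EUL1 S_ZE1 S_LB1)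

namespace Meanaux

lemma kap_prod_le {n : ℕ} (α0 : ℝ) (α : Fin n → ℝ) : ‖kap α0 * ∏ j, kap (α j)‖ ≤ 1 := by
  rw [norm_mul, norm_prod]
  have h1 : ∏ j, ‖kap (α j)‖ ≤ 1 := Finset.prod_le_one (fun j _ => norm_nonneg _) fun j _ => Msmaux.kap_le _
  have h2 : 0 ≤ ∏ j, ‖kap (α j)‖ := Finset.prod_nonneg fun j _ => norm_nonneg _
  calc ‖kap α0‖ * ∏ j, ‖kap (α j)‖ ≤ 1 * 1 := mul_le_mul (Msmaux.kap_le _) h1 h2 zero_le_one
    _ = 1 := one_mul 1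

lemma JJ_cont {n : ℕ} (α0 : ℝ) (α : Fin n → ℝ) {T : ℝ} (hT : 0 ≤ T) : Continuous (JJ α0 α T) := by
  unfold JJ
  exact cont_int hT (Gz_cont _) fun j => Gz_cont _

end Meanaux

open Meanaux in
/-- the mean, with the product of the local densities -/
theorem mean2 (h1 : S_MEAN) (h2 : S_EUL1) (n : ℕ) (α0 : ℝ) (α : Fin n → ℝ) (ε : ℝ) (hε : 0 < ε) :
    ∀ᶠ T : ℝ in atTop, ∫ c, ‖JJ α0 α T c / ((T * Real.log T ^ (n + 1) : ℝ) : ℂ) -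
      (kap α0 * ∏ j, kap (α j)) * ((SS1 (Real.log T) c : ℝ) : ℂ)‖ ∂(mB n 0 T) ≤ ε * T ^ n := by
  obtain ⟨Y₁, h1⟩ := h1 n α0 α (ε / 2) (by positivity)
  obtain ⟨Y₂, h2⟩ := h2 n (ε / 2) (by positivity)
  have h1 := h1 (max Y₁ Y₂) (le_max_left _ _)
  have h2 := h2 (max Y₁ Y₂) (le_max_right _ _)
  filter_upwards [h1, h2, eventually_gt_atTop (0 : ℝ)] with T h1 h2 hT
  have cJ := JJ_cont α0 α hT.le
  have cB := BY1_cont n (max Y₁ Y₂)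
  have cS : Continuous fun c : Fin n → ℝ => ((SS1 (Real.log T) c : ℝ) : ℂ) :=
    Complex.continuous_ofReal.comp (SS1_cont (n := n) (Real.log T))
  have c1 : Continuous fun c : Fin n → ℝ => ‖JJ α0 α T c / ((T * Real.log T ^ (n + 1) : ℝ) : ℂ) -
      (kap α0 * ∏ j, kap (α j)) * BY1 n (max Y₁ Y₂) c‖ := ((cJ.div_const _).sub (continuous_const.mul cB)).norm
  have c2 : Continuous fun c : Fin n → ℝ => ‖BY1 n (max Y₁ Y₂) c - ((SS1 (Real.log T) c : ℝ) : ℂ)‖ := (cB.sub cS).norm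
  calc ∫ c, ‖JJ α0 α T c / ((T * Real.log T ^ (n + 1) : ℝ) : ℂ) -
      (kap α0 * ∏ j, kap (α j)) * ((SS1 (Real.log T) c : ℝ) : ℂ)‖ ∂(mB n 0 T)
      ≤ ∫ c, (‖JJ α0 α T c / ((T * Real.log T ^ (n + 1) : ℝ) : ℂ) -
        (kap α0 * ∏ j, kap (α j)) * BY1 n (max Y₁ Y₂) c‖ +
        ‖BY1 n (max Y₁ Y₂) c - ((SS1 (Real.log T) c : ℝ) : ℂ)‖) ∂(mB n 0 T) := by
        refine integral_mono (mB_int ((cJ.div_const _).sub (continuous_const.mul cS)).norm 0 T)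
          (mB_int (c1.add c2) 0 T) fun c => ?_
        simp only
        obtain ⟨κ, hκ⟩ : ∃ κ, κ = kap α0 * ∏ j, kap (α j) := ⟨_, rfl⟩
        have hκ1 : ‖κ‖ ≤ 1 := by rw [hκ]; exact kap_prod_le α0 α
        rw [← hκ]
        have e : JJ α0 α T c / ((T * Real.log T ^ (n + 1) : ℝ) : ℂ) - κ * ((SS1 (Real.log T) c : ℝ) : ℂ) =
            (JJ α0 α T c / ((T * Real.log T ^ (n + 1) : ℝ) : ℂ) - κ * BY1 n (max Y₁ Y₂) c) +
              κ * (BY1 n (max Y₁ Y₂) c - ((SS1 (Real.log T) c : ℝ) : ℂ)) := by ring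
        rw [e]
        refine (norm_add_le _ _).trans (add_le_add le_rfl ?_)
        rw [norm_mul]
        calc ‖κ‖ * ‖BY1 n (max Y₁ Y₂) c - ((SS1 (Real.log T) c : ℝ) : ℂ)‖
            ≤ 1 * ‖BY1 n (max Y₁ Y₂) c - ((SS1 (Real.log T) c : ℝ) : ℂ)‖ :=
              mul_le_mul_of_nonneg_right hκ1 (norm_nonneg _)
          _ = _ := one_mul _
    _ = (∫ c, ‖JJ α0 α T c / ((T * Real.log T ^ (n + 1) : ℝ) : ℂ) -
        (kap α0 * ∏ j, kap (α j)) * BY1 n (max Y₁ Y₂) c‖ ∂(mB n 0 T)) +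
        ∫ c, ‖BY1 n (max Y₁ Y₂) c - ((SS1 (Real.log T) c : ℝ) : ℂ)‖ ∂(mB n 0 T) :=
        integral_add (mB_int c1 0 T) (mB_int c2 0 T)
    _ ≤ ε / 2 * T ^ n + ε / 2 * T ^ n := add_le_add h1 h2
    _ = ε * T ^ n := by ring

open Meanaux in
/-- the theorem for almost all shifts -/
theorem main2 (h1 : S_MEAN) (h2 : S_EUL1) (h3 : S_ZE1) (n : ℕ) (α0 : ℝ) (α : Fin n → ℝ) (ε : ℝ) (hε : 0 < ε) :
    ∀ᶠ T : ℝ in atTop, volume {c : Fin n → ℝ | (∀ j, 0 ≤ c j ∧ c j ≤ T) ∧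
      ε ≤ ‖JJ α0 α T c / ((T * Real.log T ^ (n + 1) : ℝ) : ℂ) -
        (kap α0 * ∏ j, kap (α j)) * ((zp1 c * AA1 c : ℝ) : ℂ)‖} ≤ ENNReal.ofReal (ε * T ^ n) := by
  have hm := mean2 h1 h2 n α0 α (ε / 2 * (ε / 2)) (by positivity)
  filter_upwards [hm, h3 n (ε / 2) (by positivity), eventually_gt_atTop (0 : ℝ)] with T hm h3 hT
  have cJ := JJ_cont α0 α hT.le
  have cS : Continuous fun c : Fin n → ℝ => ((SS1 (Real.log T) c : ℝ) : ℂ) :=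
    Complex.continuous_ofReal.comp (SS1_cont (n := n) (Real.log T))
  have hWc : Continuous fun c : Fin n → ℝ => ‖JJ α0 α T c / ((T * Real.log T ^ (n + 1) : ℝ) : ℂ) -
      (kap α0 * ∏ j, kap (α j)) * ((SS1 (Real.log T) c : ℝ) : ℂ)‖ :=
    ((cJ.div_const _).sub (continuous_const.mul cS)).norm
  have hk := mB_markov hWc (fun c => norm_nonneg _) hm (show 0 < ε / 2 by positivity)
  have hk' : (mB n 0 T).real {c | ε / 2 ≤ ‖JJ α0 α T c / ((T * Real.log T ^ (n + 1) : ℝ) : ℂ) -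
      (kap α0 * ∏ j, kap (α j)) * ((SS1 (Real.log T) c : ℝ) : ℂ)‖} ≤ ε / 2 * T ^ n := by
    refine hk.trans (le_of_eq ?_)
    field_simp
  have hsub : {c : Fin n → ℝ | (∀ j, 0 ≤ c j ∧ c j ≤ T) ∧
      ε ≤ ‖JJ α0 α T c / ((T * Real.log T ^ (n + 1) : ℝ) : ℂ) -
        (kap α0 * ∏ j, kap (α j)) * ((zp1 c * AA1 c : ℝ) : ℂ)‖} ⊆
      ({c | ε / 2 ≤ |SS1 (Real.log T) c - zp1 c * AA1 c|} ∪
        {c | ε / 2 ≤ ‖JJ α0 α T c / ((T * Real.log T ^ (n + 1) : ℝ) : ℂ) -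
          (kap α0 * ∏ j, kap (α j)) * ((SS1 (Real.log T) c : ℝ) : ℂ)‖}) ∩ Set.Icc (fun _ => 0) (fun _ => T) := by
    rintro c ⟨hc, hbad⟩
    refine ⟨?_, fun j => (hc j).1, fun j => (hc j).2⟩
    by_contra hcon
    simp only [Set.mem_union, Set.mem_ofPred_eq, not_or, not_le] at hcon
    obtain ⟨q1, q2⟩ := hcon
    obtain ⟨κ, hκ⟩ : ∃ κ, κ = kap α0 * ∏ j, kap (α j) := ⟨_, rfl⟩
    have hκ1 : ‖κ‖ ≤ 1 := by rw [hκ]; exact kap_prod_le α0 α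
    rw [← hκ] at hbad q2
    have e : JJ α0 α T c / ((T * Real.log T ^ (n + 1) : ℝ) : ℂ) - κ * ((zp1 c * AA1 c : ℝ) : ℂ) =
        (JJ α0 α T c / ((T * Real.log T ^ (n + 1) : ℝ) : ℂ) - κ * ((SS1 (Real.log T) c : ℝ) : ℂ)) +
          κ * ((SS1 (Real.log T) c - zp1 c * AA1 c : ℝ) : ℂ) := by
      push_cast
      ring
    have h5 : ‖κ * ((SS1 (Real.log T) c - zp1 c * AA1 c : ℝ) : ℂ)‖ ≤ |SS1 (Real.log T) c - zp1 c * AA1 c| := by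
      rw [norm_mul, Complex.norm_real, Real.norm_eq_abs]
      calc ‖κ‖ * |SS1 (Real.log T) c - zp1 c * AA1 c| ≤ 1 * |SS1 (Real.log T) c - zp1 c * AA1 c| :=
            mul_le_mul_of_nonneg_right hκ1 (abs_nonneg _)
        _ = _ := one_mul _
    have h6 := norm_add_le (JJ α0 α T c / ((T * Real.log T ^ (n + 1) : ℝ) : ℂ) - κ * ((SS1 (Real.log T) c : ℝ) : ℂ))
      (κ * ((SS1 (Real.log T) c - zp1 c * AA1 c : ℝ) : ℂ))
    rw [← e] at h6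
    linarith
  have hreal : (mB n 0 T).real ({c | ε / 2 ≤ |SS1 (Real.log T) c - zp1 c * AA1 c|} ∪
        {c | ε / 2 ≤ ‖JJ α0 α T c / ((T * Real.log T ^ (n + 1) : ℝ) : ℂ) -
          (kap α0 * ∏ j, kap (α j)) * ((SS1 (Real.log T) c : ℝ) : ℂ)‖}) ≤ ε * T ^ n := by
    refine (measureReal_union_le _ _).trans ?_
    linarith
  calc _ ≤ volume (({c | ε / 2 ≤ |SS1 (Real.log T) c - zp1 c * AA1 c|} ∪
        {c | ε / 2 ≤ ‖JJ α0 α T c / ((T * Real.log T ^ (n + 1) : ℝ) : ℂ) -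
          (kap α0 * ∏ j, kap (α j)) * ((SS1 (Real.log T) c : ℝ) : ℂ)‖}) ∩ Set.Icc (fun _ => 0) (fun _ => T)) :=
        measure_mono hsub
    _ = (mB n 0 T) ({c | ε / 2 ≤ |SS1 (Real.log T) c - zp1 c * AA1 c|} ∪
        {c | ε / 2 ≤ ‖JJ α0 α T c / ((T * Real.log T ^ (n + 1) : ℝ) : ℂ) -
          (kap α0 * ∏ j, kap (α j)) * ((SS1 (Real.log T) c : ℝ) : ℂ)‖}) := by
        rw [mB_eq, Measure.restrict_apply' measurableSet_Icc]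
    _ ≤ _ := by
        rw [← ENNReal.ofReal_toReal (measure_ne_top (mB n 0 T) _)]
        exact ENNReal.ofReal_le_ofReal hreal

open Meanaux in
/-- the relative form -/
theorem rel2 (h1 : S_MEAN) (h2 : S_EUL1) (h3 : S_ZE1) (h4 : S_LB1) (n : ℕ) (α0 : ℝ) (α : Fin n → ℝ)
    (hne : kap α0 * ∏ j, kap (α j) ≠ 0) (ε : ℝ) (hε : 0 < ε) :
    ∀ᶠ T : ℝ in atTop, volume {c : Fin n → ℝ | (∀ j, 0 ≤ c j ∧ c j ≤ T) ∧
      ¬ ‖JJ α0 α T c / ((kap α0 * ∏ j, kap (α j)) *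
        ((zp1 c * AA1 c * (T * Real.log T ^ (n + 1)) : ℝ) : ℂ)) - 1‖ ≤ ε} ≤ ENNReal.ofReal (ε * T ^ n) := by
  obtain ⟨κ, hκ⟩ : ∃ κ, κ = kap α0 * ∏ j, kap (α j) := ⟨_, rfl⟩
  rw [← hκ] at hne ⊢
  have hκ1 : ‖κ‖ ≤ 1 := by rw [hκ]; exact kap_prod_le α0 α
  have hκ0 : 0 < ‖κ‖ := norm_pos_iff.mpr hne
  obtain ⟨η, hη, h4⟩ := h4 n (ε / 4) (by positivity)
  obtain ⟨δ₂, hδ₂⟩ : ∃ δ₂, δ₂ = ε * (‖κ‖ * η) / 8 := ⟨_, rfl⟩
  obtain ⟨δ₁, hδ₁⟩ : ∃ δ₁, δ₁ = min (min (η / 2) (ε * (‖κ‖ * η) / 8)) (ε / 4) := ⟨_, rfl⟩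
  have hδ₁0 : 0 < δ₁ := by
    rw [hδ₁]
    exact lt_min (lt_min (by positivity) (by positivity)) (by positivity)
  have d1 : δ₁ ≤ η / 2 := by rw [hδ₁]; exact (min_le_left _ _).trans (min_le_left _ _)
  have d2 : δ₁ ≤ ε * (‖κ‖ * η) / 8 := by rw [hδ₁]; exact (min_le_left _ _).trans (min_le_right _ _)
  have d3 : δ₁ ≤ ε / 4 := by rw [hδ₁]; exact min_le_right _ _
  have hδ₂0 : 0 < δ₂ := by rw [hδ₂]; positivity
  have hm := mean2 h1 h2 n α0 α (δ₂ * (ε / 4)) (by positivity)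
  filter_upwards [hm, h3 n δ₁ hδ₁0, h4, eventually_gt_atTop (1 : ℝ)] with T hm h3 h4 hT1
  have hT : 0 < T := by linarith
  have hL0 : 0 < Real.log T := Real.log_pos hT1
  rw [← hκ] at hm
  have cJ := JJ_cont α0 α hT.le
  have cS : Continuous fun c : Fin n → ℝ => ((SS1 (Real.log T) c : ℝ) : ℂ) :=
    Complex.continuous_ofReal.comp (SS1_cont (n := n) (Real.log T))
  have hWc : Continuous fun c : Fin n → ℝ => ‖JJ α0 α T c / ((T * Real.log T ^ (n + 1) : ℝ) : ℂ) -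
      κ * ((SS1 (Real.log T) c : ℝ) : ℂ)‖ := ((cJ.div_const _).sub (continuous_const.mul cS)).norm
  have hk := mB_markov hWc (fun c => norm_nonneg _) hm hδ₂0
  have hk' : (mB n 0 T).real {c | δ₂ ≤ ‖JJ α0 α T c / ((T * Real.log T ^ (n + 1) : ℝ) : ℂ) -
      κ * ((SS1 (Real.log T) c : ℝ) : ℂ)‖} ≤ ε / 4 * T ^ n := by
    refine hk.trans (le_of_eq ?_)
    field_simp
  have hD : 0 < T * Real.log T ^ (n + 1) := by positivity
  have hsub : {c : Fin n → ℝ | (∀ j, 0 ≤ c j ∧ c j ≤ T) ∧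
      ¬ ‖JJ α0 α T c / (κ * ((zp1 c * AA1 c * (T * Real.log T ^ (n + 1)) : ℝ) : ℂ)) - 1‖ ≤ ε} ⊆
      (({c | SS1 (Real.log T) c ≤ η} ∪ {c | δ₁ ≤ |SS1 (Real.log T) c - zp1 c * AA1 c|}) ∪
        {c | δ₂ ≤ ‖JJ α0 α T c / ((T * Real.log T ^ (n + 1) : ℝ) : ℂ) -
          κ * ((SS1 (Real.log T) c : ℝ) : ℂ)‖}) ∩ Set.Icc (fun _ => 0) (fun _ => T) := by
    rintro c ⟨hc, hbad⟩
    refine ⟨?_, fun j => (hc j).1, fun j => (hc j).2⟩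
    by_contra hcon
    simp only [Set.mem_union, Set.mem_ofPred_eq, not_or, not_le] at hcon
    obtain ⟨⟨q1, q2⟩, q3⟩ := hcon
    apply hbad
    obtain ⟨G, hG⟩ : ∃ G, G = zp1 c * AA1 c := ⟨_, rfl⟩
    rw [← hG] at q2 ⊢
    have hG1 : η / 2 ≤ G := by
      have := (abs_lt.mp q2).2
      linarith
    have hG0 : 0 < G := by linarith
    have hGc : ((G : ℝ) : ℂ) ≠ 0 := by exact_mod_cast hG0.ne'
    have hDc : ((T * Real.log T ^ (n + 1) : ℝ) : ℂ) ≠ 0 := by exact_mod_cast hD.ne'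
    have e1 : JJ α0 α T c / (κ * ((G * (T * Real.log T ^ (n + 1)) : ℝ) : ℂ)) - 1 =
        (JJ α0 α T c / ((T * Real.log T ^ (n + 1) : ℝ) : ℂ) - κ * ((G : ℝ) : ℂ)) / (κ * ((G : ℝ) : ℂ)) := by
      rw [Complex.ofReal_mul G]
      field_simp
    have e2 : ‖JJ α0 α T c / ((T * Real.log T ^ (n + 1) : ℝ) : ℂ) - κ * ((G : ℝ) : ℂ)‖ ≤ δ₂ + δ₁ := by
      have e3 : JJ α0 α T c / ((T * Real.log T ^ (n + 1) : ℝ) : ℂ) - κ * ((G : ℝ) : ℂ) =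
          (JJ α0 α T c / ((T * Real.log T ^ (n + 1) : ℝ) : ℂ) - κ * ((SS1 (Real.log T) c : ℝ) : ℂ)) +
          κ * ((SS1 (Real.log T) c - G : ℝ) : ℂ) := by
        push_cast
        ring
      rw [e3]
      refine (norm_add_le _ _).trans (add_le_add q3.le ?_)
      rw [norm_mul, Complex.norm_real, Real.norm_eq_abs]
      calc ‖κ‖ * |SS1 (Real.log T) c - G| ≤ 1 * |SS1 (Real.log T) c - G| :=
            mul_le_mul_of_nonneg_right hκ1 (abs_nonneg _)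
        _ = |SS1 (Real.log T) c - G| := one_mul _
        _ ≤ δ₁ := q2.le
    have e4 : ‖κ * ((G : ℝ) : ℂ)‖ = ‖κ‖ * G := by
      rw [norm_mul, Complex.norm_real, Real.norm_eq_abs, abs_of_pos hG0]
    rw [e1, norm_div, e4, div_le_iff₀ (by positivity)]
    calc _ ≤ δ₂ + δ₁ := e2
      _ ≤ ε * (‖κ‖ * η) / 8 + ε * (‖κ‖ * η) / 8 := add_le_add hδ₂.le d2
      _ ≤ ε * (‖κ‖ * (η / 2)) := by
          have : 0 < ε * (‖κ‖ * η) := by positivity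
          linarith
      _ ≤ ε * (‖κ‖ * G) := by gcongr
  have hreal : (mB n 0 T).real (({c | SS1 (Real.log T) c ≤ η} ∪ {c | δ₁ ≤ |SS1 (Real.log T) c - zp1 c * AA1 c|}) ∪
        {c | δ₂ ≤ ‖JJ α0 α T c / ((T * Real.log T ^ (n + 1) : ℝ) : ℂ) -
          κ * ((SS1 (Real.log T) c : ℝ) : ℂ)‖}) ≤ ε * T ^ n := by
    refine (measureReal_union_le _ _).trans ?_
    have := measureReal_union_le (μ := mB n 0 T) {c | SS1 (Real.log T) c ≤ η}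
      {c | δ₁ ≤ |SS1 (Real.log T) c - zp1 c * AA1 c|}
    have h5 : δ₁ * T ^ n ≤ ε / 4 * T ^ n := by gcongr
    have h6 : 0 < ε * T ^ n := by positivity
    linarith
  calc _ ≤ volume ((({c | SS1 (Real.log T) c ≤ η} ∪ {c | δ₁ ≤ |SS1 (Real.log T) c - zp1 c * AA1 c|}) ∪
        {c | δ₂ ≤ ‖JJ α0 α T c / ((T * Real.log T ^ (n + 1) : ℝ) : ℂ) -
          κ * ((SS1 (Real.log T) c : ℝ) : ℂ)‖}) ∩ Set.Icc (fun _ => 0) (fun _ => T)) :=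
        measure_mono hsub
    _ = (mB n 0 T) (({c | SS1 (Real.log T) c ≤ η} ∪ {c | δ₁ ≤ |SS1 (Real.log T) c - zp1 c * AA1 c|}) ∪
        {c | δ₂ ≤ ‖JJ α0 α T c / ((T * Real.log T ^ (n + 1) : ℝ) : ℂ) -
          κ * ((SS1 (Real.log T) c : ℝ) : ℂ)‖}) := by
        rw [mB_eq, Measure.restrict_apply' measurableSet_Icc]
    _ ≤ _ := by
        rw [← ENNReal.ofReal_toReal (measure_ne_top (mB n 0 T) _)]
        exact ENNReal.ofReal_le_ofReal hreal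

end Pool.Agent.L0h37.KM
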