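import Pool.Agent.L0h37.KM.Stm
import Pool.Agent.N879.PZ.Msq

set_option autoImplicit false

/-! Project KM, part MSM: mean square of the low part. -/

namespace Pool.Agent.L0h37.KM

open Complex Filter Topology MeasureTheory Set
open Pool.Agent.Y969.GP (ff ht lam FR mB)
open Pool.Agent.W184.NZ (w1)
open Pool.Agent.N879.PZ (ee Wb BY1 SS1 zp1 AA1)

noncomputable section

namespace Msmaux

open Pool.Agent.Y81.SX.T0 (HL mem_FR ht_pos one_le_ht HL_fst HL_snd prod_ht LY LY_eq card_S)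
open Pool.Agent.N879.PZ.Msqaux (pq gpos pq_fst pq_snd pq_cop ht_pq ee_pq ee_cont w1_eq w1_sq Rq
  Rq_nonneg ev_pow)

lemma PM_cont (M : ℕ) : Continuous (PM M) := by
  unfold PM
  refine continuous_finsetSum _ fun n hn => ?_
  have hn1 : (n : ℂ) ≠ 0 := by
    have h1 := (Finset.mem_Icc.1 hn).1
    have h2 : n ≠ 0 := by omega
    exact_mod_cast h2
  exact Continuous.const_cpow (by fun_prop) (Or.inl hn1)

lemma GM_cont (M : ℕ) (a : ℝ) : Continuous (GM M a) := by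
  unfold GM
  have := PM_cont M
  fun_prop

lemma kap_le (α : ℝ) : ‖kap α‖ ≤ 1 := by
  unfold kap
  have h := intervalIntegral.norm_integral_le_of_norm_le_const (a := (0:ℝ)) (b := 1) (C := 1)
    (f := fun x : ℝ => cexp (-(2 * I * ((α * x : ℝ) : ℂ)))) (fun x _ => by
      have e : -(2 * I * ((α * x : ℝ) : ℂ)) = ((-(2 * (α * x)) : ℝ) : ℂ) * I := by push_cast; ring
      rw [e, Complex.norm_exp_ofReal_mul_I])
  simpa using h

lemma prod_DL {n : ℕ} (M N : ℕ) (b : Fin n → ℝ) (c : Fin n → ℝ) (t : ℝ) :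
    ∏ j, DL M N (b j) (t + c j) = ∑ q ∈ Fintype.piFinset (fun _ : Fin n => FR N),
      ((∏ j, bz M (b j) (q j)) * ∏ j, cexp (I * ((c j * lam (q j) : ℝ) : ℂ))) * ee t (pq q) := by
  unfold DL
  rw [Finset.prod_univ_sum]
  refine Finset.sum_congr rfl fun q hq => ?_
  have hq' := fun j => mem_FR.1 (Fintype.mem_piFinset.1 hq j)
  rw [ee_pq q (fun j => (hq' j).1.1) (fun j => (hq' j).2.1.1), Finset.prod_mul_distrib, mul_assoc]
  congr 1
  rw [← Finset.prod_mul_distrib]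
  refine Finset.prod_congr rfl fun j _ => ?_
  unfold ee
  rw [← Complex.exp_add]
  congr 1
  push_cast
  ring

/-- the coefficient of the tuple -/
def vq (M : ℕ) (a0 T : ℝ) {n : ℕ} (b : Fin n → ℝ) (q : Fin n → ℕ × ℕ) : ℂ :=
  (∏ j, bz M (b j) (q j)) * ∫ t in (0 : ℝ)..T, GM M a0 t * ee t (pq q)

lemma int_eq {n : ℕ} (M N : ℕ) (a0 T : ℝ) (b c : Fin n → ℝ) :
    ∫ t in (0 : ℝ)..T, GM M a0 t * ∏ j, DL M N (b j) (t + c j) =
      ∑ q ∈ Fintype.piFinset (fun _ : Fin n => FR N),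
        vq M a0 T b q * ∏ j, cexp (I * ((c j * lam (q j) : ℝ) : ℂ)) := by
  have e1 : ∀ t : ℝ, GM M a0 t * ∏ j, DL M N (b j) (t + c j) =
      ∑ q ∈ Fintype.piFinset (fun _ : Fin n => FR N),
        ((∏ j, bz M (b j) (q j)) * ∏ j, cexp (I * ((c j * lam (q j) : ℝ) : ℂ))) *
          (GM M a0 t * ee t (pq q)) := by
    intro t
    rw [prod_DL, Finset.mul_sum]
    refine Finset.sum_congr rfl fun q _ => ?_
    ring
  simp_rw [e1]
  rw [intervalIntegral.integral_finsetSum]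
  · refine Finset.sum_congr rfl fun q _ => ?_
    rw [intervalIntegral.integral_const_mul]
    unfold vq
    ring
  · intro q _
    exact (continuous_const.mul ((GM_cont M a0).mul (ee_cont _))).intervalIntegrable _ _

/-- the coefficients of the difference -/
def aq (M Y : ℕ) (a0 T : ℝ) {n : ℕ} (b : Fin n → ℝ) (kk : ℂ) (q : Fin n → ℕ × ℕ) : ℂ :=
  vq M a0 T b q -
    if ∏ j, ht (q j) ≤ Y then kk * ((T * Real.log T ^ (n + 1) * w1 (HL q) : ℝ) : ℂ) else 0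

lemma diff_eq {n M N Y : ℕ} (hYN : Y ≤ N) (a0 T : ℝ) (kk : ℂ) (b c : Fin n → ℝ) :
    (∫ t in (0:ℝ)..T, GM M a0 t * ∏ j, DL M N (b j) (t + c j)) -
      ((T * Real.log T ^ (n + 1) : ℝ) : ℂ) * (kk * BY1 n Y c) =
      ∑ q ∈ Fintype.piFinset (fun _ : Fin n => FR N),
        aq M Y a0 T b kk q * ∏ j, cexp (I * ((c j * lam (q j) : ℝ) : ℂ)) := by
  rw [int_eq]
  have e : BY1 n Y c = ∑ q ∈ LY n Y, (w1 (HL q) : ℂ) *
    ∏ j, cexp (I * ((c j * lam (q j) : ℝ) : ℂ)) := rfl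
  rw [e, ← LY_eq hYN, Finset.sum_filter, ← mul_assoc, Finset.mul_sum, ← Finset.sum_sub_distrib]
  refine Finset.sum_congr rfl fun q _ => ?_
  unfold aq
  split_ifs with h
  · push_cast; ring
  · simp

/-- the error of the coefficient -/
lemma vq_err {C C' T : ℝ} {n M N : ℕ} (b : Fin n → ℝ) (a0 : ℝ) (kk : ℂ) (hC : 0 < C)
    (hTW : ∀ q : ℕ × ℕ, 1 ≤ q.1 → 1 ≤ q.2 → Nat.Coprime q.1 q.2 →
      ‖(∫ t in (0 : ℝ)..T, GM M a0 t * ee t q) - (T : ℂ) * bz M a0 q‖ ≤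
        C * (M * ht q ^ 2 * (1 + Real.log (M * ht q))))
    (hC' : 0 < C') (hMS : ∀ q ∈ Fintype.piFinset (fun _ : Fin n => FR N),
      ‖(∏ j, bz M (b j) (q j)) * bz M a0 (pq q) - kk * ((Real.log T ^ (n + 1) * w1 (HL q) : ℝ) : ℂ)‖ ≤
        C' * (Real.log T ^ n * (1 + Real.log (∏ j, ht (q j)) + Real.log (Real.log T)) * w1 (HL q)))
    (hbz : ∀ (a : ℝ) (p : ℕ × ℕ), 1 ≤ p.1 → 1 ≤ p.2 → ‖bz M a p‖ ≤ (1 + Real.log M) * (√(ht p))⁻¹)
    (hT : 1 ≤ T) (hL : 1 ≤ Real.log T) (hM : 1 ≤ M) (hMT : (M : ℝ) ≤ T) (hN : 1 ≤ N)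
    (hNT : (N : ℝ) ^ n ≤ T)
    {q : Fin n → ℕ × ℕ} (hq : q ∈ Fintype.piFinset (fun _ : Fin n => FR N)) :
    ‖vq M a0 T b q - kk * ((T * Real.log T ^ (n + 1) * w1 (HL q) : ℝ) : ℂ)‖ ≤
      C' * T * Real.log T ^ n * (1 + n * Real.log N + Real.log (Real.log T)) * w1 (HL q) +
        (2 * Real.log T) ^ n * (C * (M * ((N : ℝ) ^ n) ^ 2 * (3 * Real.log T))) := by
  have hq' := fun j => mem_FR.1 (Fintype.mem_piFinset.1 hq j)
  have h1 : ∀ j, 1 ≤ (q j).1 := fun j => (hq' j).1.1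
  have h2 : ∀ j, 1 ≤ (q j).2 := fun j => (hq' j).2.1.1
  have hP1 : 1 ≤ ∏ j, ht (q j) := by
    calc (1 : ℝ) = ∏ _j : Fin n, (1 : ℝ) := by simp
      _ ≤ _ := Finset.prod_le_prod (fun _ _ => zero_le_one) fun j _ => one_le_ht (h1 j) (h2 j)
  have hPN : ∏ j, ht (q j) ≤ (N : ℝ) ^ n := by
    calc ∏ j, ht (q j) ≤ ∏ _j : Fin n, (N : ℝ) :=
          Finset.prod_le_prod (fun j _ => (ht_pos (h1 j) (h2 j)).le) fun j _ => by
            have := (hq' j).2.2.1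
            unfold ht
            exact_mod_cast this
      _ = _ := by simp
  have hP0 : 0 < ∏ j, ht (q j) := by linarith
  have hg1 : (1 : ℝ) ≤ (Nat.gcd (HL q).1 (HL q).2 : ℝ) := by
    have := gpos (q := q) h1
    exact_mod_cast this
  have hle : ht (pq q) ≤ ∏ j, ht (q j) := by
    rw [ht_pq q h1]
    exact div_le_self hP0.le (one_le_pow₀ hg1)
  have hh1 : 1 ≤ ht (pq q) := one_le_ht (pq_fst h1) (pq_snd h1 h2)
  have hM1 : (1 : ℝ) ≤ M := by exact_mod_cast hM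
  have hT0 : 0 < T := by linarith
  have hw : 0 ≤ w1 (HL q) := by rw [w1_eq]; positivity
  obtain ⟨L, hLL⟩ : ∃ L, L = Real.log T := ⟨_, rfl⟩
  have h3 := hTW (pq q) (pq_fst h1) (pq_snd h1 h2) (pq_cop h1)
  have h4 := hMS q hq
  rw [← hLL] at h4 hL ⊢
  have hL0 : 0 < L := by linarith
  have e5 : vq M a0 T b q - kk * ((T * L ^ (n + 1) * w1 (HL q) : ℝ) : ℂ) =
      (T : ℂ) * ((∏ j, bz M (b j) (q j)) * bz M a0 (pq q) - kk * ((L ^ (n + 1) * w1 (HL q) : ℝ) : ℂ)) +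
      (∏ j, bz M (b j) (q j)) * ((∫ t in (0 : ℝ)..T, GM M a0 t * ee t (pq q)) - (T : ℂ) * bz M a0 (pq q)) := by
    unfold vq
    push_cast
    ring
  have hlogM : Real.log M ≤ L := by
    rw [hLL]
    exact Real.log_le_log (by linarith) hMT
  have hlogM0 : 0 ≤ Real.log M := Real.log_nonneg hM1
  have hpb : ‖∏ j, bz M (b j) (q j)‖ ≤ (2 * L) ^ n := by
    rw [norm_prod]
    calc ∏ j, ‖bz M (b j) (q j)‖ ≤ ∏ _j : Fin n, (2 * L) := by
          refine Finset.prod_le_prod (fun _ _ => norm_nonneg _) fun j _ => ?_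
          refine (hbz (b j) (q j) (h1 j) (h2 j)).trans ?_
          have h5 : (√(ht (q j)))⁻¹ ≤ 1 := by
            apply inv_le_one_of_one_le₀
            rw [Real.one_le_sqrt]
            exact one_le_ht (h1 j) (h2 j)
          calc (1 + Real.log M) * (√(ht (q j)))⁻¹ ≤ (1 + Real.log M) * 1 :=
                mul_le_mul_of_nonneg_left h5 (by linarith)
            _ ≤ 2 * L := by linarith
      _ = _ := by simp
  have hlh : Real.log (M * ht (pq q)) ≤ 2 * L := by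
    rw [Real.log_mul (by linarith) (by linarith)]
    have h6 : Real.log (ht (pq q)) ≤ L := by
      rw [hLL]
      exact Real.log_le_log (by linarith) (hle.trans (hPN.trans hNT))
    linarith
  have hlh0 : 0 ≤ Real.log (M * ht (pq q)) := Real.log_nonneg (one_le_mul_of_one_le_of_one_le hM1 hh1)
  have hlp : Real.log (∏ j, ht (q j)) ≤ n * Real.log N := by
    rw [← Real.log_pow]
    exact Real.log_le_log hP0 hPN
  rw [e5]
  refine (norm_add_le _ _).trans ?_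
  rw [norm_mul, norm_mul, Complex.norm_real, Real.norm_of_nonneg hT0.le]
  refine add_le_add ?_ ?_
  · calc T * ‖(∏ j, bz M (b j) (q j)) * bz M a0 (pq q) - kk * ((L ^ (n + 1) * w1 (HL q) : ℝ) : ℂ)‖
        ≤ T * (C' * (L ^ n * (1 + Real.log (∏ j, ht (q j)) + Real.log L) * w1 (HL q))) :=
          mul_le_mul_of_nonneg_left h4 hT0.le
      _ ≤ T * (C' * (L ^ n * (1 + n * Real.log N + Real.log L) * w1 (HL q))) := by
          gcongr
      _ = _ := by ring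
  · refine mul_le_mul hpb (h3.trans ?_) (norm_nonneg _) (by positivity)
    have h7 : ht (pq q) ≤ (N : ℝ) ^ n := hle.trans hPN
    have h8 : 0 ≤ ht (pq q) := by linarith
    have h9 : 1 + Real.log (M * ht (pq q)) ≤ 3 * L := by linarith
    gcongr

end Msmaux

open Msmaux in
open Pool.Agent.Y81.SX.T0 (HL mem_FR ht_pos one_le_ht HL_fst HL_snd prod_ht LY LY_eq card_S) in
open Pool.Agent.N879.PZ.Msqaux (pq gpos pq_fst pq_snd pq_cop ht_pq ee_pq ee_cont w1_eq w1_sq Rq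
  Rq_nonneg ev_pow) in
theorem t_MSM (h1 : S_GRP) (h2 : S_MSA) (h3 : S_TWM) : S_MSM := by
  obtain ⟨C, hC, hTW⟩ := h3
  have hORT := Pool.Agent.Y953.SX.t_ORT Pool.Agent.Y379.GP.t_SP
  intro n B C1 α0 α ε hC1 hB hε
  obtain ⟨C2, hC2, hAR⟩ := Pool.Agent.Y76.SX.t_ARI n (1 / 4) (by norm_num)
  obtain ⟨C', hC', hMSA⟩ := h2 n B C1 α0 α
  have hY : ∀ᶠ Y : ℕ in atTop, 2 * C2 * (Y : ℝ) ^ (-(1 / 4) : ℝ) ≤ ε / 4 ∧ 1 ≤ Y := by
    have l1 : Tendsto (fun Y : ℕ => 2 * C2 * (Y : ℝ) ^ (-(1 / 4) : ℝ)) atTop (𝓝 (2 * C2 * 0)) :=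
      ((tendsto_rpow_neg_atTop (by norm_num : (0 : ℝ) < 1 / 4)).comp tendsto_natCast_atTop_atTop).const_mul _
    rw [mul_zero] at l1
    exact (l1.eventually (ge_mem_nhds (by positivity))).and (eventually_ge_atTop 1)
  obtain ⟨Y₀, hY₀⟩ := eventually_atTop.1 hY
  refine ⟨Y₀, fun Y hYY => ?_⟩
  obtain ⟨hY1, hY2⟩ := hY₀ Y hYY
  have hlog : Tendsto Real.log atTop atTop := Real.tendsto_log_atTop
  obtain ⟨D, hD⟩ : ∃ D : ℝ, D = 3 + 2 * n * C1 := ⟨_, rfl⟩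
  have hD0 : 0 < D := by rw [hD]; positivity
  obtain ⟨Q, hQ⟩ : ∃ Q : ℝ, Q = 2 ^ n * C * 3 := ⟨_, rfl⟩
  have hQ0 : 0 < Q := by rw [hQ]; positivity
  filter_upwards [eventually_ge_atTop (3 : ℝ), hlog.eventually_ge_atTop ((Y : ℝ) + 1),
    hlog.eventually_ge_atTop (32 * C' ^ 2 * C2 * D ^ 2 / ε), hlog.eventually_ge_atTop 1,
    hlog.eventually_ge_atTop (32 * Q ^ 2 / ε),
    ev_pow (C1 * n) (s := 1) (c := 1) (by norm_num) one_pos,
    ev_pow (C1 * (2 * n + 1)) (s := 1) (c := 1 / 4) (by norm_num) (by norm_num),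
    ev_pow B (s := 1) (c := 1) (by norm_num) one_pos, hMSA]
    with T gT gY gL gL1 gQ g1 g2 g3 gM
  obtain ⟨L, hL⟩ : ∃ L, L = Real.log T := ⟨_, rfl⟩
  obtain ⟨N, hN⟩ : ∃ N, N = ⌊Real.log T ^ C1⌋₊ := ⟨_, rfl⟩
  obtain ⟨M, hM⟩ : ∃ M, M = Mt B T := ⟨_, rfl⟩
  rw [← hN, ← hM] at gM
  rw [← hN, ← hM]
  rw [Real.rpow_one] at g1 g2 g3
  rw [← hL] at gY gL gL1 g1 g2 g3 gQ hN
  have hT0 : (0 : ℝ) < T := by linarith
  have hT1 : (1 : ℝ) ≤ T := by linarith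
  have hL0 : 0 < L := by linarith
  have hNL : (N : ℝ) ≤ L ^ C1 := by rw [hN]; exact Nat.floor_le (by positivity)
  have hNp : 1 ≤ N := by
    rw [hN]
    apply Nat.le_floor
    push_cast
    exact one_le_pow₀ gL1
  have hN1' : (1 : ℝ) ≤ N := by exact_mod_cast hNp
  have hYN : Y ≤ N := by
    rw [hN]
    apply Nat.le_floor
    calc (Y : ℝ) ≤ L := by linarith
      _ = L ^ 1 := (pow_one _).symm
      _ ≤ L ^ C1 := pow_le_pow_right₀ gL1 hC1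
  have hNn : (N : ℝ) ^ n ≤ T := by
    calc (N : ℝ) ^ n ≤ (L ^ C1) ^ n := pow_le_pow_left₀ (by positivity) hNL n
      _ = L ^ (C1 * n) := (pow_mul _ _ _).symm
      _ ≤ 1 * T := g1
      _ = _ := one_mul _
  have hNT4 : 4 * (N : ℝ) ^ (2 * n + 1) ≤ T := by
    calc 4 * (N : ℝ) ^ (2 * n + 1) ≤ 4 * (L ^ C1) ^ (2 * n + 1) := by gcongr
      _ = 4 * L ^ (C1 * (2 * n + 1)) := by rw [pow_mul]
      _ ≤ 4 * (1 / 4 * T) := by gcongr
      _ = T := by ring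
  have hLB : 1 ≤ L ^ B := one_le_pow₀ gL1
  have hMle : (M : ℝ) ≤ T / L ^ B := by
    rw [hM]
    unfold Mt
    rw [← hL]
    exact Nat.floor_le (by positivity)
  have hM1 : 1 ≤ M := by
    rw [hM]
    unfold Mt
    rw [← hL]
    apply Nat.le_floor
    push_cast
    rw [le_div_iff₀ (by positivity)]
    linarith
  have hMT : (M : ℝ) ≤ T := hMle.trans (div_le_self hT0.le hLB)
  obtain ⟨kk, hkk⟩ : ∃ kk : ℂ, kk = kap α0 * ∏ j, kap (α j) := ⟨_, rfl⟩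
  have hkk1 : ‖kk‖ ≤ 1 := by
    rw [hkk, norm_mul, norm_prod]
    have h5 : ∏ j, ‖kap (α j)‖ ≤ 1 := Finset.prod_le_one (fun _ _ => norm_nonneg _) fun j _ => kap_le _
    have h6 : 0 ≤ ∏ j, ‖kap (α j)‖ := Finset.prod_nonneg fun _ _ => norm_nonneg _
    have h7 := kap_le α0
    calc ‖kap α0‖ * ∏ j, ‖kap (α j)‖ ≤ 1 * 1 := mul_le_mul h7 h5 h6 zero_le_one
      _ = 1 := one_mul _
  rw [← hkk] at gM ⊢
  obtain ⟨b, hb⟩ : ∃ b : Fin n → ℝ, b = fun j => α j / Real.log T := ⟨_, rfl⟩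
  obtain ⟨a0, ha0⟩ : ∃ a0, a0 = α0 / Real.log T := ⟨_, rfl⟩
  have hb' : ∀ j, α j / Real.log T = b j := fun j => by rw [hb]
  simp only [hb', ← ha0] at gM ⊢
  simp_rw [diff_eq hYN a0 T kk b]
  refine (hORT n N T (aq M Y a0 T b kk) hNp hNT4).trans ?_
  have hU0 : 0 ≤ T ^ n := by positivity
  -- the size of the logarithms
  obtain ⟨K, hK⟩ : ∃ K : ℝ, K = 1 + n * Real.log N + Real.log L := ⟨_, rfl⟩
  have hlogN : 0 ≤ Real.log N := Real.log_nonneg hN1'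
  have hlogL : 0 ≤ Real.log L := Real.log_nonneg gL1
  have hK0 : 0 ≤ K := by rw [hK]; positivity
  have hK2 : K ^ 2 ≤ D ^ 2 * L := by
    have s0 : Real.log L ≤ 2 * √L := by
      calc Real.log L ≤ L ^ (1 / 2 : ℝ) / (1 / 2) := Real.log_le_rpow_div hL0.le (by norm_num)
        _ = 2 * √L := by rw [Real.sqrt_eq_rpow]; ring
    have s1 : Real.log N ≤ 2 * C1 * √L := by
      calc Real.log N ≤ Real.log (L ^ C1) := Real.log_le_log (by linarith) hNL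
        _ = C1 * Real.log L := Real.log_pow _ _
        _ ≤ C1 * (2 * √L) := by gcongr
        _ = 2 * C1 * √L := by ring
    have s2 : 1 ≤ √L := by rw [Real.one_le_sqrt]; exact gL1
    have s3 : K ≤ D * √L := by
      rw [hK, hD]
      have : (n : ℝ) * Real.log N ≤ n * (2 * C1 * √L) := by gcongr
      nlinarith
    calc K ^ 2 ≤ (D * √L) ^ 2 := pow_le_pow_left₀ hK0 s3 2
      _ = D ^ 2 * L := by rw [mul_pow, Real.sq_sqrt hL0.le]
  -- the error term of the twisted mean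
  obtain ⟨W, hW⟩ : ∃ W : ℝ, W = (2 * L) ^ n * (C * (M * ((N : ℝ) ^ n) ^ 2 * (3 * L))) := ⟨_, rfl⟩
  have hW0 : 0 ≤ W := by rw [hW]; positivity
  have hWle : W * L ^ (2 * n * C1 + 1) ≤ Q * (T * L ^ (n + 1)) := by
    have w1' : (M : ℝ) * (((N : ℝ) ^ n) ^ 2 * L ^ (2 * n * C1 + 1)) ≤ T := by
      calc (M : ℝ) * (((N : ℝ) ^ n) ^ 2 * L ^ (2 * n * C1 + 1))
          ≤ T / L ^ B * (((L ^ C1) ^ n) ^ 2 * L ^ (2 * n * C1 + 1)) := by gcongr
        _ = T / L ^ B * L ^ (4 * n * C1 + 1) := by ring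
        _ ≤ T / L ^ B * L ^ B := by
            refine mul_le_mul_of_nonneg_left (pow_le_pow_right₀ gL1 (by omega)) (by positivity)
        _ = T := by field_simp
    calc W * L ^ (2 * n * C1 + 1) = Q * (L ^ (n + 1) * ((M : ℝ) * (((N : ℝ) ^ n) ^ 2 * L ^ (2 * n * C1 + 1)))) := by
          rw [hW, hQ]; ring
      _ ≤ Q * (L ^ (n + 1) * T) := by gcongr
      _ = _ := by ring
  -- the coefficients
  have hcoef : ∀ q ∈ Fintype.piFinset (fun _ : Fin n => FR N), ‖aq M Y a0 T b kk q‖ ^ 2 ≤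
      (4 * (C' * T * L ^ n * K) ^ 2 + 2 * (T * L ^ (n + 1)) ^ 2 * (Y : ℝ) ^ (-(1 / 4) : ℝ)) * Rq q +
        4 * W ^ 2 := by
    intro q hq
    have hq' := fun j => mem_FR.1 (Fintype.mem_piFinset.1 hq j)
    have hP1 : 1 ≤ ∏ j, ht (q j) := by
      calc (1 : ℝ) = ∏ _j : Fin n, (1 : ℝ) := by simp
        _ ≤ _ := Finset.prod_le_prod (fun _ _ => zero_le_one) fun j _ =>
          one_le_ht (hq' j).1.1 (hq' j).2.1.1
    have hP0 : 0 < ∏ j, ht (q j) := by linarith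
    have hR := Rq_nonneg q hP0
    have hw := w1_sq q hP0
    have hw0 : 0 ≤ w1 (HL q) := by rw [w1_eq]; positivity
    have hwR : w1 (HL q) ^ 2 ≤ Rq q := by
      rw [hw]
      exact mul_le_of_le_one_left hR (Real.rpow_le_one_of_one_le_of_nonpos hP1 (by norm_num))
    have herr := vq_err b a0 kk hC (fun q c1 c2 c3 => hTW M a0 T q hM1 hT0.le c1 c2 c3) hC'
      (fun q hq => gM q hq) (fun a p c1 c2 => (h1 M a).2.2 p c1 c2) hT1 (by rw [← hL]; exact gL1)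
      hM1 hMT hNp hNn hq
    rw [← hL, ← hK, ← hW] at herr
    obtain ⟨E, hE⟩ : ∃ E : ℂ, E = vq M a0 T b q - kk * ((T * L ^ (n + 1) * w1 (HL q) : ℝ) : ℂ) :=
      ⟨_, rfl⟩
    rw [← hE] at herr
    have hE2 : ‖E‖ ^ 2 ≤ 2 * (C' * T * L ^ n * K) ^ 2 * Rq q + 2 * W ^ 2 := by
      calc ‖E‖ ^ 2 ≤ (C' * T * L ^ n * K * w1 (HL q) + W) ^ 2 :=
            pow_le_pow_left₀ (norm_nonneg _) herr 2
        _ ≤ 2 * (C' * T * L ^ n * K * w1 (HL q)) ^ 2 + 2 * W ^ 2 := by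
            nlinarith [sq_nonneg (C' * T * L ^ n * K * w1 (HL q) - W)]
        _ = 2 * (C' * T * L ^ n * K) ^ 2 * w1 (HL q) ^ 2 + 2 * W ^ 2 := by ring
        _ ≤ _ := by
            gcongr
    have hYnn : 0 ≤ (Y : ℝ) ^ (-(1 / 4) : ℝ) := by positivity
    by_cases hPY : ∏ j, ht (q j) ≤ Y
    · have e1 : aq M Y a0 T b kk q = E := by
        unfold aq
        rw [if_pos hPY, hE, hL]
      rw [e1]
      have n1 : 0 ≤ 2 * (C' * T * L ^ n * K) ^ 2 * Rq q := by positivity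
      have n2 : 0 ≤ 2 * W ^ 2 := by positivity
      have n3 : 0 ≤ 2 * (T * L ^ (n + 1)) ^ 2 * (Y : ℝ) ^ (-(1 / 4) : ℝ) * Rq q := by positivity
      linarith
    · have e1 : aq M Y a0 T b kk q = E + kk * ((T * L ^ (n + 1) * w1 (HL q) : ℝ) : ℂ) := by
        unfold aq
        rw [if_neg hPY, hE, hL]
        ring
      have hwY : w1 (HL q) ^ 2 ≤ (Y : ℝ) ^ (-(1 / 4) : ℝ) * Rq q := by
        rw [hw]
        refine mul_le_mul_of_nonneg_right ?_ hR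
        refine Real.rpow_le_rpow_of_nonpos ?_ (not_le.1 hPY).le (by norm_num)
        exact_mod_cast hY2
      have hn2 : ‖kk * ((T * L ^ (n + 1) * w1 (HL q) : ℝ) : ℂ)‖ ^ 2 ≤
          (T * L ^ (n + 1)) ^ 2 * ((Y : ℝ) ^ (-(1 / 4) : ℝ) * Rq q) := by
        rw [norm_mul, Complex.norm_real, Real.norm_of_nonneg (by positivity)]
        calc (‖kk‖ * (T * L ^ (n + 1) * w1 (HL q))) ^ 2 ≤ (1 * (T * L ^ (n + 1) * w1 (HL q))) ^ 2 := by
              gcongr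
          _ = (T * L ^ (n + 1)) ^ 2 * w1 (HL q) ^ 2 := by ring
          _ ≤ _ := mul_le_mul_of_nonneg_left hwY (by positivity)
      rw [e1]
      have h6 : ‖E + kk * ((T * L ^ (n + 1) * w1 (HL q) : ℝ) : ℂ)‖ ^ 2 ≤
          2 * ‖E‖ ^ 2 + 2 * ‖kk * ((T * L ^ (n + 1) * w1 (HL q) : ℝ) : ℂ)‖ ^ 2 := by
        have h7 := norm_add_le E (kk * ((T * L ^ (n + 1) * w1 (HL q) : ℝ) : ℂ))
        have h8 := norm_nonneg (E + kk * ((T * L ^ (n + 1) * w1 (HL q) : ℝ) : ℂ))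
        nlinarith [sq_nonneg (‖E‖ - ‖kk * ((T * L ^ (n + 1) * w1 (HL q) : ℝ) : ℂ)‖)]
      linarith
  have hsumR : ∑ q ∈ Fintype.piFinset (fun _ : Fin n => FR N), Rq q ≤ C2 := hAR N
  have hcard : ((Fintype.piFinset (fun _ : Fin n => FR N)).card : ℝ) ≤ L ^ (2 * n * C1) := by
    calc ((Fintype.piFinset (fun _ : Fin n => FR N)).card : ℝ) ≤ (((N ^ 2) ^ n : ℕ) : ℝ) := by
          exact_mod_cast card_S n N
      _ = (N : ℝ) ^ (2 * n) := by push_cast; rw [pow_mul]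
      _ ≤ (L ^ C1) ^ (2 * n) := pow_le_pow_left₀ (by positivity) hNL _
      _ = _ := by ring
  have htot : ∑ q ∈ Fintype.piFinset (fun _ : Fin n => FR N), ‖aq M Y a0 T b kk q‖ ^ 2 ≤
      ε / 2 * (T * L ^ (n + 1)) ^ 2 := by
    refine (Finset.sum_le_sum hcoef).trans ?_
    rw [Finset.sum_add_distrib, ← Finset.mul_sum, Finset.sum_const, nsmul_eq_mul]
    have i1 : 4 * (C' * T * L ^ n * K) ^ 2 * C2 ≤ ε / 8 * (T * L ^ (n + 1)) ^ 2 := by
      have i2 : 32 * C' ^ 2 * C2 * D ^ 2 ≤ L * ε := by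
        rwa [div_le_iff₀ hε] at gL
      calc 4 * (C' * T * L ^ n * K) ^ 2 * C2 = 4 * (C' * T * L ^ n) ^ 2 * K ^ 2 * C2 := by ring
        _ ≤ 4 * (C' * T * L ^ n) ^ 2 * (D ^ 2 * L) * C2 := by gcongr
        _ = (T * L ^ n) ^ 2 * L / 8 * (32 * C' ^ 2 * C2 * D ^ 2) := by ring
        _ ≤ (T * L ^ n) ^ 2 * L / 8 * (L * ε) := mul_le_mul_of_nonneg_left i2 (by positivity)
        _ = _ := by ring
    have i3 : 2 * (T * L ^ (n + 1)) ^ 2 * (Y : ℝ) ^ (-(1 / 4) : ℝ) * C2 ≤ ε / 4 * (T * L ^ (n + 1)) ^ 2 := by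
      calc 2 * (T * L ^ (n + 1)) ^ 2 * (Y : ℝ) ^ (-(1 / 4) : ℝ) * C2
          = (T * L ^ (n + 1)) ^ 2 * (2 * C2 * (Y : ℝ) ^ (-(1 / 4) : ℝ)) := by ring
        _ ≤ (T * L ^ (n + 1)) ^ 2 * (ε / 4) := mul_le_mul_of_nonneg_left hY1 (by positivity)
        _ = _ := by ring
    have i4 : ((Fintype.piFinset (fun _ : Fin n => FR N)).card : ℝ) * (4 * W ^ 2) ≤
        ε / 8 * (T * L ^ (n + 1)) ^ 2 := by
      have i2 : 32 * Q ^ 2 ≤ L * ε := by
        rwa [div_le_iff₀ hε] at gQ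
      have i6 : L ^ (2 * n * C1) * W ^ 2 * L ≤ (Q * (T * L ^ (n + 1))) ^ 2 := by
        calc L ^ (2 * n * C1) * W ^ 2 * L = W ^ 2 * L ^ (2 * n * C1 + 1) := by ring
          _ ≤ W ^ 2 * L ^ (2 * (2 * n * C1 + 1)) := by
              refine mul_le_mul_of_nonneg_left (pow_le_pow_right₀ gL1 (by omega)) (by positivity)
          _ = (W * L ^ (2 * n * C1 + 1)) ^ 2 := by ring
          _ ≤ _ := pow_le_pow_left₀ (by positivity) hWle 2
      have i7 : L ^ (2 * n * C1) * (4 * W ^ 2) ≤ ε / 8 * (T * L ^ (n + 1)) ^ 2 := by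
        have i8 : L * (L ^ (2 * n * C1) * (4 * W ^ 2)) ≤ L * (ε / 8 * (T * L ^ (n + 1)) ^ 2) := by
          calc L * (L ^ (2 * n * C1) * (4 * W ^ 2)) = 4 * (L ^ (2 * n * C1) * W ^ 2 * L) := by ring
            _ ≤ 4 * (Q * (T * L ^ (n + 1))) ^ 2 := by linarith
            _ = (T * L ^ (n + 1)) ^ 2 / 8 * (32 * Q ^ 2) := by ring
            _ ≤ (T * L ^ (n + 1)) ^ 2 / 8 * (L * ε) := mul_le_mul_of_nonneg_left i2 (by positivity)
            _ = _ := by ring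
        exact le_of_mul_le_mul_left i8 hL0
      exact (mul_le_mul_of_nonneg_right hcard (by positivity)).trans i7
    have i5 : (4 * (C' * T * L ^ n * K) ^ 2 + 2 * (T * L ^ (n + 1)) ^ 2 * (Y : ℝ) ^ (-(1 / 4) : ℝ)) *
        ∑ q ∈ Fintype.piFinset (fun _ : Fin n => FR N), Rq q ≤
        (4 * (C' * T * L ^ n * K) ^ 2 + 2 * (T * L ^ (n + 1)) ^ 2 * (Y : ℝ) ^ (-(1 / 4) : ℝ)) * C2 :=
      mul_le_mul_of_nonneg_left hsumR (by positivity)
    have i6 : (4 * (C' * T * L ^ n * K) ^ 2 + 2 * (T * L ^ (n + 1)) ^ 2 * (Y : ℝ) ^ (-(1 / 4) : ℝ)) * C2 =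
      4 * (C' * T * L ^ n * K) ^ 2 * C2 + 2 * (T * L ^ (n + 1)) ^ 2 * (Y : ℝ) ^ (-(1 / 4) : ℝ) * C2 := by ring
    linarith
  rw [← hL]
  calc 2 * T ^ n * ∑ q ∈ Fintype.piFinset (fun _ : Fin n => FR N), ‖aq M Y a0 T b kk q‖ ^ 2
      ≤ 2 * T ^ n * (ε / 2 * (T * L ^ (n + 1)) ^ 2) := mul_le_mul_of_nonneg_left htot (by positivity)
    _ = _ := by ring

end

end Pool.Agent.L0h37.KM
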