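import Pool.Agent.L0h37.KM.Stm
import Pool.Agent.L0h37.KM.FG
import Pool.Agent.L0h37.KM.MSM
import Pool.Agent.N879.PZ.Win
import Pool.Agent.N879.PZ.Ctg
import Pool.Agent.N879.PZ.Lc
import Pool.Agent.N879.PZ.Asm2
import Pool.Agent.Y969.SM.Bas

set_option autoImplicit false

/-! Project KM (helper37): the theorem in the mean. -/

namespace Pool.Agent.L0h37.KM

open Complex Filter Topology MeasureTheory Set
open Pool.Agent.Y969.GP (ff ht lam FR mB)
open Pool.Agent.Y969.SM (mB_int mB_cs mB_const mB_mass)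
open Pool.Agent.N879.PZ (ee Wb BY1 BY1_cont ev_log log_pow_small pow_log_le)

namespace Meanaux

lemma Gz_cont (a : ℝ) : Continuous (Gz a) := by
  unfold Gz
  have := FGx.Z_cont
  fun_prop

lemma ee_cont (p : ℕ × ℕ) : Continuous fun u : ℝ => ee u p := by
  unfold ee
  fun_prop

lemma DL_cont (M N : ℕ) (a : ℝ) : Continuous (DL M N a) := by
  unfold DL
  exact continuous_finsetSum _ fun p _ => continuous_const.mul (ee_cont p)

lemma HI_cont (M N : ℕ) (a : ℝ) : Continuous (HI M N a) := by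
  unfold HI
  exact continuous_finsetSum _ fun p _ => continuous_const.mul (ee_cont p)

lemma Wb_cont {f : ℝ → ℂ} (hf : Continuous f) (a b : ℝ) : Wb a b f := by
  refine ⟨hf.measurable, ?_⟩
  obtain ⟨M, hM⟩ := isCompact_Icc.exists_bound_of_continuousOn (s := Icc a b) hf.continuousOn
  exact ⟨M, hM⟩

/-- continuity in the shifts -/
lemma cont_int {n : ℕ} {T : ℝ} (hT : 0 ≤ T) {w : ℝ → ℂ} (hw : Continuous w) {g : Fin n → ℝ → ℂ}
    (hg : ∀ j, Continuous (g j)) : Continuous fun c : Fin n → ℝ => ∫ t in (0 : ℝ)..T, w t * ∏ j, g j (t + c j) := by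
  have h := Pool.Agent.N879.PZ.t_CTG n 0 T (Icc 0 T) w g hT measurableSet_Icc subset_rfl (Wb_cont hw 0 T) hg
  have e : (fun c : Fin n → ℝ => ∫ t in (0 : ℝ)..T, w t * ∏ j, g j (t + c j)) =
      fun c : Fin n → ℝ => ∫ t in Icc 0 T, w t * ∏ j, g j (t + c j) := by
    funext c
    rw [intervalIntegral.integral_of_le hT, integral_Icc_eq_integral_Ioc]
  rw [e]
  exact h

/-- the windows -/
lemma win_le {f : ℝ → ℝ} (hf : Continuous f) (h0 : ∀ x, 0 ≤ f x) {T t : ℝ} (ht0 : 0 ≤ t)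
    (htT : t ≤ T) : ∫ c in (0 : ℝ)..T, f (t + c) ≤ ∫ u in (0 : ℝ)..(2 * T), f u := by
  rw [intervalIntegral.integral_comp_add_left f t]
  exact intervalIntegral.integral_mono_interval (by linarith) (by linarith) (by linarith)
    (Eventually.of_forall h0) (hf.intervalIntegrable _ _)

/-- the base term -/
lemma base {n : ℕ} {T W ρ : ℝ} (hT : 0 < T) (hW : 0 ≤ W) {r : ℝ → ℂ} (hr : Continuous r) {g : Fin n → ℝ → ℂ}
    (hg : ∀ j, Continuous (g j)) (h1 : ∫ u in (0 : ℝ)..(2 * T), ‖r u‖ ≤ ρ)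
    (h2 : ∀ j, ∫ u in (0 : ℝ)..(2 * T), ‖g j u‖ ≤ W) :
    ∫ c, ‖∫ t in (0 : ℝ)..T, r t * ∏ j, g j (t + c j)‖ ∂(mB n 0 T) ≤ ρ * W ^ n := by
  have h := Pool.Agent.N879.PZ.t_FUB n 0 T T (Icc 0 T) r g hT.le hT measurableSet_Icc subset_rfl (Wb_cont hr 0 T) hg
  have e : ∀ c : Fin n → ℝ, (∫ t in (0 : ℝ)..T, r t * ∏ j, g j (t + c j)) =
      ∫ t in Icc 0 T, r t * ∏ j, g j (t + c j) := by
    intro c
    rw [intervalIntegral.integral_of_le hT.le, integral_Icc_eq_integral_Ioc]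
  simp only [e]
  refine h.trans ?_
  have h3 : ∫ t in Icc 0 T, ‖r t‖ * ∏ j, ∫ c in (0 : ℝ)..T, ‖g j (t + c)‖ ≤ ∫ t in Icc 0 T, ‖r t‖ * W ^ n := by
    refine integral_mono_of_nonneg ?_ ?_ ?_
    · refine Eventually.of_forall fun t => mul_nonneg (norm_nonneg _) (Finset.prod_nonneg fun j _ => ?_)
      exact intervalIntegral.integral_nonneg hT.le fun c _ => norm_nonneg _
    · exact ((hr.norm.mul continuous_const).continuousOn).integrableOn_compact isCompact_Icc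
    · rw [EventuallyLE, ae_restrict_iff' measurableSet_Icc]
      refine Eventually.of_forall fun t ht => ?_
      refine mul_le_mul_of_nonneg_left ?_ (norm_nonneg _)
      calc ∏ j, ∫ c in (0 : ℝ)..T, ‖g j (t + c)‖ ≤ ∏ _j : Fin n, W := by
            refine Finset.prod_le_prod (fun j _ => intervalIntegral.integral_nonneg hT.le fun c _ => norm_nonneg _)
              fun j _ => ?_
            exact (win_le (hg j).norm (fun x => norm_nonneg _) ht.1 ht.2).trans (h2 j)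
        _ = W ^ n := by simp
  refine h3.trans ?_
  rw [integral_mul_const, integral_Icc_eq_integral_Ioc, ← intervalIntegral.integral_of_le hT.le]
  have h4 : ∫ t in (0 : ℝ)..T, ‖r t‖ ≤ ρ := le_trans
    (intervalIntegral.integral_mono_interval le_rfl hT.le (by linarith) (Eventually.of_forall fun x => norm_nonneg _)
      (hr.norm.intervalIntegrable _ _)) h1
  gcongr

/-- mean square of the low part -/
lemma DL_sq {Cl : ℝ} (hCl : 0 < Cl) (hLC : ∀ (K : ℕ) (U : ℝ) (S : Finset (ℕ × ℕ)) (b : ℕ × ℕ → ℂ), 1 ≤ K → 1 ≤ U →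
    S ⊆ FR K → ∫ c in (0 : ℝ)..U, ‖∑ p ∈ S, b p * ee c p‖ ^ 2 ≤ Cl * (U + K) * ∑ p ∈ S, ‖b p‖ ^ 2)
    (hGRP : S_GRP) {T : ℝ} (hT : 1 ≤ T) (M N : ℕ) (hN : 1 ≤ N) (hNT : (N : ℝ) ≤ T) (a : ℝ) :
    ∫ u in (0 : ℝ)..(2 * T), ‖DL M N a u‖ ^ 2 ≤ 3 * Cl * (T * (1 + Real.log M) ^ 2 * (1 + Real.log N) ^ 2) := by
  have h1 := hLC N (2 * T) (FR N) (bz M a) hN (by linarith) subset_rfl
  have h2 : ∑ p ∈ FR N, ‖bz M a p‖ ^ 2 ≤ (1 + Real.log M) ^ 2 * (1 + Real.log N) ^ 2 := by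
    calc ∑ p ∈ FR N, ‖bz M a p‖ ^ 2 ≤ ∑ p ∈ FR N, (1 + Real.log M) ^ 2 * ((√(ht p))⁻¹) ^ 2 := by
          refine Finset.sum_le_sum fun p hp => ?_
          obtain ⟨p1, p2, -⟩ := Pool.Agent.Y379.GP.mem_FR hp
          rw [← mul_pow]
          exact pow_le_pow_left₀ (norm_nonneg _) ((hGRP M a).2.2 p p1 p2) 2
      _ = (1 + Real.log M) ^ 2 * ∑ p ∈ FR N, ((√(ht p))⁻¹) ^ 2 := by rw [Finset.mul_sum]
      _ ≤ _ := mul_le_mul_of_nonneg_left (Pool.Agent.N879.PZ.Winaux.sum1 N) (sq_nonneg _)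
  calc ∫ u in (0 : ℝ)..(2 * T), ‖DL M N a u‖ ^ 2 ≤ Cl * (2 * T + N) * ∑ p ∈ FR N, ‖bz M a p‖ ^ 2 := h1
    _ ≤ Cl * (2 * T + T) * ((1 + Real.log M) ^ 2 * (1 + Real.log N) ^ 2) := by
        gcongr
    _ = _ := by ring

/-- first moment from the second one -/
lemma one_of_two {f : ℝ → ℂ} (hf : Continuous f) {T s : ℝ} (hT : 0 < T) (hs : 0 < s) {V : ℝ}
    (h : ∫ u in (0 : ℝ)..(2 * T), ‖f u‖ ^ 2 ≤ V * (T * s ^ 2)) :
    ∫ u in (0 : ℝ)..(2 * T), ‖f u‖ ≤ (V + 1) * (T * s) := by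
  have i1 : IntervalIntegrable (fun u : ℝ => s⁻¹ / 2 * ‖f u‖ ^ 2) volume 0 (2 * T) :=
    (continuous_const.mul (hf.norm.pow 2)).intervalIntegrable _ _
  have i2 : IntervalIntegrable (fun _ : ℝ => s / 2) volume 0 (2 * T) := continuous_const.intervalIntegrable _ _
  have h6 : ∫ u in (0 : ℝ)..(2 * T), ‖f u‖ ≤ ∫ u in (0 : ℝ)..(2 * T), (s⁻¹ / 2 * ‖f u‖ ^ 2 + s / 2) := by
    refine intervalIntegral.integral_mono_on (by linarith) (hf.norm.intervalIntegrable _ _) (i1.add i2) fun t _ => ?_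
    have h7 : 0 ≤ s⁻¹ / 2 * (‖f t‖ - s) ^ 2 := by positivity
    have h8 : s⁻¹ / 2 * (‖f t‖ - s) ^ 2 = s⁻¹ / 2 * ‖f t‖ ^ 2 + s / 2 - ‖f t‖ := by
      field_simp
      ring
    linarith
  rw [intervalIntegral.integral_add i1 i2, intervalIntegral.integral_const_mul, intervalIntegral.integral_const,
    smul_eq_mul, sub_zero] at h6
  have hV : 0 ≤ V := by
    by_contra hV
    push Not at hV
    have h9 : 0 ≤ ∫ u in (0 : ℝ)..(2 * T), ‖f u‖ ^ 2 :=
      intervalIntegral.integral_nonneg (by linarith) fun u _ => by positivity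
    have h10 : 0 < T * s ^ 2 := by positivity
    nlinarith
  calc ∫ u in (0 : ℝ)..(2 * T), ‖f u‖ ≤ s⁻¹ / 2 * (∫ u in (0 : ℝ)..(2 * T), ‖f u‖ ^ 2) + 2 * T * (s / 2) := h6
    _ ≤ s⁻¹ / 2 * (V * (T * s ^ 2)) + 2 * T * (s / 2) := by gcongr
    _ = V / 2 * (T * s) + T * s := by field_simp
    _ ≤ _ := by
        have : 0 < T * s := by positivity
        nlinarith

lemma add3 {n : ℕ} {f g h : (Fin n → ℝ) → ℝ} (hf : Continuous f) (hg : Continuous g) (hh : Continuous h) (T : ℝ) :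
    ∫ c, (f c + g c + h c) ∂(mB n 0 T) = (∫ c, f c ∂(mB n 0 T)) + (∫ c, g c ∂(mB n 0 T)) + ∫ c, h c ∂(mB n 0 T) := by
  have i1 : Continuous fun c => f c + g c := hf.add hg
  rw [integral_add (mB_int i1 0 T) (mB_int hh 0 T), integral_add (mB_int hf 0 T) (mB_int hg 0 T)]

/-- the operator term -/
lemma term1 {n A' C1 : ℕ} (hn : 1 ≤ n) (hC1 : C1 = n * A' + 5) {T L C0 CV K V I b : ℝ} (hT : 0 < T) (hL : 1 ≤ L)
    (hC0 : 0 ≤ C0) (hCV : 0 ≤ CV) (hK : K = C0 * (T ^ 2 * L ^ 5 / L ^ C1)) (hV : V = CV * (T * L ^ A'))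
    (hI : I ≤ V) (hb : n * √(C0 * CV ^ n) ≤ b * L) :
    n * √(T ^ n * K * V ^ (n - 1) * I) ≤ b * (T * L ^ (n + 1)) * T ^ n := by
  have hL0 : 0 < L := by linarith
  have hV0 : 0 ≤ V := by rw [hV]; positivity
  have hK0 : 0 ≤ K := by rw [hK]; positivity
  have h1 : T ^ n * K * V ^ (n - 1) * I ≤ (C0 * CV ^ n) * (T ^ (n + 1)) ^ 2 := by
    calc T ^ n * K * V ^ (n - 1) * I ≤ T ^ n * K * V ^ (n - 1) * V := by gcongr
      _ = T ^ n * K * V ^ n := by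
          obtain ⟨m, rfl⟩ : ∃ m, n = m + 1 := ⟨n - 1, by omega⟩
          rw [Nat.add_sub_cancel, pow_succ V m]
          ring
      _ = (C0 * CV ^ n) * (T ^ (n + 1)) ^ 2 := by
          rw [hK, hV, hC1, mul_pow, mul_pow, ← pow_mul, mul_comm A' n, pow_add L (n * A') 5]
          field_simp
          ring
  have h2 : √(T ^ n * K * V ^ (n - 1) * I) ≤ √(C0 * CV ^ n) * T ^ (n + 1) := by
    refine (Real.sqrt_le_sqrt h1).trans ?_
    rw [Real.sqrt_mul (by positivity), Real.sqrt_sq (by positivity)]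
  calc n * √(T ^ n * K * V ^ (n - 1) * I) ≤ n * (√(C0 * CV ^ n) * T ^ (n + 1)) := by gcongr
    _ = n * √(C0 * CV ^ n) * T ^ (n + 1) := by ring
    _ ≤ b * L * T ^ (n + 1) := by gcongr
    _ = b * L ^ 1 * T ^ (n + 1) := by rw [pow_one]
    _ ≤ b * L ^ (n + 1) * T ^ (n + 1) := by
        have hb0 : 0 ≤ b := by
          by_contra hb0
          push Not at hb0
          have : 0 ≤ (n : ℝ) * √(C0 * CV ^ n) := by positivity
          nlinarith
        have : L ^ 1 ≤ L ^ (n + 1) := pow_le_pow_right₀ hL (by omega)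
        gcongr
    _ = _ := by ring

/-- the `L¹` terms -/
lemma term2 {n : ℕ} {T L s CB CW ρ W b q : ℝ} (hT : 0 < T) (hL : 1 ≤ L)
    (hρ : ρ = CB * (T * q)) (hW : W = CW * (T * L * s)) (hb : CB * CW ^ n * s ^ n * q ≤ b * L) :
    ρ * W ^ n ≤ b * (T * L ^ (n + 1)) * T ^ n := by
  have hL0 : 0 < L := by linarith
  calc ρ * W ^ n = (CB * CW ^ n * s ^ n * q) * (T * (L ^ n * T ^ n)) := by
        rw [hρ, hW, mul_pow, mul_pow, mul_pow]
        ring
    _ ≤ b * L * (T * (L ^ n * T ^ n)) := by gcongr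
    _ = _ := by rw [pow_succ]; ring

/-- the operator bound -/
lemma opK {C1 B N M : ℕ} {T L C0 : ℝ} (hT : 0 < T) (hL : 1 ≤ L) (hC0 : 0 ≤ C0) (hN : L ^ C1 / 2 ≤ N) (hN1 : 1 ≤ N)
    (hM : (M : ℝ) ≤ T / L ^ B) (hM1 : 1 ≤ M) (hlM : Real.log M ≤ L) (hB : C1 ≤ B) :
    C0 * ((1 + Real.log (M ^ 2 : ℕ)) ^ 3 * (1 + Real.log M) ^ 2 * (T ^ 2 / N + (M ^ 2 : ℕ))) ≤
      (324 * C0) * (T ^ 2 * L ^ 5 / L ^ C1) := by
  have hL0 : 0 < L := by linarith
  have hM1' : (1 : ℝ) ≤ M := by exact_mod_cast hM1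
  have hN1' : (1 : ℝ) ≤ N := by exact_mod_cast hN1
  have hlM0 : 0 ≤ Real.log M := Real.log_nonneg hM1'
  have e1 : Real.log ((M ^ 2 : ℕ) : ℝ) = 2 * Real.log M := by
    push_cast
    rw [Real.log_pow]
    push_cast
    ring
  have h1 : T ^ 2 / N ≤ 2 * (T ^ 2 / L ^ C1) := by
    rw [div_le_iff₀ (by linarith)]
    have : 2 * (T ^ 2 / L ^ C1) * N = (T ^ 2 / L ^ C1) * (2 * N) := by ring
    rw [this]
    calc T ^ 2 = (T ^ 2 / L ^ C1) * L ^ C1 := by field_simp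
      _ ≤ (T ^ 2 / L ^ C1) * (2 * N) := by
          have : L ^ C1 ≤ 2 * N := by linarith
          gcongr
  have h2 : ((M ^ 2 : ℕ) : ℝ) ≤ T ^ 2 / L ^ C1 := by
    push_cast
    calc (M : ℝ) ^ 2 ≤ (T / L ^ B) ^ 2 := by gcongr
      _ = T ^ 2 / (L ^ B * L ^ B) := by rw [div_pow]; ring
      _ ≤ T ^ 2 / (L ^ C1 * 1) := by
          have a1 : L ^ C1 ≤ L ^ B := pow_le_pow_right₀ hL hB
          have a2 : (1 : ℝ) ≤ L ^ B := one_le_pow₀ hL
          gcongr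
      _ = _ := by rw [mul_one]
  calc C0 * ((1 + Real.log (M ^ 2 : ℕ)) ^ 3 * (1 + Real.log M) ^ 2 * (T ^ 2 / N + (M ^ 2 : ℕ)))
      ≤ C0 * ((3 * L) ^ 3 * (2 * L) ^ 2 * (2 * (T ^ 2 / L ^ C1) + T ^ 2 / L ^ C1)) := by
        rw [e1]
        have a1 : 1 + 2 * Real.log M ≤ 3 * L := by linarith
        have a2 : 1 + Real.log M ≤ 2 * L := by linarith
        gcongr
    _ = _ := by ring

end Meanaux

open Meanaux in
set_option maxHeartbeats 4000000 in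
/-- MEAN -/
theorem t_MEAN (hFG : S_FG) (hGRP : S_GRP) (hOPM : S_OPM) (hTELX : S_TELX) (hMSM : S_MSM) : S_MEAN := by
  intro n α0 α ε hε
  obtain ⟨Cf, A, hCf, hFG1⟩ := hFG 1 le_rfl
  obtain ⟨C0, hC0, hOPM⟩ := hOPM
  obtain ⟨Cl, hCl, hLC⟩ := Pool.Agent.N879.PZ.t_LC
  obtain ⟨A', hA'⟩ : ∃ A', A' = A + 4 := ⟨_, rfl⟩
  obtain ⟨C1, hC1⟩ : ∃ C1, C1 = n * A' + 5 := ⟨_, rfl⟩
  obtain ⟨B, hB⟩ : ∃ B, B = 4 * n * C1 + C1 + 4 := ⟨_, rfl⟩
  obtain ⟨CB, AB, hCB, hFGB⟩ := hFG B (by omega)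
  obtain ⟨CV, hCV⟩ : ∃ CV, CV = Cf + 12 * Cl := ⟨_, rfl⟩
  obtain ⟨CW, hCW⟩ : ∃ CW, CW = Cf + (12 * Cl + 1) := ⟨_, rfl⟩
  have hCV0 : 0 < CV := by rw [hCV]; positivity
  have hCW0 : 0 < CW := by rw [hCW]; positivity
  obtain ⟨b, hb⟩ : ∃ b, b = ε / 4 := ⟨_, rfl⟩
  have hb0 : 0 < b := by rw [hb]; positivity
  obtain ⟨Y₀, hMSM⟩ := hMSM n B C1 α0 α (b ^ 2) (by omega) (by omega) (by positivity)
  refine ⟨Y₀, fun Y hY => ?_⟩
  obtain ⟨δ, hδ⟩ : ∃ δ, δ = b ^ 2 / (((n : ℝ) + 1) * (CB * CW ^ n * (1 + C1) ^ n)) ^ 2 := ⟨_, rfl⟩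
  have hδ0 : 0 < δ := by rw [hδ]; positivity
  have ev1 := ev_log _ (log_pow_small (2 * n + 1) hδ0)
  have ev2 := ev_log _ (log_pow_small 1 (show (0 : ℝ) < 1 / (1 + C1) by positivity))
  have evC1 := pow_log_le C1 (show (0 : ℝ) < 1 / 4 by norm_num)
  have evB := pow_log_le B (show (0 : ℝ) < 1 / 4 by norm_num)
  have hq : ∀ᶠ T : ℝ in atTop, 4 ≤ T ^ (1 / 4 : ℝ) := (tendsto_rpow_atTop (by norm_num)).eventually_ge_atTop _
  filter_upwards [hMSM Y hY, hFG1, hFGB, ev1, ev2, evC1, evB, hq, eventually_ge_atTop 3,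
    Real.tendsto_log_atTop.eventually_ge_atTop (max (max 2 (n * √(324 * C0 * CV ^ n) / b))
      (max |α0| (∑ j, |α j|)))] with T hMSM hFG1 hFGB ev1 ev2 evC1 evB hq hT3 hL
  have hL2 : 2 ≤ Real.log T := ((le_max_left _ _).trans (le_max_left _ _)).trans hL
  have hLb : n * √(324 * C0 * CV ^ n) / b ≤ Real.log T := ((le_max_right _ _).trans (le_max_left _ _)).trans hL
  have hLa0 : |α0| ≤ Real.log T := ((le_max_left _ _).trans (le_max_right _ _)).trans hL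
  have hLa : ∀ j, |α j| ≤ Real.log T := fun j =>
    (Finset.single_le_sum (f := fun j => |α j|) (fun i _ => abs_nonneg _) (Finset.mem_univ j)).trans
      (((le_max_right _ _).trans (le_max_right _ _)).trans hL)
  rw [div_le_iff₀' hb0] at hLb
  obtain ⟨L, hLd⟩ : ∃ L, L = Real.log T := ⟨_, rfl⟩
  obtain ⟨N, hN⟩ : ∃ N, N = ⌊Real.log T ^ C1⌋₊ := ⟨_, rfl⟩
  obtain ⟨M, hM⟩ : ∃ M, M = Mt B T := ⟨_, rfl⟩
  have hT0 : 0 < T := by linarith
  have hT1 : 1 ≤ T := by linarith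
  have hL0 : 0 < L := by rw [hLd]; linarith
  have hL1 : 1 ≤ L := by rw [hLd]; linarith
  rw [← hLd] at ev1 ev2 evC1 evB hL2 hLb hLa0 hN
  have hlL : 0 ≤ Real.log L := Real.log_nonneg hL1
  have hC1L : (2 : ℝ) ≤ L ^ C1 := hL2.trans (le_self_pow₀ hL1 (by omega))
  -- the height
  have hNle : (N : ℝ) ≤ L ^ C1 := by rw [hN]; exact Nat.floor_le (by positivity)
  have hNge : L ^ C1 / 2 ≤ N := by
    have := Nat.lt_floor_add_one (L ^ C1)
    rw [← hN] at this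
    linarith
  have hN1 : 1 ≤ N := by
    have : (1 : ℝ) ≤ N := by linarith
    exact_mod_cast this
  have hN1' : (1 : ℝ) ≤ N := by exact_mod_cast hN1
  -- the length
  have hrp : T ^ (1 / 4 : ℝ) * T ^ (1 / 4 : ℝ) ≤ T := by
    rw [← Real.rpow_add hT0]
    calc T ^ (1 / 4 + 1 / 4 : ℝ) ≤ T ^ (1 : ℝ) := Real.rpow_le_rpow_of_exponent_le hT1 (by norm_num)
      _ = T := Real.rpow_one T
  have hrp3 : T ^ (1 / 4 : ℝ) * (T ^ (1 / 4 : ℝ) * T ^ (1 / 4 : ℝ)) ≤ T := by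
    rw [← Real.rpow_add hT0, ← Real.rpow_add hT0]
    calc T ^ (1 / 4 + (1 / 4 + 1 / 4) : ℝ) ≤ T ^ (1 : ℝ) := Real.rpow_le_rpow_of_exponent_le hT1 (by norm_num)
      _ = T := Real.rpow_one T
  have hNT : (N : ℝ) ≤ T := by
    refine hNle.trans (evC1.trans ?_)
    nlinarith
  have hMle : (M : ℝ) ≤ T / L ^ B := by
    rw [hM, Mt, ← hLd]
    exact Nat.floor_le (by positivity)
  have hMge : T / L ^ B - 1 ≤ M := by
    rw [hM, Mt, ← hLd]
    have := Nat.lt_floor_add_one (T / L ^ B)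
    linarith
  have hTB : T ^ (1 / 4 : ℝ) * T ^ (1 / 4 : ℝ) ≤ T / L ^ B := by
    rw [le_div_iff₀ (by positivity)]
    calc T ^ (1 / 4 : ℝ) * T ^ (1 / 4 : ℝ) * L ^ B ≤ T ^ (1 / 4 : ℝ) * T ^ (1 / 4 : ℝ) * T ^ (1 / 4 : ℝ) := by gcongr
      _ = T ^ (1 / 4 : ℝ) * (T ^ (1 / 4 : ℝ) * T ^ (1 / 4 : ℝ)) := by ring
      _ ≤ T := hrp3
  have hNM' : (N : ℝ) ≤ M := by
    have h1 : (N : ℝ) ≤ T ^ (1 / 4 : ℝ) := hNle.trans evC1
    nlinarith
  have hNM : N ≤ M := by exact_mod_cast hNM'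
  have hM1 : 1 ≤ M := hN1.trans hNM
  have hM1' : (1 : ℝ) ≤ M := by exact_mod_cast hM1
  have hLB1 : (1 : ℝ) ≤ L ^ B := one_le_pow₀ hL1
  have hMT : (M : ℝ) ≤ T := hMle.trans (div_le_self hT0.le hLB1)
  have hlM : Real.log M ≤ L := by rw [hLd]; exact Real.log_le_log (by linarith) hMT
  have hlM0 : 0 ≤ Real.log M := Real.log_nonneg hM1'
  have hlN0 : 0 ≤ Real.log N := Real.log_nonneg hN1'
  obtain ⟨s, hs⟩ : ∃ s, s = 1 + Real.log N := ⟨_, rfl⟩
  have hs1 : 1 ≤ s := by rw [hs]; linarith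
  have hsle : s ≤ (1 + C1) * (1 + Real.log L) := by
    have h1 : Real.log N ≤ C1 * Real.log L := by
      rw [← Real.log_pow]
      exact Real.log_le_log (by linarith) hNle
    have h2 : (0 : ℝ) ≤ C1 := Nat.cast_nonneg _
    rw [hs]
    nlinarith
  have hsL : s ≤ L := by
    refine hsle.trans ?_
    rw [pow_one] at ev2
    calc (1 + C1) * (1 + Real.log L) ≤ (1 + C1) * (1 / (1 + C1) * L) := by gcongr
      _ = L := by field_simp
  have ha0 : |α0 / L| ≤ 1 := by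
    rw [abs_div, abs_of_pos hL0, div_le_one hL0]
    exact hLa0
  have ha : ∀ j, |α j / L| ≤ 1 := by
    intro j
    rw [abs_div, abs_of_pos hL0, div_le_one hL0, hLd]
    exact hLa j
  -- the parameters
  obtain ⟨q, hqd⟩ : ∃ q, q = √(L * Real.log L) := ⟨_, rfl⟩
  obtain ⟨ρ, hρ⟩ : ∃ ρ, ρ = CB * (T * q) := ⟨_, rfl⟩
  obtain ⟨K, hK⟩ : ∃ K, K = 324 * C0 * (T ^ 2 * L ^ 5 / L ^ C1) := ⟨_, rfl⟩
  obtain ⟨V, hV⟩ : ∃ V, V = CV * (T * L ^ A') := ⟨_, rfl⟩
  obtain ⟨W, hW⟩ : ∃ W, W = CW * (T * L * s) := ⟨_, rfl⟩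
  have hq0 : 0 ≤ q := by rw [hqd]; exact Real.sqrt_nonneg _
  have hρ0 : 0 ≤ ρ := by rw [hρ]; positivity
  have hK0 : 0 ≤ K := by rw [hK]; positivity
  have hV0 : 0 ≤ V := by rw [hV]; positivity
  have hW0 : 0 ≤ W := by rw [hW]; positivity
  have hsmall : ((n : ℝ) + 1) * (CB * CW ^ n * s ^ n * q) ≤ b * L := by
    have h1 : s ^ n * q ≤ (1 + C1) ^ n * √(δ * L * L) := by
      have e1 : s ^ n ≤ (1 + C1) ^ n * (1 + Real.log L) ^ n := by
        rw [← mul_pow]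
        exact pow_le_pow_left₀ (by linarith) hsle n
      have e2 : (1 + Real.log L) ^ n * q ≤ √(δ * L * L) := by
        apply Real.le_sqrt_of_sq_le
        rw [hqd, mul_pow, Real.sq_sqrt (by positivity)]
        calc ((1 + Real.log L) ^ n) ^ 2 * (L * Real.log L)
            ≤ ((1 + Real.log L) ^ n) ^ 2 * (L * (1 + Real.log L)) := by gcongr; linarith
          _ = (1 + Real.log L) ^ (2 * n + 1) * L := by ring
          _ ≤ δ * L * L := by gcongr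
      calc s ^ n * q ≤ (1 + C1) ^ n * (1 + Real.log L) ^ n * q := by gcongr
        _ = (1 + C1) ^ n * ((1 + Real.log L) ^ n * q) := by ring
        _ ≤ _ := by gcongr
    have h2 : √(δ * L * L) = b / (((n : ℝ) + 1) * (CB * CW ^ n * (1 + C1) ^ n)) * L := by
      have e3 : δ * L * L = (b / (((n : ℝ) + 1) * (CB * CW ^ n * (1 + C1) ^ n)) * L) ^ 2 := by
        obtain ⟨X, hX⟩ : ∃ X, X = ((n : ℝ) + 1) * (CB * CW ^ n * (1 + C1) ^ n) := ⟨_, rfl⟩
        rw [hδ, ← hX]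
        ring
      rw [e3, Real.sqrt_sq (by positivity)]
    calc ((n : ℝ) + 1) * (CB * CW ^ n * s ^ n * q) = ((n : ℝ) + 1) * (CB * CW ^ n * (s ^ n * q)) := by ring
      _ ≤ ((n : ℝ) + 1) * (CB * CW ^ n * ((1 + C1) ^ n * √(δ * L * L))) := by gcongr
      _ = b * L := by rw [h2]; field_simp
  have hnn : (0 : ℝ) ≤ n := Nat.cast_nonneg n
  have hbase0 : 0 ≤ CB * CW ^ n * s ^ n * q := by positivity
  -- the functions
  obtain ⟨fG0, fG1, -⟩ := hFG1 (α0 / L) ha0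
  have fB0 := (hFGB (α0 / L) ha0).2.2
  rw [← hLd] at fG0 fG1
  rw [← hLd, ← hM, ← hqd, ← hρ] at fB0
  have hLA : L ^ A ≤ L ^ A' := pow_le_pow_right₀ hL1 (by omega)
  have hL4 : L ^ 4 ≤ L ^ A' := pow_le_pow_right₀ hL1 (by omega)
  have vf : ∀ a : ℝ, |a| ≤ 1 → ∫ u in (0 : ℝ)..(2 * T), ‖Gz a u‖ ^ 2 ≤ V := by
    intro a ha
    have h1 := (hFG1 a ha).2.1
    rw [← hLd] at h1
    refine h1.trans ?_
    rw [hV]
    have : Cf ≤ CV := by rw [hCV]; linarith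
    gcongr
  have wf : ∀ a : ℝ, |a| ≤ 1 → ∫ u in (0 : ℝ)..(2 * T), ‖Gz a u‖ ≤ W := by
    intro a ha
    have h1 := (hFG1 a ha).1
    rw [← hLd] at h1
    refine h1.trans ?_
    rw [hW]
    have h2 : Cf ≤ CW := by rw [hCW]; linarith
    calc Cf * (T * L) ≤ CW * (T * L) := by gcongr
      _ = CW * (T * L * 1) := by ring
      _ ≤ CW * (T * L * s) := by gcongr
  have hDs : ∀ a : ℝ, ∫ u in (0 : ℝ)..(2 * T), ‖DL M N a u‖ ^ 2 ≤ 12 * Cl * (T * (L * s) ^ 2) := by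
    intro a
    have h1 := DL_sq hCl hLC hGRP hT1 M N hN1 hNT a
    refine h1.trans ?_
    have h2 : 1 + Real.log M ≤ 2 * L := by linarith
    calc 3 * Cl * (T * (1 + Real.log M) ^ 2 * (1 + Real.log N) ^ 2) ≤ 3 * Cl * (T * (2 * L) ^ 2 * s ^ 2) := by
          rw [hs]; gcongr
      _ = _ := by ring
  have vg : ∀ a : ℝ, ∫ u in (0 : ℝ)..(2 * T), ‖DL M N a u‖ ^ 2 ≤ V := by
    intro a
    refine (hDs a).trans ?_
    rw [hV]
    have h2 : 12 * Cl ≤ CV := by rw [hCV]; linarith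
    calc 12 * Cl * (T * (L * s) ^ 2) ≤ 12 * Cl * (T * (L * L) ^ 2) := by gcongr
      _ = 12 * Cl * (T * L ^ 4) := by ring
      _ ≤ _ := by gcongr
  have wg : ∀ a : ℝ, ∫ u in (0 : ℝ)..(2 * T), ‖DL M N a u‖ ≤ W := by
    intro a
    refine (one_of_two (DL_cont M N a) hT0 (show 0 < L * s by positivity) (hDs a)).trans ?_
    rw [hW]
    have h2 : 12 * Cl + 1 ≤ CW := by rw [hCW]; linarith
    calc (12 * Cl + 1) * (T * (L * s)) ≤ CW * (T * (L * s)) := by gcongr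
      _ = _ := by ring
  have rf : ∀ a : ℝ, |a| ≤ 1 → ∫ u in (0 : ℝ)..(2 * T), ‖Gz a u - GM M a u‖ ≤ ρ := by
    intro a ha
    have h1 := (hFGB a ha).2.2
    rw [← hLd, ← hM, ← hqd, ← hρ] at h1
    exact h1
  have hop : ∀ a : ℝ, ∀ F : ℝ → ℂ, Wb 0 T F → ∫ c in (0 : ℝ)..T, ‖∫ t in (0 : ℝ)..T, F t * HI M N a (t + c)‖ ^ 2 ≤
      K * ∫ t in (0 : ℝ)..T, ‖F t‖ ^ 2 := by
    intro a F hF
    have h1 := hOPM N (M ^ 2) T (1 + Real.log M) ((fr M).filter (fun p => (N : ℝ) < ht p)) (bz M a) F hN1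
      (Nat.one_le_pow _ _ hM1) hT1 (by linarith) (by
        intro p hp
        rw [Finset.mem_filter] at hp
        have hp1 := hp.1
        unfold fr at hp1
        rw [Finset.mem_filter, Finset.mem_product, Finset.mem_Icc, Finset.mem_Icc] at hp1
        obtain ⟨⟨⟨a1, a2⟩, a3, a4⟩, a5⟩ := hp1
        unfold Pool.Agent.Y969.GP.FR Pool.Agent.Y969.GP.PS
        rw [Finset.mem_filter, Finset.mem_filter, Finset.mem_product, Finset.mem_Icc, Finset.mem_Icc]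
        have b1 : p.1 * p.2 ≤ M ^ 2 := by rw [pow_two]; exact Nat.mul_le_mul a2 a4
        have b2 : M ≤ M ^ 2 := by nlinarith
        exact ⟨⟨⟨⟨a1, a2.trans b2⟩, a3, a4.trans b2⟩, b1⟩, a5⟩) (by
        intro p hp
        rw [Finset.mem_filter] at hp
        have hp1 := hp.1
        unfold fr at hp1
        rw [Finset.mem_filter, Finset.mem_product, Finset.mem_Icc, Finset.mem_Icc] at hp1
        exact ⟨hp.2, (hGRP M a).2.2 p hp1.1.1.1 hp1.1.2.1⟩) hF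
    refine h1.trans ?_
    have h2 := opK hT0 hL1 hC0.le hNge hN1 hMle hM1 hlM (show C1 ≤ B by omega)
    rw [← hK] at h2
    have h3 : 0 ≤ ∫ t in (0 : ℝ)..T, ‖F t‖ ^ 2 := intervalIntegral.integral_nonneg hT0.le fun t _ => by positivity
    exact mul_le_mul_of_nonneg_right h2 h3
  have cG := fun a => Gz_cont a
  have cD := fun a => DL_cont M N a
  have cH := fun a => HI_cont M N a
  have cM := fun a => Msmaux.GM_cont M a
  -- the telescoping
  have tel := hTELX n T K V W ρ (Gz (α0 / L)) (fun j => Gz (α j / L)) (fun j => DL M N (α j / L))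
    (fun j => HI M N (α j / L)) (fun j u => Gz (α j / L) u - GM M (α j / L) u) hT0 hK0 hV0 hW0 hρ0
    (Wb_cont (cG _) 0 T) (fun j => cG _) (fun j => cD _) (fun j => cH _) (fun j => (cG _).sub (cM _))
    (fun j u => by
      have := (hGRP M (α j / L)).2.1 N u hNM
      rw [this]
      ring) (fun j => hop _) (fun j => ⟨vf _ (ha j), vg _, wf _ (ha j), wg _, rf _ (ha j)⟩)
  have hI2 : ∫ t in (0 : ℝ)..T, ‖Gz (α0 / L) t‖ ^ 2 ≤ V := le_trans
    (intervalIntegral.integral_mono_interval le_rfl hT0.le (by linarith) (Eventually.of_forall fun x => by positivity)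
      (((cG _).norm.pow 2).intervalIntegrable _ _)) (vf _ ha0)
  have hI1 : ∫ t in (0 : ℝ)..T, ‖Gz (α0 / L) t‖ ≤ W := le_trans
    (intervalIntegral.integral_mono_interval le_rfl hT0.le (by linarith) (Eventually.of_forall fun x => by positivity)
      (((cG _).norm).intervalIntegrable _ _)) (wf _ ha0)
  have hI10 : 0 ≤ ∫ t in (0 : ℝ)..T, ‖Gz (α0 / L) t‖ := intervalIntegral.integral_nonneg hT0.le fun t _ => norm_nonneg _
  have t1 : n * √(T ^ n * K * V ^ (n - 1) * ∫ t in (0 : ℝ)..T, ‖Gz (α0 / L) t‖ ^ 2) ≤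
      b * (T * L ^ (n + 1)) * T ^ n := by
    rcases Nat.eq_zero_or_pos n with hn | hn
    · rw [hn]
      simp only [Nat.cast_zero, zero_mul]
      positivity
    · exact term1 hn hC1 hT0 hL1 (by positivity) hCV0.le hK hV hI2 hLb
  have t2 : n * (ρ * W ^ (n - 1) * ∫ t in (0 : ℝ)..T, ‖Gz (α0 / L) t‖) ≤ b * (T * L ^ (n + 1)) * T ^ n := by
    rcases Nat.eq_zero_or_pos n with hn | hn
    · rw [hn]
      simp only [Nat.cast_zero, zero_mul]
      positivity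
    · have h1 : ρ * W ^ (n - 1) * ∫ t in (0 : ℝ)..T, ‖Gz (α0 / L) t‖ ≤ ρ * W ^ n := by
        calc ρ * W ^ (n - 1) * ∫ t in (0 : ℝ)..T, ‖Gz (α0 / L) t‖ ≤ ρ * W ^ (n - 1) * W := by gcongr
          _ = ρ * W ^ n := by
              obtain ⟨m, rfl⟩ : ∃ m, n = m + 1 := ⟨n - 1, by omega⟩
              rw [Nat.add_sub_cancel, pow_succ W m]
              ring
      have h2 : (n * CB) * CW ^ n * s ^ n * q ≤ b * L := by
        refine le_trans ?_ hsmall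
        have : (n : ℝ) * (CB * CW ^ n * s ^ n * q) ≤ ((n : ℝ) + 1) * (CB * CW ^ n * s ^ n * q) := by
          gcongr
          linarith
        linarith
      have h3 := term2 (n := n) (CB := n * CB) (ρ := n * ρ) hT0 hL1 (by rw [hρ]; ring) hW h2
      calc n * (ρ * W ^ (n - 1) * ∫ t in (0 : ℝ)..T, ‖Gz (α0 / L) t‖) ≤ n * (ρ * W ^ n) := by gcongr
        _ = n * ρ * W ^ n := by ring
        _ ≤ _ := h3
  have t3 : ∫ c, ‖∫ t in (0 : ℝ)..T, (Gz (α0 / L) t - GM M (α0 / L) t) * ∏ j, DL M N (α j / L) (t + c j)‖ ∂(mB n 0 T) ≤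
      b * (T * L ^ (n + 1)) * T ^ n := by
    have h1 := base (n := n) hT0 hW0 ((cG (α0 / L)).sub (cM (α0 / L))) (g := fun j => DL M N (α j / L)) (fun j => cD _)
      (rf _ ha0) (fun j => wg _)
    refine h1.trans (term2 hT0 hL1 hρ hW ?_)
    refine le_trans ?_ hsmall
    nlinarith
  have hM2 : Continuous fun c : Fin n → ℝ => (∫ t in (0 : ℝ)..T, GM M (α0 / L) t * ∏ j, DL M N (α j / L) (t + c j)) -
      ((T * L ^ (n + 1) : ℝ) : ℂ) * ((kap α0 * ∏ j, kap (α j)) * BY1 n Y c) :=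
    (cont_int hT0.le (cM _) (fun j => cD _)).sub (continuous_const.mul (continuous_const.mul (BY1_cont n Y)))
  have t4 : ∫ c, ‖(∫ t in (0 : ℝ)..T, GM M (α0 / L) t * ∏ j, DL M N (α j / L) (t + c j)) -
      ((T * L ^ (n + 1) : ℝ) : ℂ) * ((kap α0 * ∏ j, kap (α j)) * BY1 n Y c)‖ ∂(mB n 0 T) ≤
      b * (T * L ^ (n + 1)) * T ^ n := by
    refine mB_cs hT0.le hM2 (by positivity) ?_
    rw [← hLd, ← hM, ← hN] at hMSM
    refine hMSM.trans (le_of_eq ?_)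
    ring
  -- conclusion
  have hD0 : 0 < T * L ^ (n + 1) := by positivity
  have key : ∀ c : Fin n → ℝ, JJ α0 α T c / ((T * L ^ (n + 1) : ℝ) : ℂ) - (kap α0 * ∏ j, kap (α j)) * BY1 n Y c =
      (((T * L ^ (n + 1))⁻¹ : ℝ) : ℂ) * ((∫ t in (0 : ℝ)..T, Gz (α0 / L) t *
        (∏ j, Gz (α j / L) (t + c j) - ∏ j, DL M N (α j / L) (t + c j))) +
      (∫ t in (0 : ℝ)..T, (Gz (α0 / L) t - GM M (α0 / L) t) * ∏ j, DL M N (α j / L) (t + c j)) +
      ((∫ t in (0 : ℝ)..T, GM M (α0 / L) t * ∏ j, DL M N (α j / L) (t + c j)) -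
        ((T * L ^ (n + 1) : ℝ) : ℂ) * ((kap α0 * ∏ j, kap (α j)) * BY1 n Y c))) := by
    intro c
    have cp1 : Continuous fun t : ℝ => ∏ j, Gz (α j / L) (t + c j) :=
      continuous_finsetProd _ fun j _ => (cG _).comp (by fun_prop)
    have cp2 : Continuous fun t : ℝ => ∏ j, DL M N (α j / L) (t + c j) :=
      continuous_finsetProd _ fun j _ => (cD _).comp (by fun_prop)
    have e1 : (∫ t in (0 : ℝ)..T, Gz (α0 / L) t *
        (∏ j, Gz (α j / L) (t + c j) - ∏ j, DL M N (α j / L) (t + c j))) =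
        JJ α0 α T c - ∫ t in (0 : ℝ)..T, Gz (α0 / L) t * ∏ j, DL M N (α j / L) (t + c j) := by
      unfold JJ
      have i1 : Continuous fun t : ℝ => Gz (α0 / L) t * ∏ j, Gz (α j / L) (t + c j) := (cG _).mul cp1
      have i2 : Continuous fun t : ℝ => Gz (α0 / L) t * ∏ j, DL M N (α j / L) (t + c j) := (cG _).mul cp2
      rw [← hLd, ← intervalIntegral.integral_sub (i1.intervalIntegrable _ _) (i2.intervalIntegrable _ _)]
      refine intervalIntegral.integral_congr fun t _ => ?_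
      ring
    have e2 : (∫ t in (0 : ℝ)..T, (Gz (α0 / L) t - GM M (α0 / L) t) * ∏ j, DL M N (α j / L) (t + c j)) =
        (∫ t in (0 : ℝ)..T, Gz (α0 / L) t * ∏ j, DL M N (α j / L) (t + c j)) -
        ∫ t in (0 : ℝ)..T, GM M (α0 / L) t * ∏ j, DL M N (α j / L) (t + c j) := by
      have i1 : Continuous fun t : ℝ => Gz (α0 / L) t * ∏ j, DL M N (α j / L) (t + c j) := (cG _).mul cp2
      have i2 : Continuous fun t : ℝ => GM M (α0 / L) t * ∏ j, DL M N (α j / L) (t + c j) := (cM _).mul cp2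
      rw [← intervalIntegral.integral_sub (i1.intervalIntegrable _ _) (i2.intervalIntegrable _ _)]
      refine intervalIntegral.integral_congr fun t _ => ?_
      ring
    rw [e1, e2]
    have hne : ((T * L ^ (n + 1) : ℝ) : ℂ) ≠ 0 := by exact_mod_cast hD0.ne'
    rw [Complex.ofReal_inv]
    field_simp
    ring
  rw [← hLd]
  simp only [key]
  have c1 : Continuous fun c : Fin n → ℝ => ∫ t in (0 : ℝ)..T, Gz (α0 / L) t *
        (∏ j, Gz (α j / L) (t + c j) - ∏ j, DL M N (α j / L) (t + c j)) := by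
    have h1 : (fun c : Fin n → ℝ => ∫ t in (0 : ℝ)..T, Gz (α0 / L) t *
        (∏ j, Gz (α j / L) (t + c j) - ∏ j, DL M N (α j / L) (t + c j))) = fun c : Fin n → ℝ =>
        (∫ t in (0 : ℝ)..T, Gz (α0 / L) t * ∏ j, Gz (α j / L) (t + c j)) -
        ∫ t in (0 : ℝ)..T, Gz (α0 / L) t * ∏ j, DL M N (α j / L) (t + c j) := by
      funext c
      have cp1 : Continuous fun t : ℝ => ∏ j, Gz (α j / L) (t + c j) :=
        continuous_finsetProd _ fun j _ => (cG _).comp (by fun_prop)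
      have cp2 : Continuous fun t : ℝ => ∏ j, DL M N (α j / L) (t + c j) :=
        continuous_finsetProd _ fun j _ => (cD _).comp (by fun_prop)
      have i1 : Continuous fun t : ℝ => Gz (α0 / L) t * ∏ j, Gz (α j / L) (t + c j) := (cG _).mul cp1
      have i2 : Continuous fun t : ℝ => Gz (α0 / L) t * ∏ j, DL M N (α j / L) (t + c j) := (cG _).mul cp2
      rw [← intervalIntegral.integral_sub (i1.intervalIntegrable _ _) (i2.intervalIntegrable _ _)]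
      refine intervalIntegral.integral_congr fun t _ => ?_
      ring
    rw [h1]
    exact (cont_int hT0.le (cG _) (fun j => cG _)).sub (cont_int hT0.le (cG _) (fun j => cD _))
  have c2 : Continuous fun c : Fin n → ℝ =>
      ∫ t in (0 : ℝ)..T, (Gz (α0 / L) t - GM M (α0 / L) t) * ∏ j, DL M N (α j / L) (t + c j) :=
    cont_int hT0.le ((cG _).sub (cM _)) (fun j => cD _)
  have fin : ∫ c, ‖(((T * L ^ (n + 1))⁻¹ : ℝ) : ℂ) * ((∫ t in (0 : ℝ)..T, Gz (α0 / L) t *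
        (∏ j, Gz (α j / L) (t + c j) - ∏ j, DL M N (α j / L) (t + c j))) +
      (∫ t in (0 : ℝ)..T, (Gz (α0 / L) t - GM M (α0 / L) t) * ∏ j, DL M N (α j / L) (t + c j)) +
      ((∫ t in (0 : ℝ)..T, GM M (α0 / L) t * ∏ j, DL M N (α j / L) (t + c j)) -
        ((T * L ^ (n + 1) : ℝ) : ℂ) * ((kap α0 * ∏ j, kap (α j)) * BY1 n Y c)))‖ ∂(mB n 0 T) ≤
      ∫ c, (T * L ^ (n + 1))⁻¹ * (‖∫ t in (0 : ℝ)..T, Gz (α0 / L) t *
        (∏ j, Gz (α j / L) (t + c j) - ∏ j, DL M N (α j / L) (t + c j))‖ +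
      ‖∫ t in (0 : ℝ)..T, (Gz (α0 / L) t - GM M (α0 / L) t) * ∏ j, DL M N (α j / L) (t + c j)‖ +
      ‖(∫ t in (0 : ℝ)..T, GM M (α0 / L) t * ∏ j, DL M N (α j / L) (t + c j)) -
        ((T * L ^ (n + 1) : ℝ) : ℂ) * ((kap α0 * ∏ j, kap (α j)) * BY1 n Y c)‖) ∂(mB n 0 T) := by
    refine integral_mono_of_nonneg (Eventually.of_forall fun c => norm_nonneg _) ?_ (Eventually.of_forall fun c => ?_)
    · exact (mB_int ((c1.norm.add c2.norm).add hM2.norm) 0 T).const_mul _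
    · simp only
      rw [norm_mul, Complex.norm_real, Real.norm_eq_abs, abs_of_pos (by positivity)]
      refine mul_le_mul_of_nonneg_left ?_ (by positivity)
      exact (norm_add_le _ _).trans (add_le_add (norm_add_le _ _) le_rfl)
  refine fin.trans ?_
  rw [integral_const_mul, add3 c1.norm c2.norm hM2.norm T]
  have htel := tel.trans (add_le_add t1 t2)
  calc _ ≤ (T * L ^ (n + 1))⁻¹ * ((b * (T * L ^ (n + 1)) * T ^ n + b * (T * L ^ (n + 1)) * T ^ n) +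
        b * (T * L ^ (n + 1)) * T ^ n + b * (T * L ^ (n + 1)) * T ^ n) := by
        refine mul_le_mul_of_nonneg_left ?_ (by positivity)
        exact add_le_add (add_le_add htel t3) t4
    _ = ε * T ^ n := by
        rw [hb]
        field_simp
        ring

end Pool.Agent.L0h37.KM
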