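import Pool.Agent.L0h37.KM.LED
import Pool.Agent.L0h37.KM.Fin
import Pool.Agent.N879.PZ.Asm4
import Pool.Agent.N879.PZ.Ker
import Pool.Agent.N879.PZ.Kh
import Pool.Agent.N879.PZ.Kl
import Pool.Agent.N879.PZ.Gcm
import Pool.Agent.N879.PZ.Sml
import Pool.Agent.N879.PZ.Tw
import Pool.Agent.N879.PZ.Msq
import Pool.Agent.N879.PZ.Telc
import Pool.Agent.N879.PZ.M4l
import Pool.Agent.N879.PZ.Win

set_option autoImplicit false

/-! Assembly of the start project N879/PZ (helper879): shifts of the size of a power of `log T`. -/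

namespace Pool.Agent.L0h37.KM

open Pool.Agent.N879.PZ

theorem pz_main : S_MAIN2 := by
  have hM4L : S_M4L := t_M4L t_AFX t_CRD t_LT
  have hWIN : S_WIN := t_WIN t_LC
  have hGCM : S_GCM := t_GCM hM4L
  have hMEAN : S_MEAN2 := t_MEAN2 (t_KER t_AFX (t_KH t_CRD t_LC t_LT) t_KL) t_TELC t_CTG hM4L hWIN hGCM
    (t_SML t_FUB hM4L) (t_GCD t_FUB hM4L hWIN hGCM) (t_LED hWIN gp_sm) (t_MSQ (t_TW t_AFX t_CRD))
  exact t_MAIN2 t_CTG hMEAN k_EUL1 k_LB1 k_ZE1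

end Pool.Agent.L0h37.KM
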