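import Pool.Agent.L0h37.KM.Stm2

set_option autoImplicit false

/-! Project KM, module SEC (helper33): orthonormality of the secular coefficients. -/

namespace Pool.Agent.L0h37.KM

open Complex Filter Topology MeasureTheory Set
open scoped Matrix ComplexConjugate
open Pool.Agent.R446.KR (haarU Wk ig pp av av_int cont_int)

noncomputable section

namespace SEC

/-! ### Cauchy-Binet (the real version is in `H801R3/SB/CB.lean`) -/

theorem cb_aux {m : ℕ} {ι : Type*} [Fintype ι] [DecidableEq ι] (P : Matrix (Fin m) ι ℂ)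
    (Q : Matrix ι (Fin m) ℂ) :
    (P * Q).det = ∑ a : Fin m → ι, (P.submatrix id a).det * ∏ i, Q (a i) i := by
  rw [Matrix.det_apply']
  have h1 : ∀ σ : Equiv.Perm (Fin m), ∏ i, (P * Q) (σ i) i =
      ∑ a : Fin m → ι, (∏ i, P (σ i) (a i)) * ∏ i, Q (a i) i := by
    intro σ
    simp only [Matrix.mul_apply]
    rw [Finset.prod_univ_sum, Fintype.piFinset_univ]
    apply Finset.sum_congr rfl
    intro a _
    rw [Finset.prod_mul_distrib]
  simp only [h1, Finset.mul_sum]
  rw [Finset.sum_comm]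
  apply Finset.sum_congr rfl
  intro a _
  rw [Matrix.det_apply', Finset.sum_mul]
  apply Finset.sum_congr rfl
  intro σ _
  simp only [Matrix.submatrix_apply, id]
  ring

/-- Cauchy-Binet with ordered tuples. -/
theorem cauchyBinet {m : ℕ} {ι : Type*} [Fintype ι] [DecidableEq ι] (P : Matrix (Fin m) ι ℂ)
    (Q : Matrix ι (Fin m) ℂ) :
    (m.factorial : ℂ) * (P * Q).det =
      ∑ a : Fin m → ι, (P.submatrix id a).det * (Q.submatrix a id).det := by
  have h1 : ∀ τ : Equiv.Perm (Fin m), (P * Q).det =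
      ∑ a : Fin m → ι, (P.submatrix id a).det *
        (((Equiv.Perm.sign τ : ℤ) : ℂ) * ∏ i, Q (a (τ i)) i) := by
    intro τ
    rw [cb_aux, ← Equiv.sum_comp (Equiv.arrowCongr τ.symm (Equiv.refl ι))]
    apply Finset.sum_congr rfl
    intro a _
    have e : (Equiv.arrowCongr τ.symm (Equiv.refl ι)) a = a ∘ τ := by
      ext i
      simp [Equiv.arrowCongr]
    rw [e]
    have e2 : P.submatrix id (a ∘ τ) = (P.submatrix id a).submatrix id τ := rfl
    rw [e2, Matrix.det_permute']
    simp only [Function.comp_apply]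
    ring
  calc (m.factorial : ℂ) * (P * Q).det = ∑ τ : Equiv.Perm (Fin m), (P * Q).det := by
        rw [Finset.sum_const, Finset.card_univ, Fintype.card_perm, Fintype.card_fin, nsmul_eq_mul]
    _ = ∑ τ : Equiv.Perm (Fin m), ∑ a : Fin m → ι, (P.submatrix id a).det *
      (((Equiv.Perm.sign τ : ℤ) : ℂ) * ∏ i, Q (a (τ i)) i) :=
        Finset.sum_congr rfl (fun τ _ => h1 τ)
    _ = _ := by
        rw [Finset.sum_comm]
        apply Finset.sum_congr rfl
        intro a _
        rw [← Finset.mul_sum, Matrix.det_apply' (Q.submatrix a id)]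
        rfl

variable {N : ℕ}

/-- the minors -/
def E {m : ℕ} (a b : Fin m → Fin N) (U : Matrix (Fin N) (Fin N) ℂ) : ℂ := (U.submatrix a b).det

theorem E_cont {m : ℕ} (a b : Fin m → Fin N) :
    Continuous fun U : Matrix.unitaryGroup (Fin N) ℂ => E a b (U : Matrix (Fin N) (Fin N) ℂ) :=
  (continuous_subtype_val.matrix_submatrix a b).matrix_det

/-- the second moment of a minor -/
def J {m : ℕ} (a b : Fin m → Fin N) : ℂ :=
  ∫ U : Matrix.unitaryGroup (Fin N) ℂ, conj (E a b U) * E a b U ∂(haarU N)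

theorem int_E {m : ℕ} (a b : Fin m → Fin N) : Integrable
    (fun U : Matrix.unitaryGroup (Fin N) ℂ => conj (E a b (U : Matrix (Fin N) (Fin N) ℂ)) *
      E a b (U : Matrix (Fin N) (Fin N) ℂ)) (haarU N) :=
  cont_int ((continuous_conj.comp (E_cont a b)).mul (E_cont a b))

/-- permutation matrices -/
def pm (π : Equiv.Perm (Fin N)) : Matrix.unitaryGroup (Fin N) ℂ :=
  ⟨(1 : Matrix (Fin N) (Fin N) ℂ).submatrix π id, by
    rw [Matrix.mem_unitaryGroup_iff]
    ext i j
    simp only [Matrix.mul_apply, Matrix.star_apply, Matrix.submatrix_apply, id, Matrix.one_apply]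
    by_cases h : i = j
    · subst h
      simp
    · have h2 : π i ≠ π j := fun h' => h (π.injective h')
      simp [h2, h]⟩

theorem pm_mul (π : Equiv.Perm (Fin N)) (U : Matrix.unitaryGroup (Fin N) ℂ) :
    ((pm π * U : Matrix.unitaryGroup (Fin N) ℂ) : Matrix (Fin N) (Fin N) ℂ) =
      (U : Matrix (Fin N) (Fin N) ℂ).submatrix π id := by
  ext i j
  rw [Submonoid.coe_mul]
  simp [pm, Matrix.mul_apply, Matrix.one_apply]

theorem J_perm {m : ℕ} {a b : Fin m → Fin N} (ha : Function.Injective a)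
    (hb : Function.Injective b) : J a b = J b b := by
  classical
  let e : {x // x ∈ Set.range b} ≃ {x // x ∈ Set.range a} :=
    (Equiv.ofInjective b hb).symm.trans (Equiv.ofInjective a ha)
  let π : Equiv.Perm (Fin N) := e.extendSubtype
  have hπ : ∀ i, π (b i) = a i := by
    intro i
    have h1 : π (b i) = e ⟨b i, ⟨i, rfl⟩⟩ := e.extendSubtype_apply_of_mem (b i) ⟨i, rfl⟩
    rw [h1]
    have h2 : (Equiv.ofInjective b hb).symm ⟨b i, ⟨i, rfl⟩⟩ = i :=
      Equiv.ofInjective_symm_apply hb i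
    show ((Equiv.ofInjective a ha) ((Equiv.ofInjective b hb).symm ⟨b i, ⟨i, rfl⟩⟩) : Fin N) = a i
    rw [h2]
    rfl
  have h3 := integral_mul_left_eq_self (μ := haarU N)
    (fun U : Matrix.unitaryGroup (Fin N) ℂ => conj (E b b (U : Matrix (Fin N) (Fin N) ℂ)) *
      E b b (U : Matrix (Fin N) (Fin N) ℂ)) (pm π)
  unfold J
  rw [← h3]
  refine integral_congr_ae (Filter.Eventually.of_forall fun U => ?_)
  simp only
  have h4 : E b b ((pm π * U : Matrix.unitaryGroup (Fin N) ℂ) : Matrix (Fin N) (Fin N) ℂ) =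
      E a b (U : Matrix (Fin N) (Fin N) ℂ) := by
    rw [pm_mul]
    unfold E
    congr 1
    ext i j
    simp [hπ]
  rw [h4]

theorem E_sum {m : ℕ} {b : Fin m → Fin N} (hb : Function.Injective b)
    (U : Matrix.unitaryGroup (Fin N) ℂ) :
    ∑ a : Fin m → Fin N, conj (E a b (U : Matrix (Fin N) (Fin N) ℂ)) *
      E a b (U : Matrix (Fin N) (Fin N) ℂ) = m.factorial := by
  have h1 := cauchyBinet ((U : Matrix (Fin N) (Fin N) ℂ)ᴴ.submatrix b id)
    ((U : Matrix (Fin N) (Fin N) ℂ).submatrix id b)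
  have h2 : (U : Matrix (Fin N) (Fin N) ℂ)ᴴ.submatrix b id *
      (U : Matrix (Fin N) (Fin N) ℂ).submatrix id b = 1 := by
    have h3 : (U : Matrix (Fin N) (Fin N) ℂ)ᴴ * (U : Matrix (Fin N) (Fin N) ℂ) = 1 :=
      Matrix.mem_unitaryGroup_iff'.1 U.2
    have h4 := congrArg (fun M => M.submatrix b b) h3
    simp only [Matrix.submatrix_one _ hb] at h4
    rw [← h4]
    ext i j
    simp [Matrix.mul_apply]
  rw [h2, Matrix.det_one, mul_one] at h1
  rw [h1]
  refine Finset.sum_congr rfl fun a _ => ?_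
  unfold E
  congr 1
  have h5 : ((U : Matrix (Fin N) (Fin N) ℂ)ᴴ.submatrix b id).submatrix id a =
      ((U : Matrix (Fin N) (Fin N) ℂ).submatrix a b)ᴴ := rfl
  rw [h5, Matrix.det_conjTranspose]
  rfl

theorem J_eq {m : ℕ} {b : Fin m → Fin N} (hb : Function.Injective b) :
    (N.choose m : ℂ) * J b b = 1 := by
  classical
  have h1 : ∑ a : Fin m → Fin N, J a b = m.factorial := by
    unfold J
    rw [← integral_finsetSum _ fun a _ => int_E a b]
    simp_rw [E_sum hb]
    simp
  have h2 : ∑ a : Fin m → Fin N, J a b =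
      ∑ a : Fin m → Fin N, if Function.Injective a then J b b else 0 := by
    refine Finset.sum_congr rfl fun a _ => ?_
    split_ifs with ha
    · exact J_perm ha hb
    · have h3 : ∀ U : Matrix (Fin N) (Fin N) ℂ, E a b U = 0 := by
        intro U
        rw [Function.not_injective_iff] at ha
        obtain ⟨i, j, hij, hne⟩ := ha
        exact Matrix.det_zero_of_row_eq hne (by
          ext k
          simp [hij])
      unfold J
      simp [h3]
  rw [h2, ← Finset.sum_filter, Finset.sum_const, nsmul_eq_mul] at h1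
  have h4 : (Finset.univ.filter fun a : Fin m → Fin N => Function.Injective a).card =
      N.descFactorial m := by
    rw [← Fintype.card_subtype, Fintype.card_congr (Equiv.subtypeInjectiveEquivEmbedding _ _),
      Fintype.card_embedding_eq, Fintype.card_fin, Fintype.card_fin]
  rw [h4, Nat.descFactorial_eq_factorial_mul_choose, Nat.cast_mul, mul_assoc] at h1
  have h5 : (m.factorial : ℂ) ≠ 0 := Nat.cast_ne_zero.2 (Nat.factorial_ne_zero m)
  exact mul_left_cancel₀ h5 (by rw [h1, mul_one])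

/-- the principal minors -/
def dS (s : Finset (Fin N)) (U : Matrix (Fin N) (Fin N) ℂ) : ℂ :=
  (U.submatrix (Subtype.val : s → Fin N) (Subtype.val : s → Fin N)).det

theorem dS_cont (s : Finset (Fin N)) :
    Continuous fun U : Matrix.unitaryGroup (Fin N) ℂ => dS s (U : Matrix (Fin N) (Fin N) ℂ) :=
  (continuous_subtype_val.matrix_submatrix _ _).matrix_det

theorem dS_eq {m : ℕ} {s : Finset (Fin N)} (hs : s.card = m) :
    ∃ b : Fin m → Fin N, Function.Injective b ∧ ∀ U, dS s U = E b b U := by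
  let e : Fin m ≃ s := (Fintype.equivFinOfCardEq (by simpa using hs)).symm
  refine ⟨fun i => (e i : Fin N), fun i j h => e.injective (Subtype.ext h), fun U => ?_⟩
  unfold dS E
  rw [← Matrix.det_submatrix_equiv_self e]
  rfl

/-- reflections -/
def rf (i₀ : Fin N) : Matrix.unitaryGroup (Fin N) ℂ :=
  ⟨Matrix.diagonal fun i => if i = i₀ then -1 else 1, by
    rw [Matrix.mem_unitaryGroup_iff, Matrix.star_eq_conjTranspose, Matrix.diagonal_conjTranspose,
      Matrix.diagonal_mul_diagonal, ← Matrix.diagonal_one]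
    congr 1
    funext i
    simp only [Pi.star_apply]
    split_ifs <;> simp⟩

theorem dS_rf (i₀ : Fin N) (s : Finset (Fin N)) (U : Matrix.unitaryGroup (Fin N) ℂ) :
    dS s ((rf i₀ * U : Matrix.unitaryGroup (Fin N) ℂ) : Matrix (Fin N) (Fin N) ℂ) =
      (if i₀ ∈ s then -1 else 1) * dS s (U : Matrix (Fin N) (Fin N) ℂ) := by
  classical
  unfold dS
  have h1 : ((rf i₀ * U : Matrix.unitaryGroup (Fin N) ℂ) : Matrix (Fin N) (Fin N) ℂ).submatrix
      (Subtype.val : s → Fin N) (Subtype.val : s → Fin N) =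
      Matrix.of fun i j : s => (if (i : Fin N) = i₀ then (-1 : ℂ) else 1) *
        (U : Matrix (Fin N) (Fin N) ℂ).submatrix (Subtype.val : s → Fin N)
          (Subtype.val : s → Fin N) i j := by
    ext i j
    rw [Submonoid.coe_mul]
    simp [rf, Matrix.diagonal_mul]
  rw [h1, Matrix.det_mul_column]
  congr 1
  rw [Finset.prod_coe_sort s (fun i => if i = i₀ then (-1 : ℂ) else 1), Finset.prod_ite_eq']

theorem cross {s t : Finset (Fin N)} (hst : s.card = t.card) (hne : s ≠ t) :
    ∫ U : Matrix.unitaryGroup (Fin N) ℂ, conj (dS s U) * dS t U ∂(haarU N) = 0 := by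
  have h1 : ∃ i₀, i₀ ∈ s ∧ i₀ ∉ t := by
    by_contra h
    push Not at h
    exact hne (Finset.eq_of_subset_of_card_le h hst.ge)
  obtain ⟨i₀, h2, h3⟩ := h1
  have h4 := integral_mul_left_eq_self (μ := haarU N)
    (fun U : Matrix.unitaryGroup (Fin N) ℂ => conj (dS s (U : Matrix (Fin N) (Fin N) ℂ)) *
      dS t (U : Matrix (Fin N) (Fin N) ℂ)) (rf i₀)
  simp only [dS_rf, h2, h3, if_true, if_false, one_mul, map_neg, neg_mul] at h4
  rw [integral_neg] at h4
  have h5 : ∀ z : ℂ, -z = z → z = 0 := fun z hz => by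
    have : 2 * z = 0 := by linear_combination -hz
    simpa using this
  exact h5 _ h4

theorem coeff_eq (U : Matrix (Fin N) (Fin N) ℂ) (m : ℕ) :
    (pp 1 U).coeff m = (-1) ^ m * ∑ s ∈ Finset.univ.powersetCard m, dS s U := by
  unfold pp
  rw [pow_one, add_comm, Matrix.map_one _ (map_zero _) (map_one _),
    Matrix.coeff_det_one_add_X_smul_eq_sum_minors, Finset.mul_sum]
  refine Finset.sum_congr rfl fun s hs => ?_
  unfold dS
  have h1 : (-U).submatrix (Subtype.val : s → Fin N) (Subtype.val : s → Fin N) =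
      -(U.submatrix (Subtype.val : s → Fin N) (Subtype.val : s → Fin N)) := rfl
  rw [h1, Matrix.det_neg, Fintype.card_coe, (Finset.mem_powersetCard.1 hs).2]

theorem moment {m : ℕ} (hm : m ≤ N) :
    ∫ U : Matrix.unitaryGroup (Fin N) ℂ,
      ((‖(pp 1 (U : Matrix (Fin N) (Fin N) ℂ)).coeff m‖ ^ 2 : ℝ) : ℂ) ∂(haarU N) = 1 := by
  classical
  have h1 : ∀ U : Matrix (Fin N) (Fin N) ℂ, ((‖(pp 1 U).coeff m‖ ^ 2 : ℝ) : ℂ) =
      ∑ s ∈ Finset.univ.powersetCard m, ∑ t ∈ Finset.univ.powersetCard m,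
        conj (dS s U) * dS t U := by
    intro U
    rw [coeff_eq, norm_mul, norm_pow, norm_neg, norm_one, one_pow, one_mul, Complex.ofReal_pow,
      ← Complex.conj_mul', map_sum, Finset.sum_mul_sum]
  simp_rw [h1]
  have hint : ∀ s t : Finset (Fin N), Integrable
      (fun U : Matrix.unitaryGroup (Fin N) ℂ => conj (dS s (U : Matrix (Fin N) (Fin N) ℂ)) *
        dS t (U : Matrix (Fin N) (Fin N) ℂ)) (haarU N) := fun s t =>
    cont_int ((continuous_conj.comp (dS_cont s)).mul (dS_cont t))
  rw [integral_finsetSum _ fun s _ => integrable_finsetSum _ fun t _ => hint s t]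
  simp_rw [integral_finsetSum _ fun t _ => hint _ t]
  have h2 : ∀ s ∈ (Finset.univ : Finset (Fin N)).powersetCard m,
      ∑ t ∈ (Finset.univ : Finset (Fin N)).powersetCard m,
      ∫ U : Matrix.unitaryGroup (Fin N) ℂ, conj (dS s (U : Matrix (Fin N) (Fin N) ℂ)) *
        dS t (U : Matrix (Fin N) (Fin N) ℂ) ∂(haarU N) = (N.choose m : ℂ)⁻¹ := by
    intro s hs
    have hs2 := (Finset.mem_powersetCard.1 hs).2
    rw [Finset.sum_eq_single_of_mem s hs fun t ht hts => cross
      (by rw [hs2, (Finset.mem_powersetCard.1 ht).2]) hts.symm]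
    obtain ⟨b, hb, hE⟩ := dS_eq hs2
    simp_rw [hE]
    have h3 := J_eq hb
    unfold J at h3
    exact eq_inv_of_mul_eq_one_right h3
  rw [Finset.sum_congr rfl h2, Finset.sum_const, Finset.card_powersetCard, Finset.card_univ,
    Fintype.card_fin, nsmul_eq_mul, mul_inv_cancel₀]
  exact Nat.cast_ne_zero.2 (Nat.choose_pos hm).ne'

end SEC

open SEC in
/-- **SEC** -/
theorem t_SEC : S_SEC := by
  intro N x hN
  have h1 := av_int 1 N x
  have h2 : ∀ U : Matrix (Fin N) (Fin N) ℂ, ig 1 N x U = (1 - x • U).det * (1 - x • Uᴴ).det := by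
    intro U
    unfold ig
    rw [pow_one, pow_one]
  simp_rw [h2] at h1
  rw [h1]
  unfold av
  rw [one_mul, integral_finsetSum]
  · refine Finset.sum_congr rfl fun m hm => ?_
    rw [integral_mul_const, moment (Nat.lt_succ_iff.1 (Finset.mem_range.1 hm)), one_mul]
  · intro m _
    refine Integrable.mul_const ?_ _
    refine cont_int ?_
    simp_rw [coeff_eq]
    refine Complex.continuous_ofReal.comp (Continuous.pow (Continuous.norm ?_) 2)
    exact continuous_const.mul (continuous_finsetSum _ fun s _ => dS_cont s)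

end

end Pool.Agent.L0h37.KM
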