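import Pool.Agent.Y969.SM.Res
import Pool.Agent.Y969.SM.Fin
import Pool.Agent.Y969.SM.Rel
import Pool.Agent.Y969.SM.Win
import Pool.Agent.Y739.SX.FA
import Pool.Agent.Y360.SX.F8
import Pool.Agent.Y429.SX.FB
import Pool.Agent.Y780.SX.Blk
import Pool.Agent.Y547.SX.Min
import Pool.Agent.Y246.SX.W1
import Pool.Agent.Y448.SX.W2
import Pool.Agent.Y620.SX.CRA
import Pool.Agent.Y812.SX.OMX
import Pool.Agent.Y953.SX.Ort
import Pool.Agent.Y379.GP.Sp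
import Pool.Agent.Y76.SX.ARI
import Pool.Agent.Y369.SX.Ars
import Pool.Agent.Y726.SX.TWC
import Pool.Agent.Y809.SX.UB0
import Pool.Agent.Y4.SX.UB
import Pool.Agent.Y901.SX.A1
import Pool.Agent.Y54.SX.A2
import Pool.Agent.Y604.SX.AS
import Pool.Agent.Y670.SX.TAY
import Pool.Agent.Y293.SX.TL2
import Pool.Agent.Y81.SX.T0
import Pool.Agent.Y852.SX.Loc
import Pool.Agent.Y686.SX.Lsm
import Pool.Agent.Y983.SX.EUT
import Pool.Agent.Y978.SX.EUL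
import Pool.Agent.Y475.SX.SHP
import Pool.Agent.Y77.SX.CTW
import Pool.Agent.Y781.SX.LB
import Pool.Agent.Y81.SX.AAP
import Pool.Agent.Y96.SX.ZM
import Pool.Agent.Y514.SX.ZE
import Pool.Agent.Y587.GP.V
import Pool.Agent.Y587.GP.Chi
import Pool.Agent.Y545.GP.CR
import Pool.Agent.Y125.GP.LSW
import Pool.Agent.Y891.GP.AFE
import Pool.Agent.TH806.N4.Abs
import Pool.Agent.TH384.N4_FM

set_option autoImplicit false

/-!
Assembly of the start project Y969/SM (helper969): the moments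
`∫_0^T |ζ(1/2+it)|^4 ∏_j |ζ(1/2+i(t+c_j))|² dt` for almost all `c ∈ [0,T]^n`.
-/

namespace Pool.Agent.L0h37.KM

open Finset Filter Topology MeasureTheory Complex
open Pool.Agent.Y969.SM
open Pool.Agent.H306R2.SM (om cl Yf)
open Pool.Agent.H262R4.TM (Rng Ck)

theorem log_dom (C : ℝ) (m m' : ℕ) (h : m < m') : ∀ᶠ T : ℝ in atTop, C * Real.log T ^ m ≤ Real.log T ^ m' := by
  have h1 : ∀ᶠ T : ℝ in atTop, max C 1 ≤ Real.log T := Real.tendsto_log_atTop.eventually_ge_atTop _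
  filter_upwards [h1] with T hT
  have h2 : C ≤ Real.log T := (le_max_left _ _).trans hT
  have h3 : 1 ≤ Real.log T := (le_max_right _ _).trans hT
  obtain ⟨d, rfl⟩ : ∃ d, m' = m + 1 + d := ⟨m' - (m + 1), by omega⟩
  rw [pow_add, pow_add, pow_one]
  have h4 : 1 ≤ Real.log T ^ d := one_le_pow₀ h3
  have h5 : 0 ≤ Real.log T ^ m := by positivity
  calc C * Real.log T ^ m ≤ Real.log T * Real.log T ^ m := mul_le_mul_of_nonneg_right h2 h5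
    _ = Real.log T ^ m * Real.log T * 1 := by ring
    _ ≤ _ := mul_le_mul_of_nonneg_left h4 (by positivity)

theorem sm_all (hSM : Pool.Agent.Y969.GP.S_SM) : S_MAIN ∧ S_REL ∧ S_AA := by
  have hV := Pool.Agent.Y587.GP.t_V
  have hSP := Pool.Agent.Y379.GP.t_SP
  have hORT : S_ORT := Pool.Agent.Y953.SX.t_ORT hSP
  have hARI : S_ARI := Pool.Agent.Y76.SX.t_ARI
  have hW2B : S_W2B := Pool.Agent.Y76.SX.t_W2B
  have hLOC : S_LOC := Pool.Agent.Y852.SX.t_LOC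
  have hAA : S_AA := Pool.Agent.Y81.SX.AAP.t_AA hLOC
  have hCTW : S_CTW := Pool.Agent.Y77.SX.t_CTW
  have hTWC : S_TWC := Pool.Agent.Y726.SX.t_TWC
  have hPFM : Pool.Agent.TH806.N4.P_FM := Pool.Agent.TH384.N4_FM.t_FM
  have hEUL : S_EUL := Pool.Agent.Y978.SX.t_EUL hLOC (Pool.Agent.Y983.SX.EUT.t_EUT Pool.Agent.Y686.SX.t_LSM) hORT hARI hW2B
  obtain ⟨k₀, hk₀⟩ := Pool.Agent.Y739.SX.t_FA
  obtain ⟨k, hk⟩ : ∃ k, k = max k₀ 2 := ⟨_, rfl⟩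
  have hk2 : 2 ≤ k := by rw [hk]; exact le_max_right _ _
  have hFA : S_FA k := hk₀ k (by rw [hk]; exact le_max_left _ _)
  have hFB : S_FB k := Pool.Agent.Y429.SX.t_FB Pool.Agent.Y360.SX.t_F8 k hk2
  have hA : ∀ᶠ T : ℝ in atTop, ∀ κ : ℕ, Rng T κ →
      ∫ t in Set.Ioi (0:ℝ), om κ (κ / T) t * |F0 k T t| ≤ Real.log T ^ 5 ∧
      IntegrableOn (fun t => om κ (κ / T) t * |F0 k T t|) (Set.Ioi 0) := by
    obtain ⟨C, -, h⟩ := hFA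
    filter_upwards [h, log_dom C 4 5 (by norm_num)] with T hT hT2 κ hκ
    obtain ⟨-, h2, -, -, h5, -⟩ := hT κ hκ
    exact ⟨h5.trans hT2, h2⟩
  have hX4 : ∃ C : ℝ, 0 < C ∧ ∀ᶠ T : ℝ in atTop, ∀ κ : ℕ, Rng T κ →
      ∫ t in Set.Ioi (0:ℝ), om κ (κ / T) t * Xz t ^ 4 ≤ C * Real.log T ^ 4 := by
    obtain ⟨C, hC, h⟩ := hFA
    refine ⟨C, hC, ?_⟩
    filter_upwards [h] with T hT κ hκ
    exact (hT κ hκ).2.2.2.2.2
  have hUB : S_UB k := Pool.Agent.Y4.SX.t_UB k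
    (Pool.Agent.Y809.SX.t_UB0 hTWC hPFM Pool.Agent.Y369.SX.t_ARS k hk2) hFB
  have hAS : S_AS := Pool.Agent.Y604.SX.t_AS hTWC hPFM Pool.Agent.TH806.N4.a_ING Pool.Agent.Y901.SX.t_A1
    Pool.Agent.Y54.SX.t_A2 ⟨k, hk2, hFA⟩
  have hAFE := Pool.Agent.Y891.GP.t_AFE hV Pool.Agent.Y587.GP.Chi.t_CHI
  have hWIN : S_WIN := t_WIN k hFB (Pool.Agent.Y246.SX.t_W1 k hFA hFB hSM)
    (Pool.Agent.Y448.SX.t_W2 k hFB hA hAFE hSM)
    (Pool.Agent.Y547.SX.t_MIN k Pool.Agent.Y780.SX.t_BLK hFB hA (Pool.Agent.Y125.GP.t_LSW hSP)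
      (Pool.Agent.Y545.GP.t_CR hV))
    (Pool.Agent.Y670.SX.t_TAY k (Pool.Agent.Y620.SX.t_CRA hV) Pool.Agent.Y812.SX.t_OMX hORT hFA hFB)
    (Pool.Agent.Y293.SX.t_TL2 k hUB hORT hARI hFB)
    (Pool.Agent.Y81.SX.T0.t_T0 k hUB hAS hFA hORT hARI hW2B hFB) hCTW hV
  have hMAIN : S_MAIN := t_MAIN hWIN (Pool.Agent.Y475.SX.t_SHP hSM hCTW hX4) hEUL hCTW
  have hREL : S_REL := t_REL hMAIN (Pool.Agent.Y781.SX.t_LB hLOC) (Pool.Agent.Y514.SX.t_ZE hAA Pool.Agent.Y96.SX.t_ZM)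
  exact ⟨hMAIN, hREL, hAA⟩

end Pool.Agent.L0h37.KM
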