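import Pool.Agent.N879.PZ.Stm

set_option autoImplicit false

/-!
Project KM (helper37): Koesters' formula for clusters.  For every `n` and all real `α_0, ..., α_n`, for almost all
`c ∈ [0,T]^n`, with `L = log T`,
`(T L^(n+1))⁻¹ ∫_0^T Gz (α_0/L) t * ∏_j Gz (α_j/L) (t + c_j) dt = ∏ kap α_j * zp1 c * AA1 c + o(1)`,
where `Gz a u = ζ(1/2+i(a+u)) ζ(1/2+i(a-u))`.  Definitions and statements.
-/

namespace Pool.Agent.L0h37.KM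

open Complex Filter Topology MeasureTheory Set
open Pool.Agent.Y969.GP (ff ht lam FR mB)
open Pool.Agent.W184.NZ (w1)
open Pool.Agent.N879.PZ (ee Wb BY1 SS1 zp1 AA1)

noncomputable section

/-! ### Definitions -/

/-- zeta on the critical line -/
def Z (v : ℝ) : ℂ := riemannZeta (1 / 2 + I * v)

/-- the partial sums of zeta on the critical line -/
def PM (M : ℕ) (v : ℝ) : ℂ := ∑ n ∈ Finset.Icc 1 M, (n : ℂ) ^ (-(1 / 2 + I * (v : ℂ)))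

/-- the product of two values of zeta, at `1/2 + i(a+u)` and `1/2 + i(a-u)` -/
def Gz (a u : ℝ) : ℂ := Z (a + u) * Z (a - u)

/-- the same with the partial sums -/
def GM (M : ℕ) (a u : ℝ) : ℂ := PM M (a + u) * PM M (a - u)

/-- the coprime pairs with entries at most `M` -/
def fr (M : ℕ) : Finset (ℕ × ℕ) := (Finset.Icc 1 M ×ˢ Finset.Icc 1 M).filter fun p => Nat.Coprime p.1 p.2

/-- the coefficient of the frequency `p` in `GM` -/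
def bz (M : ℕ) (a : ℝ) (p : ℕ × ℕ) : ℂ :=
  ∑ g ∈ Finset.Icc 1 (M / max p.1 p.2), ((g ^ 2 * (p.1 * p.2) : ℕ) : ℂ) ^ (-(1 / 2 + I * (a : ℂ)))

/-- the low part of `GM` -/
def DL (M N : ℕ) (a u : ℝ) : ℂ := ∑ p ∈ FR N, bz M a p * ee u p

/-- the high part of `GM` -/
def HI (M N : ℕ) (a u : ℝ) : ℂ := ∑ p ∈ (fr M).filter (fun p => (N : ℝ) < ht p), bz M a p * ee u p

/-- the constant: `sin α / α` times `exp (-iα)` -/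
def kap (α : ℝ) : ℂ := ∫ x in (0 : ℝ)..1, cexp (-(2 * I * ((α * x : ℝ) : ℂ)))

/-- the length of the partial sums -/
def Mt (B : ℕ) (T : ℝ) : ℕ := ⌊T / Real.log T ^ B⌋₊

/-- the product of the entries of a tuple -/
def pr {n : ℕ} (q : Fin n → ℕ × ℕ) : ℕ × ℕ := (∏ j, (q j).1, ∏ j, (q j).2)

/-- the reduced fraction -/
def rd (x : ℕ × ℕ) : ℕ × ℕ := (x.1 / Nat.gcd x.1 x.2, x.2 / Nat.gcd x.1 x.2)

/-! ### The partial sums in mean square -/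

/-- KLB (Kusmin-Landau): the blocks beyond the stationary point.
Proof: dyadic blocks `[Y, 2Y)`; on each block `Pool.Agent.H438R2.DL.SL_le` with `ls = []`, `β = 0`, `Z = u/(2π)`
(its condition `2 Z ≤ N` holds since `u ≤ N`) bounds every sum of `n^(iu)` over an interval in the block by `C Y/u`
(`n^(iu) = e(Z log n)`, conjugate for the sign); partial summation with the weight `n^(-1/2)` gives `C √Y / u`;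
the sum over the blocks up to `N'` is geometric. -/
def S_KLB : Prop := ∃ C : ℝ, 0 < C ∧ ∀ (N N' : ℕ) (u : ℝ), 1 ≤ u → u ≤ N → N ≤ N' →
  ‖∑ n ∈ Finset.Ioc N N', (n : ℂ) ^ (-(1 / 2 + I * (u : ℂ)))‖ ≤ C * √N' / u

/-- HLA: zeta against its partial sum of length about `3T` in mean square.
Proof: `Pool.Agent.TH264.GS.pw` (file TH264/GS/AP.lean) with `p^8 = 3T/2` and a natural `N` in `[p^10, 2 p^10]`: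
`‖ζ(1/2+iu) - DN N‖ ≤ 6 p^5/(1+u) + 7/p^3` for `u ≤ 3T`; `DN N` minus `PM X u` is a block sum bounded by
S_KLB (`u ≤ 3T ≤ X`), so the difference is `≤ C T^(5/8)/u + C T^(-3/8)`; integrate the square over `[√T, 3T]`. -/
def S_HLA : Prop := ∃ C : ℝ, 0 < C ∧ ∀ᶠ T : ℝ in atTop, ∀ X : ℕ, 3 * T ≤ X → (X : ℝ) ≤ 6 * T →
  ∫ u in (√T)..(3 * T), ‖Z u - PM X u‖ ^ 2 ≤ C * T ^ (3 / 4 : ℝ)

/-- L2A: second moments.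
Proof: everything is even in `v` (`Z (-v) = conj (Z v)`, same for `PM`), so consider `[0, 3T]`. Mean values by
`Pool.Agent.TH928.GS.t_MV : Pool.Agent.TH612.GS.S_MV`. On `[√T, 3T]`: with `X = ⌈3T⌉`, `Z - PM X` by S_HLA,
`PM X - PM M = ∑_{M<n≤X}`, mean square `≤ C ∑_{M<n≤X} (T+n)/n ≤ C T (1 + log (X/M)) ≤ C T log log T`.
On `[0, √T]`: `∫‖Z‖² ≤ (√T)^(1/2) (∫‖Z‖⁴)^(1/2) ≤ √T L^A` by `Pool.Agent.N879.PZ.t_M4L`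
(`t_M4L t_AFX t_CRD t_LT`), and `∫‖PM M‖² ≤ C ∑_{n≤M} (√T+n)/n ≤ C (√T L + M) ≤ C T` (S_MV with `√T/2`). -/
def S_L2A : Prop := (∃ C : ℝ, 0 < C ∧ ∀ᶠ T : ℝ in atTop, ∫ v in (-(3 * T))..(3 * T), ‖Z v‖ ^ 2 ≤ C * (T * Real.log T)) ∧
  ∀ B : ℕ, 1 ≤ B → ∃ C : ℝ, 0 < C ∧ ∀ᶠ T : ℝ in atTop,
    ∫ v in (-(3 * T))..(3 * T), ‖PM (Mt B T) v‖ ^ 2 ≤ C * (T * Real.log T) ∧
    ∫ v in (-(3 * T))..(3 * T), ‖Z v - PM (Mt B T) v‖ ^ 2 ≤ C * (T * Real.log (Real.log T))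

/-- FG: the factors.  Proof: `Gz a u = Z(a+u) Z(a-u)`, Cauchy-Schwarz, S_L2A;
`‖Gz‖² ≤ (‖Z(a+u)‖⁴ + ‖Z(a-u)‖⁴)/2` and `Pool.Agent.N879.PZ.t_M4L` (`ff v = ‖Z v‖²`, even in `v`). -/
def S_FG : Prop := ∀ B : ℕ, 1 ≤ B → ∃ (C : ℝ) (A : ℕ), 0 < C ∧ ∀ᶠ T : ℝ in atTop, ∀ a : ℝ, |a| ≤ 1 →
  ∫ u in (0 : ℝ)..(2 * T), ‖Gz a u‖ ≤ C * (T * Real.log T) ∧
  ∫ u in (0 : ℝ)..(2 * T), ‖Gz a u‖ ^ 2 ≤ C * (T * Real.log T ^ A) ∧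
  ∫ u in (0 : ℝ)..(2 * T), ‖Gz a u - GM (Mt B T) a u‖ ≤
    C * (T * √(Real.log T * Real.log (Real.log T)))

/-! ### The coefficients -/

/-- GRP: grouping the pairs `(m,n) = (g p.1, g p.2)`, `g = gcd(m,n)`.
`(m)^(-(1/2+i(a+u))) (n)^(-(1/2+i(a-u))) = (mn)^(-(1/2+ia)) exp(iu(log n - log m))`. -/
def S_GRP : Prop := ∀ (M : ℕ) (a : ℝ),
  (∀ u : ℝ, GM M a u = ∑ p ∈ fr M, bz M a p * ee u p) ∧
  (∀ (N : ℕ) (u : ℝ), N ≤ M → GM M a u = DL M N a u + HI M N a u) ∧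
  ∀ p : ℕ × ℕ, 1 ≤ p.1 → 1 ≤ p.2 → ‖bz M a p‖ ≤ (1 + Real.log M) * (√(ht p))⁻¹

/-- BZA: asymptotics of the coefficients.
Proof: with `G = M / max p.1 p.2`, `a = α/L`: `√ht * bz = ht^(-ia) ∑_{g≤G} g^(-1-2ia)`; the sum is
`∫_1^G x^(-1-2ia) dx + O(1+|a|) = L ∫_0^(log G/L) exp(-2iαx) dx + O(1+|a|)`, `|L - log G| ≤ log ht + B log L + C`,
and `|ht^(-ia) - 1| ≤ |α| log ht / L`, `|∑| ≤ 1 + log M ≤ 2L`. -/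
def S_BZA : Prop := ∀ (α : ℝ) (B : ℕ), ∃ C : ℝ, 0 < C ∧ ∀ᶠ T : ℝ in atTop, ∀ p : ℕ × ℕ, 1 ≤ p.1 → 1 ≤ p.2 →
  ht p ≤ √T → ‖((√(ht p) : ℝ) : ℂ) * bz (Mt B T) (α / Real.log T) p - kap α * ((Real.log T : ℝ) : ℂ)‖ ≤
    C * (1 + Real.log (ht p) + Real.log (Real.log T))

/-- MSA: the coefficient of a tuple.
Proof: `∏ (√(ht (q j)))⁻¹ * (√(ht (rd (pr q))))⁻¹ = w1 (pr q)`, each factor `√ht * bz` is `kap * L + O(1+log ht+log L)`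
(S_BZA; `ht (rd (pr q)) ≤ ∏ ht (q j) ≤ N^n ≤ √T`), and is `≤ 2L`, `‖kap‖ ≤ 1`; telescope the product of `n+1` factors. -/
def S_MSA : Prop := ∀ (n B C1 : ℕ) (α0 : ℝ) (α : Fin n → ℝ), ∃ C : ℝ, 0 < C ∧ ∀ᶠ T : ℝ in atTop,
  ∀ q ∈ Fintype.piFinset (fun _ : Fin n => FR ⌊Real.log T ^ C1⌋₊),
  ‖(∏ j, bz (Mt B T) (α j / Real.log T) (q j)) * bz (Mt B T) (α0 / Real.log T) (rd (pr q)) -
      (kap α0 * ∏ j, kap (α j)) * ((Real.log T ^ (n + 1) * w1 (pr q) : ℝ) : ℂ)‖ ≤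
    C * (Real.log T ^ n * (1 + Real.log (∏ j, ht (q j)) + Real.log (Real.log T)) * w1 (pr q))

/-! ### The operator bound and the telescoping -/

/-- OPM: the high part as an operator.
Proof: dyadic blocks `K < ht p ≤ 2K`, `K = N 2^k`, at most `2 + 2 log X` of them, Cauchy-Schwarz over the blocks.
For one block: `∫_t R(t) ∑ b ee (t+c) = ∑ b_p Rh_p ee c p` with `Rh_p = ∫_0^T R(t) ee t p dt`
(`ee (t+c) p = ee t p * ee c p`); `Pool.Agent.N879.PZ.t_LC` gives `≤ C (T+2K) ∑ ‖b_p Rh_p‖² ≤ C (T+2K) V²/K ∑ ‖Rh_p‖²`, and the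
dual form in `Pool.Agent.N879.PZ.t_LT` (amplitudes 1, `w = 1`, `a = 0`) gives `∑ ‖Rh_p‖² ≤ C (T+2K)(1+log 2K) ∫‖R‖²`;
`(T+2K)²/K ≤ 2T²/K + 8K`, sum over the blocks. Template: N879/PZ/Kh.lean. -/
def S_OPM : Prop := ∃ C : ℝ, 0 < C ∧ ∀ (N X : ℕ) (T V : ℝ) (S : Finset (ℕ × ℕ)) (b : ℕ × ℕ → ℂ) (R : ℝ → ℂ),
  1 ≤ N → 1 ≤ X → 1 ≤ T → 0 ≤ V → S ⊆ FR X → (∀ p ∈ S, (N : ℝ) < ht p ∧ ‖b p‖ ≤ V * (√(ht p))⁻¹) → Wb 0 T R →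
  ∫ c in (0 : ℝ)..T, ‖∫ t in (0 : ℝ)..T, R t * ∑ p ∈ S, b p * ee (t + c) p‖ ^ 2 ≤
    C * ((1 + Real.log X) ^ 3 * V ^ 2 * (T ^ 2 / N + X)) * ∫ t in (0 : ℝ)..T, ‖R t‖ ^ 2

/-- TX1: one factor bounded as an operator.
Proof: for fixed `c_i`, `i ≠ j`, the operator bound with `F t = w t * ∏_{i≠j} k i (t + c i)` (bounded, measurable) gives
`∫_{c_j} ‖.‖² ≤ K ∫_t ‖w‖² ∏ ‖k i (t+c i)‖²`; integrate over the other `c_i` (Tonelli; `∫_0^T ‖k i (t+c)‖² dc ≤ V` for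
`0 ≤ t ≤ T`), then Cauchy-Schwarz on the box (volume `T^n`). Template: N879/PZ/Telc.lean, Ctg.lean (t_CTG, continuity in `c`). -/
def S_TX1 : Prop := ∀ (n : ℕ) (T K V : ℝ) (j : Fin n) (w h : ℝ → ℂ) (k : Fin n → ℝ → ℂ), 0 < T → 0 ≤ K → 0 ≤ V →
  Wb 0 T w → Continuous h → (∀ i, Continuous (k i)) →
  (∀ F : ℝ → ℂ, Wb 0 T F → ∫ c in (0 : ℝ)..T, ‖∫ t in (0 : ℝ)..T, F t * h (t + c)‖ ^ 2 ≤
    K * ∫ t in (0 : ℝ)..T, ‖F t‖ ^ 2) →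
  (∀ i, i ≠ j → ∫ u in (0 : ℝ)..(2 * T), ‖k i u‖ ^ 2 ≤ V) →
  ∫ c, ‖∫ t in (0 : ℝ)..T, w t * (h (t + c j) * ∏ i ∈ Finset.univ.erase j, k i (t + c i))‖ ∂(mB n 0 T) ≤
    √(T ^ n * K * V ^ (n - 1) * ∫ t in (0 : ℝ)..T, ‖w t‖ ^ 2)

/-- TELX: replacement of all the factors.
Proof: `∏ f - ∏ g = ∑_j (∏_{i<j} f_i) (h_j + r_j) (∏_{i>j} g_i)`; the `h_j` terms by S_TX1, the `r_j` terms by
`Pool.Agent.N879.PZ.t_FUB` (Tonelli, the windows `∫_0^T ‖.(t+c)‖ dc ≤ ∫_0^{2T}`). -/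
def S_TELX : Prop := ∀ (n : ℕ) (T K V W ρ : ℝ) (w : ℝ → ℂ) (f g h r : Fin n → ℝ → ℂ), 0 < T → 0 ≤ K → 0 ≤ V →
  0 ≤ W → 0 ≤ ρ → Wb 0 T w → (∀ j, Continuous (f j)) → (∀ j, Continuous (g j)) → (∀ j, Continuous (h j)) →
  (∀ j, Continuous (r j)) → (∀ j u, f j u - g j u = h j u + r j u) →
  (∀ j, ∀ F : ℝ → ℂ, Wb 0 T F → ∫ c in (0 : ℝ)..T, ‖∫ t in (0 : ℝ)..T, F t * h j (t + c)‖ ^ 2 ≤
    K * ∫ t in (0 : ℝ)..T, ‖F t‖ ^ 2) →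
  (∀ j, ∫ u in (0 : ℝ)..(2 * T), ‖f j u‖ ^ 2 ≤ V ∧ ∫ u in (0 : ℝ)..(2 * T), ‖g j u‖ ^ 2 ≤ V ∧
    ∫ u in (0 : ℝ)..(2 * T), ‖f j u‖ ≤ W ∧ ∫ u in (0 : ℝ)..(2 * T), ‖g j u‖ ≤ W ∧
    ∫ u in (0 : ℝ)..(2 * T), ‖r j u‖ ≤ ρ) →
  ∫ c, ‖∫ t in (0 : ℝ)..T, w t * (∏ j, f j (t + c j) - ∏ j, g j (t + c j))‖ ∂(mB n 0 T) ≤
    n * √(T ^ n * K * V ^ (n - 1) * ∫ t in (0 : ℝ)..T, ‖w t‖ ^ 2) +
      n * (ρ * W ^ (n - 1) * ∫ t in (0 : ℝ)..T, ‖w t‖)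

/-! ### The main term -/

/-- OFF: the classical off-diagonal sum.  Proof: `|log m - log n| ≥ |m-n|/max`, then for `n < m`:
`∑ √(m/n)/(m-n)` is `O(1+log m)` (split at `n ≤ m/2`). -/
def S_OFF : Prop := ∃ C : ℝ, 0 < C ∧ ∀ X : ℕ, 1 ≤ X →
  ∑ m ∈ Finset.Icc 1 X, ∑ n ∈ Finset.Icc 1 X,
    (if m = n then 0 else (√m * √n * |Real.log m - Real.log n|)⁻¹) ≤ C * (X * (1 + Real.log X))

/-- TWM: the twisted mean of `GM`.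
Proof: expand `GM M a t * ee t q = ∑_{m,n≤M} (mn)^(-(1/2+ia)) exp(it(log (n q.2) - log (m q.1)))`; the terms with
`n q.2 = m q.1` (`m = g q.2`, `n = g q.1`, `g ≤ M / max`) give `T * bz M a q`; the other integrals are
`≤ 2/|log (n q.2) - log (m q.1)|`, and S_OFF with `X = M * (q.1 * q.2)` for `x = n q.2`, `y = m q.1`. -/
def S_TWM : Prop := ∃ C : ℝ, 0 < C ∧ ∀ (M : ℕ) (a T : ℝ) (q : ℕ × ℕ), 1 ≤ M → 0 ≤ T → 1 ≤ q.1 → 1 ≤ q.2 →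
  Nat.Coprime q.1 q.2 →
  ‖(∫ t in (0 : ℝ)..T, GM M a t * ee t q) - (T : ℂ) * bz M a q‖ ≤
    C * (M * ht q ^ 2 * (1 + Real.log (M * ht q)))

/-- MSM: mean square of the low part.
Proof: expand `∏_j DL(t+c_j) = ∑_q (∏ bz (q j)) (∏ ee (c j) (q j)) * ee t (rd (pr q))`, S_TWM for the integral over `t`, so
the difference is a trigonometric polynomial in `c` and `Pool.Agent.Y969.SM.S_ORT` (`Pool.Agent.Y953.SX.t_ORT Pool.Agent.Y379.GP.t_SP`)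
bounds it by `2 T^n ∑_q ‖.‖²`. Coefficients: for `∏ ht ≤ Y`: S_MSA; for `∏ ht > Y`: `‖∏ bz * bz‖ ≤ (1+log M)^(n+1) w1` (S_GRP) and
`∑_{∏ht>Y} w1² ≤ Y^(-1/4) C` by `Pool.Agent.Y76.SX.t_ARI` with `s = 1/4`; the error of S_TWM is
`≤ C M N^(2n) L`, total `M² L^(2n+2) N^(4n+1)`, small since `B > 4 n C1` (crude bounds suffice). Template: N879/PZ/Msq.lean. -/
def S_MSM : Prop := ∀ (n B C1 : ℕ) (α0 : ℝ) (α : Fin n → ℝ) (ε : ℝ), 1 ≤ C1 → 4 * n * C1 + C1 + 4 ≤ B → 0 < ε →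
  ∃ Y₀ : ℕ, ∀ Y : ℕ, Y₀ ≤ Y → ∀ᶠ T : ℝ in atTop,
  ∫ c, ‖(∫ t in (0 : ℝ)..T, GM (Mt B T) (α0 / Real.log T) t *
        ∏ j : Fin n, DL (Mt B T) ⌊Real.log T ^ C1⌋₊ (α j / Real.log T) (t + c j)) -
      ((T * Real.log T ^ (n + 1) : ℝ) : ℂ) * ((kap α0 * ∏ j, kap (α j)) * BY1 n Y c)‖ ^ 2 ∂(mB n 0 T) ≤
    ε * (T ^ n * (T * Real.log T ^ (n + 1)) ^ 2)

/-! ### The theorem (assembly, owner) -/

/-- the moment -/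
def JJ {n : ℕ} (α0 : ℝ) (α : Fin n → ℝ) (T : ℝ) (c : Fin n → ℝ) : ℂ :=
  ∫ t in (0 : ℝ)..T, Gz (α0 / Real.log T) t * ∏ j, Gz (α j / Real.log T) (t + c j)

/-- MEAN (owner) -/
def S_MEAN : Prop := ∀ (n : ℕ) (α0 : ℝ) (α : Fin n → ℝ) (ε : ℝ), 0 < ε → ∃ Y₀ : ℕ, ∀ Y : ℕ, Y₀ ≤ Y →
  ∀ᶠ T : ℝ in atTop, ∫ c, ‖JJ α0 α T c / ((T * Real.log T ^ (n + 1) : ℝ) : ℂ) -
    (kap α0 * ∏ j, kap (α j)) * BY1 n Y c‖ ∂(mB n 0 T) ≤ ε * T ^ n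

/-- MAIN (owner) -/
def S_MAIN : Prop := ∀ (n : ℕ) (α0 : ℝ) (α : Fin n → ℝ) (ε : ℝ), 0 < ε → ∀ᶠ T : ℝ in atTop,
  (mB n 0 T).real {c | ε ≤ ‖JJ α0 α T c / ((T * Real.log T ^ (n + 1) : ℝ) : ℂ) -
    (kap α0 * ∏ j, kap (α j)) * ((zp1 c * AA1 c : ℝ) : ℂ)‖} ≤ ε * T ^ n

end

end Pool.Agent.L0h37.KM
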