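import Pool.Agent.L0h37.KM.Stm
import Pool.Agent.R446.KR.Rmt

set_option autoImplicit false

/-! Project KM (helper37): the constant `kap α` is the limit of the matrix integrals `W_1(α,N)` of the problem. -/

namespace Pool.Agent.L0h37.KM

open Complex Filter Topology MeasureTheory Set
open scoped Matrix
open Pool.Agent.R446.KR (haarU Wk)

noncomputable section

/-- SEC: orthonormality of the secular coefficients.
Proof: `det (1 - x U) = ∑_j (-x)^j c_j(U)` with `c_j(U) = ∑_{|S|=j} det U[S,S]`, and `det (1 - x Uᴴ) = ∑_j (-x)^j conj (c_j(U))`.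
Haar invariance under `U ↦ D U` (`D` diagonal unitary, average over `D = diag (exp (i φ_s))`) gives
`∫ c_j conj c_k = 0` for `j ≠ k` and `∫ |c_j|² = ∑_{|S|=j} ∫ |det U[S,S]|²`; invariance under permutation matrices gives
`∫ |det U[S,S]|² = ∫ |det U[T,S]|²` for all `|T| = j`, and `∑_T |det U[T,S]|² = det ((Uᴴ U)[S,S]) = 1` (Cauchy-Binet), so
`∫ |det U[S,S]|² = 1/(N choose j)`. The helper file R446/KR/Rmt.lean has integrability over `haarU` (`cont_int`) and more. -/
def S_SEC : Prop := ∀ (N : ℕ) (x : ℂ), 1 ≤ N → ∫ U : Matrix.unitaryGroup (Fin N) ℂ,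
    (1 - x • (U : Matrix (Fin N) (Fin N) ℂ)).det * (1 - x • (U : Matrix (Fin N) (Fin N) ℂ)ᴴ).det ∂(haarU N) =
  ∑ j ∈ Finset.range (N + 1), x ^ (2 * j)

/-- UW: the limit of the matrix integrals.  Proof: S_SEC with `x = exp (-iα/N)` gives
`Wk 1 α N = N⁻¹ ∑_{j ≤ N} exp (-2iαj/N)` (`Wk` of R446/KR/Rmt.lean, `k = 1`), a Riemann sum of `kap α` (geometric sum, or `|f| ≤ 1`, `|f'| ≤ 2|α|`). -/
def S_UW : Prop := ∀ α : ℝ, Tendsto (fun N : ℕ => Wk 1 α N) atTop (𝓝 (kap α))

end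

end Pool.Agent.L0h37.KM
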